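import Pool.Agent.Helper10.UT.G2
import Pool.Agent.Helper13.OPG.E3
import Pool.Agent.Helper13.PL.S1

/-!
# Project UT: polynomials without root, and the relative algebraic closure of the field of generic parameters
-/

universe u v w

namespace Pool.Agent.UT

open Polynomial Pool.Agent.Helper37.UL UL Pool.Agent.OPN Pool.Agent.OPG

/-- The polynomial `Φ(X)`, whose coefficients are polynomials over `F₀` in the variables `Q`, has no root in the
field of rational functions in these variables over the algebraic closure of `F₀`. -/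
def NoRoot {F₀ : Type u} [Field F₀] {Q : Type v} (Φ : (MvPolynomial Q F₀)[X]) : Prop :=
  ∀ r : FractionRing (MvPolynomial Q (AlgebraicClosure F₀)),
    eval₂ ((algebraMap (MvPolynomial Q (AlgebraicClosure F₀))
      (FractionRing (MvPolynomial Q (AlgebraicClosure F₀)))).comp
        (MvPolynomial.map (algebraMap F₀ (AlgebraicClosure F₀)))) r Φ ≠ 0

/-- nonzero constants have no root -/
theorem NoRoot.C {F₀ : Type u} [Field F₀] {Q : Type v} {Ψ : MvPolynomial Q F₀} (hΨ : Ψ ≠ 0) :
    NoRoot (Polynomial.C Ψ) := by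
  intro r h0
  rw [eval₂_C, RingHom.comp_apply] at h0
  apply hΨ
  have h1 := (map_eq_zero_iff _ (IsFractionRing.injective (MvPolynomial Q (AlgebraicClosure F₀))
    (FractionRing (MvPolynomial Q (AlgebraicClosure F₀))))).1 h0
  exact (map_eq_zero_iff _ (MvPolynomial.map_injective _ (algebraMap F₀ _).injective)).1 h1

theorem NoRoot.mul {F₀ : Type u} [Field F₀] {Q : Type v} {Φ Φ' : (MvPolynomial Q F₀)[X]}
    (h : NoRoot Φ) (h' : NoRoot Φ') : NoRoot (Φ * Φ') := by
  intro r
  rw [eval₂_mul]
  exact mul_ne_zero (h r) (h' r)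

theorem NoRoot.one {F₀ : Type u} [Field F₀] {Q : Type v} : NoRoot (1 : (MvPolynomial Q F₀)[X]) := by
  intro r
  rw [eval₂_one]
  exact one_ne_zero

theorem NoRoot.prod {F₀ : Type u} [Field F₀] {Q : Type v} {ι : Type*} {s : Finset ι}
    {Φ : ι → (MvPolynomial Q F₀)[X]} (h : ∀ i ∈ s, NoRoot (Φ i)) : NoRoot (∏ i ∈ s, Φ i) := by
  classical
  induction s using Finset.induction_on with
  | empty => exact NoRoot.one
  | insert a s ha ih =>
    rw [Finset.prod_insert ha]
    exact (h a (Finset.mem_insert_self _ _)).mul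
      (ih fun i hi => h i (Finset.mem_insert_of_mem hi))

/-- evaluation of the coefficients -/
noncomputable abbrev aeR {F₀ : Type u} {A : Type w} [Field F₀] [CommRing A] [Algebra F₀ A] {Q : Type v}
    (x : Q → A) : MvPolynomial Q F₀ →+* A :=
  ((MvPolynomial.aeval x : MvPolynomial Q F₀ →ₐ[F₀] A) : MvPolynomial Q F₀ →+* A)

/-- clearing denominators -/
theorem lift_poly {F₀ S : Type u} [Field F₀] [Field S] [Algebra F₀ S] {Q : Type v}
    {x : Q → S} (hx : AlgebraicIndependent F₀ x)
    (P : (IntermediateField.adjoin F₀ (Set.range x))[X]) :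
    ∃ (b : MvPolynomial Q F₀) (Φ : (MvPolynomial Q F₀)[X]), b ≠ 0 ∧
      ∀ z : S, eval₂ (aeR x) z Φ = MvPolynomial.aeval x b * aeval z P := by
  let R := MvPolynomial Q F₀
  let K := FractionRing R
  let e := hx.aevalEquivField
  let P' : K[X] := P.map (e.symm.toRingEquiv.toRingHom)
  obtain ⟨b, hbM, hb⟩ := IsLocalization.integerNormalization_spec (nonZeroDivisors R) P'
  let ψ : K →+* S := (IntermediateField.val _).toRingHom.comp e.toRingEquiv.toRingHom
  have hψ : ψ.comp (algebraMap R K) = aeR x := by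
    refine RingHom.ext fun r => ?_
    exact hx.aevalEquivField_algebraMap_apply_coe r
  have hψ2 : ψ.comp e.symm.toRingEquiv.toRingHom =
      algebraMap (IntermediateField.adjoin F₀ (Set.range x)) S := by
    refine RingHom.ext fun r => ?_
    change ((e (e.symm r) : _) : S) = r
    rw [AlgEquiv.apply_symm_apply]
  refine ⟨b, IsLocalization.integerNormalization (nonZeroDivisors R) P',
    nonZeroDivisors.ne_zero hbM, fun z => ?_⟩
  rw [← hψ, ← eval₂_map, hb, Algebra.smul_def, eval₂_mul, Polynomial.algebraMap_apply, eval₂_C]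
  congr 1
  · exact hx.aevalEquivField_algebraMap_apply_coe b
  · rw [eval₂_map, hψ2]
    rfl

/-- the field of rational functions over the algebraic closure -/
theorem emb_closure {F₀ S : Type u} [Field F₀] [Field S] [IsAlgClosed S] [Algebra F₀ S]
    {Q : Type v} {x : Q → S} (hx : AlgebraicIndependent F₀ x) :
    ∃ φ : FractionRing (MvPolynomial Q (AlgebraicClosure F₀)) →+* S,
      (∀ p : MvPolynomial Q F₀, φ (algebraMap _ _ (MvPolynomial.map
        (algebraMap F₀ (AlgebraicClosure F₀)) p)) = MvPolynomial.aeval x p) ∧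
      ∀ r, φ r ∈ gn (acl (algebraMap F₀ S).fieldRange) x := by
  let l : AlgebraicClosure F₀ →ₐ[F₀] S := IsAlgClosed.lift
  let _ : Algebra (AlgebraicClosure F₀) S := l.toRingHom.toAlgebra
  have hst : IsScalarTower F₀ (AlgebraicClosure F₀) S :=
    IsScalarTower.of_algebraMap_eq fun c => (l.commutes c).symm
  have hle : (algebraMap (AlgebraicClosure F₀) S).fieldRange ≤ acl (algebraMap F₀ S).fieldRange := by
    rintro _ ⟨c, rfl⟩
    rw [mem_acl]
    have h1 : IsAlgebraic F₀ c := Algebra.IsAlgebraic.isAlgebraic c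
    have h2 : IsAlgebraic F₀ (algebraMap (AlgebraicClosure F₀) S c) := h1.algebraMap
    exact Pool.Agent.TD.isAlgebraic_range_iff.2 h2
  have hx1 : AlgebraicIndependent (algebraMap F₀ S).fieldRange x := ind_range.2 hx
  have hx2 : AlgebraicIndependent (AlgebraicClosure F₀) x :=
    ind_range.1 (indep_mono hle (indep_acl hx1))
  refine ⟨(IntermediateField.val _).toRingHom.comp hx2.aevalEquivField.toRingEquiv.toRingHom,
    fun p => ?_, fun r => ?_⟩
  · change ((hx2.aevalEquivField (algebraMap _ _ _) : _) : S) = _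
    rw [hx2.aevalEquivField_algebraMap_apply_coe, MvPolynomial.aeval_map_algebraMap]
  · have h1 : (IntermediateField.adjoin (AlgebraicClosure F₀) (Set.range x)).toSubfield ≤
        gn (acl (algebraMap F₀ S).fieldRange) x := by
      rw [adjoin_sub]
      exact ad_mono hle le_rfl
    exact h1 (hx2.aevalEquivField r).2

section avoid

variable {J : Type v} {Uf : Ultrafilter J} {F₀ C : Type u} [Field F₀] [Field C] [Algebra F₀ C]
  {S : Type u} [Field S] {π : (J → C) →+* S} (h : UP Uf π) {Q : Type} {b : J → Q → C}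

/-- evaluation of polynomials at germs -/
theorem eval_germ [Algebra F₀ S] (hS : ∀ c : F₀, algebraMap F₀ S c = UP.cst π (algebraMap F₀ C c))
    (g : J → C) (Φ : (MvPolynomial Q F₀)[X]) :
    π (fun j => eval₂ (aeR (b j)) (g j) Φ) = eval₂ (aeR fun p => π fun j => b j p) (π g) Φ := by
  have h1 : ∀ p : MvPolynomial Q F₀, (π fun j => MvPolynomial.aeval (b j) p) =
      MvPolynomial.aeval (fun p => π fun j => b j p) p := by
    intro p
    induction p using MvPolynomial.induction_on with
    | C a =>
      rw [MvPolynomial.aeval_C, hS]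
      simp only [MvPolynomial.aeval_C]
      rfl
    | add p q hp hq =>
      rw [map_add, ← hp, ← hq, ← map_add]
      congr 1
      funext j
      rw [Pi.add_apply, map_add]
    | mul_X p i hp =>
      rw [map_mul, ← hp, MvPolynomial.aeval_X, ← map_mul]
      congr 1
      funext j
      rw [Pi.mul_apply, map_mul, MvPolynomial.aeval_X]
  induction Φ using Polynomial.induction_on' with
  | add p q hp hq =>
    rw [eval₂_add, ← hp, ← hq, ← map_add]
    congr 1
    funext j
    rw [Pi.add_apply, eval₂_add]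
  | monomial n a =>
    rw [eval₂_monomial]
    have h2 : (fun j => eval₂ (aeR (b j)) (g j) (monomial n a)) =
        (fun j => MvPolynomial.aeval (b j) a) * g ^ n := by
      funext j
      rw [eval₂_monomial]
      rfl
    rw [h2, map_mul, map_pow, h1]
    rfl

include h

/-- **The relative algebraic closure of the field of generic parameters.**  The parameters `b j` are in the fields
`Fc j`, and for every polynomial without root almost all the polynomials `Φ(b j, X)` have no root in `Fc j`. -/
theorem rel_mem [IsAlgClosed C] {Fc : J → Subfield C}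
    (hU : ∀ Φ : (MvPolynomial Q F₀)[X], NoRoot Φ →
      ∀ᶠ j in (Uf : Filter J), ∀ x ∈ Fc j, eval₂ (aeR (b j)) x Φ ≠ 0) {z : S}
    (hz : z ∈ h.fsub Fc)
    (hza : IsAlgebraic (gn ((algebraMap F₀ C).fieldRange.map (UP.cst π)) fun p => π fun j => b j p) z) :
    z ∈ gn (acl ((algebraMap F₀ C).fieldRange.map (UP.cst π))) (fun p => π fun j => b j p) := by
  classical
  have hSa : IsAlgClosed S := h.isAlgClosed
  let iA : Algebra F₀ S := ((UP.cst π).comp (algebraMap F₀ C)).toAlgebra
  have hS : ∀ c : F₀, algebraMap F₀ S c = UP.cst π (algebraMap F₀ C c) := fun _ => rfl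
  have hK : (algebraMap F₀ S).fieldRange = (algebraMap F₀ C).fieldRange.map (UP.cst π) := by
    ext z
    constructor
    · rintro ⟨c, rfl⟩
      exact ⟨_, ⟨c, rfl⟩, rfl⟩
    · rintro ⟨_, ⟨c, rfl⟩, rfl⟩
      exact ⟨c, rfl⟩
  rw [← hK] at hza ⊢
  set x : Q → S := fun p => π fun j => b j p with hx
  -- the parameters are independent
  have hind : AlgebraicIndependent F₀ x := by
    rw [algebraicIndependent_iff]
    intro Ψ hΨ
    by_contra h0
    have h1 := hU (Polynomial.C Ψ) (NoRoot.C h0)
    have h2 := eval_germ (π := π) (b := b) hS 0 (Polynomial.C Ψ)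
    rw [eval₂_C] at h2
    have h3 : (π fun j => eval₂ (aeR (b j)) ((0 : J → C) j) (Polynomial.C Ψ)) = 0 := by
      rw [h2]
      exact hΨ
    rw [h.eq0] at h3
    obtain ⟨j, hj1, hj2⟩ := (h1.and h3).exists
    exact hj1 0 (Fc j).zero_mem hj2
  -- the minimal polynomial
  have hadj : (IntermediateField.adjoin F₀ (Set.range x)).toSubfield =
      gn (algebraMap F₀ S).fieldRange x := adjoin_sub _
  have hza' : IsAlgebraic (IntermediateField.adjoin F₀ (Set.range x)) z := by
    have h1 : IsAlgebraic (IntermediateField.adjoin F₀ (Set.range x)).toSubfield z := by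
      rw [hadj]
      exact hza
    exact h1
  obtain ⟨c, Φ, hc, hΦ⟩ := lift_poly hind (minpoly (IntermediateField.adjoin F₀ (Set.range x)) z)
  have hc0 : MvPolynomial.aeval x c ≠ 0 := fun h0 =>
    hc ((map_eq_zero_iff _ (show Function.Injective (MvPolynomial.aeval x : _ →ₐ[F₀] S) from
      hind)).1 h0)
  -- it has a root
  have hroot : ¬ NoRoot Φ := by
    intro hno
    obtain ⟨g, hg, hgz⟩ := hz
    have h1 : (π fun j => eval₂ (aeR (b j)) (g j) Φ) = 0 := by
      rw [eval_germ (π := π) (b := b) hS g Φ, hgz, hΦ, minpoly.aeval, mul_zero]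
    rw [h.eq0] at h1
    obtain ⟨j, hj1, hj2⟩ := ((hU Φ hno).and h1).exists
    exact hj1 (g j) (hg j) hj2
  unfold NoRoot at hroot
  push Not at hroot
  obtain ⟨r, hr⟩ := hroot
  obtain ⟨φ, hφ1, hφ2⟩ := emb_closure hind
  have hr' : aeval (φ r) (minpoly (IntermediateField.adjoin F₀ (Set.range x)) z) = 0 := by
    have h1 := congrArg φ hr
    rw [hom_eval₂, map_zero] at h1
    have h2 : φ.comp ((algebraMap (MvPolynomial Q (AlgebraicClosure F₀))
        (FractionRing (MvPolynomial Q (AlgebraicClosure F₀)))).comp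
        (MvPolynomial.map (algebraMap F₀ (AlgebraicClosure F₀)))) = aeR x := by
      refine RingHom.ext fun p => ?_
      exact hφ1 p
    rw [h2, hΦ] at h1
    exact (mul_eq_zero.1 h1).resolve_left hc0
  -- conjugation
  have hint : IsIntegral (IntermediateField.adjoin F₀ (Set.range x)).toSubfield z :=
    IsAlgebraic.isIntegral hza'
  obtain ⟨τ, hτ1, hτ2⟩ := Pool.Agent.Helper37.UL.exists_aut
    (K := (IntermediateField.adjoin F₀ (Set.range x)).toSubfield) (β' := φ r) hint hr'
  rw [hadj] at hτ1
  have hτs : ∀ y ∈ gn (algebraMap F₀ S).fieldRange x, τ.symm y = y := by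
    intro y hy
    rw [RingEquiv.symm_apply_eq, hτ1 y hy]
  have h5 : gn (acl (algebraMap F₀ S).fieldRange) x ≤
      (gn (acl (algebraMap F₀ S).fieldRange) x).comap (τ.symm : S →+* S) := by
    conv_lhs => unfold gn
    rw [Subfield.closure_le]
    rintro y (hy | ⟨i, rfl⟩)
    · refine le_gn (mem_acl.2 ?_)
      refine alg_map' (τ.symm : S →+* S) (fun w hw => ?_) (mem_acl.1 hy)
      change τ.symm w ∈ (algebraMap F₀ S).fieldRange
      rw [hτs w (le_gn hw)]
      exact hw
    · change τ.symm (x i) ∈ gn (acl (algebraMap F₀ S).fieldRange) x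
      rw [hτs (x i) (mem_gn i)]
      exact mem_gn i
  have h6 := h5 (hφ2 r)
  change τ.symm (φ r) ∈ gn (acl (algebraMap F₀ S).fieldRange) x at h6
  rw [← hτ2, RingEquiv.symm_apply_apply] at h6
  exact h6

end avoid

end Pool.Agent.UT
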