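import Pool.Agent.Helper10.UT.E5
import Pool.Agent.Helper13.PL.S1

/-!
# Project UT: the reduction to the key statement for varying fields of constants
-/

universe u

namespace Pool.Agent.UT

open IntermediateField Pool.Agent.OPN Pool.Agent.Helper37.UL UL Pool.Agent.OPG

/-- an ultrafilter which avoids all polynomials without root -/
theorem exists_denseV {F₀ C : Type u} [Field F₀] [Field C] [Algebra F₀ C] {Q : Type} {J : Type u}
    (b : J → Q → C) (Fc : J → Subfield C)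
    (hS : ∀ Φ : Polynomial (MvPolynomial Q F₀), NoRoot Φ →
      ∃ j, ∀ x ∈ Fc j, Polynomial.eval₂ (aeR (b j)) x Φ ≠ 0) :
    ∃ U : Ultrafilter J, ∀ Φ : Polynomial (MvPolynomial Q F₀), NoRoot Φ →
      ∀ᶠ j in (U : Filter J), ∀ x ∈ Fc j, Polynomial.eval₂ (aeR (b j)) x Φ ≠ 0 := by
  classical
  obtain ⟨U, hU⟩ := Ultrafilter.exists_ultrafilter_of_finite_inter_nonempty
    {A : Set J | ∃ Φ : Polynomial (MvPolynomial Q F₀), NoRoot Φ ∧
      A = {j | ∀ x ∈ Fc j, Polynomial.eval₂ (aeR (b j)) x Φ ≠ 0}} (by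
    intro T hT
    have hT' : ∀ A ∈ T, ∃ Φ : Polynomial (MvPolynomial Q F₀), NoRoot Φ ∧
      A = {j | ∀ x ∈ Fc j, Polynomial.eval₂ (aeR (b j)) x Φ ≠ 0} := fun A hA => hT hA
    choose! Φ hΦ0 hΦ using hT'
    obtain ⟨j, ha0⟩ := hS (∏ A ∈ T, Φ A) (NoRoot.prod hΦ0)
    refine ⟨j, ?_⟩
    rw [Set.mem_sInter]
    intro A hA
    rw [hΦ A hA]
    intro x hx
    have h1 := ha0 x hx
    rw [Polynomial.eval₂_finsetProd, Finset.prod_ne_zero_iff] at h1
    exact h1 A hA)
  exact ⟨U, fun Φ hΦ => hU ⟨Φ, hΦ, rfl⟩⟩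

/-- renaming the variables -/
theorem NoRoot.rename {F₀ : Type u} [Field F₀] {Q Q' : Type} (e : Q ≃ Q')
    {Φ : Polynomial (MvPolynomial Q F₀)} (h : NoRoot Φ) :
    NoRoot (Φ.map ((MvPolynomial.rename e : MvPolynomial Q F₀ →ₐ[F₀] MvPolynomial Q' F₀) :
      MvPolynomial Q F₀ →+* MvPolynomial Q' F₀)) := by
  intro r hr
  let j : MvPolynomial Q' (AlgebraicClosure F₀) →+* MvPolynomial Q (AlgebraicClosure F₀) :=
    ((MvPolynomial.rename e.symm : MvPolynomial Q' (AlgebraicClosure F₀) →ₐ[AlgebraicClosure F₀]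
      MvPolynomial Q (AlgebraicClosure F₀)) : _ →+* _)
  have hj : Function.Injective j := MvPolynomial.rename_injective _ e.symm.injective
  let φ : FractionRing (MvPolynomial Q' (AlgebraicClosure F₀)) →+*
      FractionRing (MvPolynomial Q (AlgebraicClosure F₀)) := IsFractionRing.map hj
  have hφ : ∀ p : MvPolynomial Q' (AlgebraicClosure F₀), φ (algebraMap _ _ p) =
      algebraMap (MvPolynomial Q (AlgebraicClosure F₀)) _ (j p) := fun p => by
    simp only [φ]
    exact IsLocalization.map_eq _ p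
  apply h (φ r)
  have h1 := congrArg φ hr
  rw [map_zero, Polynomial.eval₂_map, Polynomial.hom_eval₂] at h1
  rw [← h1]
  congr 1
  refine RingHom.ext fun p => ?_
  change algebraMap (MvPolynomial Q (AlgebraicClosure F₀)) _
    (MvPolynomial.map (algebraMap F₀ (AlgebraicClosure F₀)) p) =
    φ (algebraMap (MvPolynomial Q' (AlgebraicClosure F₀)) _ (MvPolynomial.map
      (algebraMap F₀ (AlgebraicClosure F₀)) (MvPolynomial.rename e p)))
  rw [hφ]
  congr 1
  change _ = MvPolynomial.rename e.symm _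
  rw [MvPolynomial.map_rename, MvPolynomial.rename_rename, Equiv.symm_comp_self,
    MvPolynomial.rename_id_apply]

/-- a permutation with given values at `0` and `1` -/
theorem exists_perm2 {m : ℕ} {i l : Fin (m + 2)} (hil : i ≠ l) :
    ∃ g : Fin (m + 2) ≃ Fin (m + 2), g 0 = l ∧ g 1 = i := by
  classical
  have h01 : (0 : Fin (m + 2)) ≠ 1 := by simp
  let i' : Fin (m + 2) := Equiv.swap 0 l i
  have hi' : i' ≠ 0 := by
    intro h
    have h1 : Equiv.swap 0 l i' = i := Equiv.swap_apply_self 0 l i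
    rw [h, Equiv.swap_apply_left] at h1
    exact hil h1.symm
  refine ⟨(Equiv.swap 1 i').trans (Equiv.swap 0 l), ?_, ?_⟩
  · change Equiv.swap 0 l (Equiv.swap 1 i' 0) = l
    rw [Equiv.swap_apply_of_ne_of_ne h01 (Ne.symm hi'), Equiv.swap_apply_left]
  · change Equiv.swap 0 l (Equiv.swap 1 i' 1) = i
    rw [Equiv.swap_apply_left]
    exact Equiv.swap_apply_self 0 l i

/-- What has to be shown: outside the set of the parameters for which `Φ` has a root, the property `P` does not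
hold, for all fields of constants `F` and all free composites `k` of `F` and `k₀` over `F₀`. -/
def IsThinU (F₀ k₀ : Type u) [Field F₀] [Field k₀] [Algebra F₀ k₀] {I : Type} {m : ℕ}
    (w : Fin (m + 1) → k₀) (P : ∀ (k' : Type u) [Field k'], (k₀ →+* k') → (I → k') → Prop)
    (Φ : Polynomial (MvPolynomial (I × Fin (m + 1)) F₀)) : Prop :=
  ∀ (F k : Type u) [Field F] [Field k] [Algebra F₀ F] [Algebra F k] [Algebra k₀ k]
    [Algebra F₀ k] [IsScalarTower F₀ F k] [IsScalarTower F₀ k₀ k],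
    (∃ S : Finset F, Subfield.closure (S : Set F) = ⊤) →
    adjoin F (Set.range (algebraMap k₀ k)) = ⊤ →
    (∀ {n : ℕ} {x : Fin n → k₀}, AlgebraicIndependent F₀ x →
      AlgebraicIndependent F (algebraMap k₀ k ∘ x)) →
    ∀ a : I × Fin (m + 1) → F,
      P k (algebraMap k₀ k) (PL.sysW (algebraMap k₀ k ∘ w) a) →
      ∃ x : F, Polynomial.eval₂ (aeR a) x Φ = 0

/-- The reduction for the indices `0`, `1`. -/
theorem thin_norm_of_keyV {F₀ k₀ : Type u} [Field F₀] [CharZero F₀] [Field k₀] [Algebra F₀ k₀]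
    {I : Type} {P : ∀ (k' : Type u) [Field k'], (k₀ →+* k') → (I → k') → Prop}
    (key : KeyV k₀ P)
    (hk₀ : ∃ S : Finset k₀, Subfield.closure (S : Set k₀) = ⊤) {m : ℕ} {w : Fin (m + 2) → k₀}
    (hw0 : w 0 ≠ 0) (hT : Transcendental F₀ (w 1 / w 0)) :
    ∃ Φ : Polynomial (MvPolynomial (I × Fin (m + 2)) F₀), NoRoot Φ ∧ IsThinU F₀ k₀ w P Φ := by
  classical
  by_contra hcon
  unfold IsThinU at hcon
  push Not at hcon
  obtain ⟨n, s, c, q, hb, hq, htop, hsplit⟩ := fin_data1 hk₀ hT (m := m + 1) w hw0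
  obtain ⟨C, _, _, y, _, hy⟩ := exists_std F₀ (ℕ ⊕ (Fin n ⊕ Unit))
  let J : Type u := {Φ : Polynomial (MvPolynomial (I × Fin (m + 2)) F₀) // NoRoot Φ}
  have hloc : ∀ j : J, ∃ (σ : k₀ →+* C) (b : I × Fin (m + 2) → C) (Fc Kc : Subfield C),
      (∀ c : F₀, σ (algebraMap F₀ k₀ c) = algebraMap F₀ C c) ∧
      (∀ i, σ (Sum.elim s (fun _ : Unit => w 1 / w 0) i) = y (Sum.inr i)) ∧
      (∀ x ∈ Fc, Polynomial.eval₂ (aeR b) x j.1 ≠ 0) ∧
      LocV (algebraMap F₀ C).fieldRange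
        (acl (gn (algebraMap F₀ C).fieldRange fun i : ℕ => y (Sum.inl i)))
        (acl (gn (acl (gn (algebraMap F₀ C).fieldRange fun i : ℕ => y (Sum.inl i)))
          fun i : Fin n => y (Sum.inr (Sum.inl i)))) w P σ b Fc Kc := by
    intro j
    obtain ⟨F, k, _, _, _, _, _, _, _, _, hF, hk, hfree, a, hP, ha⟩ := hcon j.1 j.2
    exact exists_locV hb hq htop hy.1 hF hk hfree hP ha
  choose σ b Fc Kc h0 hb1 hne hL using hloc
  obtain ⟨Uf, hU⟩ := exists_denseV b Fc (fun Φ hΦ => ⟨(⟨Φ, hΦ⟩ : J), hne _⟩)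
  exact core_falseV hq htop hsplit hy hw0 (div_mul_cancel₀ _ hw0).symm key Uf h0 hb1 hL hU

/-- **The reduction to the key statement for varying fields of constants.** -/
theorem thin_of_keyV {F₀ k₀ : Type u} [Field F₀] [CharZero F₀] [Field k₀] [Algebra F₀ k₀]
    {I : Type} {P : ∀ (k' : Type u) [Field k'], (k₀ →+* k') → (I → k') → Prop}
    (key : KeyV k₀ P)
    (hk₀ : ∃ S : Finset k₀, Subfield.closure (S : Set k₀) = ⊤) {m : ℕ} {w : Fin (m + 1) → k₀}
    {i l : Fin (m + 1)} (hT : Transcendental F₀ (w i / w l)) :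
    ∃ Φ : Polynomial (MvPolynomial (I × Fin (m + 1)) F₀), NoRoot Φ ∧ IsThinU F₀ k₀ w P Φ := by
  classical
  have hl : w l ≠ 0 := by
    intro h0
    rw [h0, div_zero] at hT
    exact hT isAlgebraic_zero
  have hil : i ≠ l := by
    rintro rfl
    rw [div_self hl] at hT
    exact hT isAlgebraic_one
  obtain ⟨m', rfl⟩ : ∃ m', m = m' + 1 := by
    refine ⟨m - 1, ?_⟩
    have h1 := i.2
    have h3 := l.2
    have h4 : (i : ℕ) ≠ l := fun h => hil (Fin.ext h)
    omega
  obtain ⟨g, hg0, hg1⟩ := exists_perm2 hil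
  obtain ⟨Φ, hΦ, h1⟩ := thin_norm_of_keyV key hk₀ (w := w ∘ g) (by
    change w (g 0) ≠ 0
    rw [hg0]; exact hl) (by
    change Transcendental F₀ (w (g 1) / w (g 0))
    rw [hg0, hg1]; exact hT)
  refine ⟨_, hΦ.rename (Equiv.prodCongr (Equiv.refl I) g), ?_⟩
  intro F k _ _ _ _ _ _ _ _ hF hk hfree a ha
  have h2 := PL.sysW_reindex (algebraMap k₀ k ∘ w) g a
  rw [← h2] at ha
  obtain ⟨x, hx⟩ := h1 F k hF hk hfree _ ha
  refine ⟨x, ?_⟩
  rw [Polynomial.eval₂_map, ← hx]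
  congr 1
  refine RingHom.ext fun p => ?_
  change MvPolynomial.aeval a (MvPolynomial.rename _ p) = MvPolynomial.aeval _ p
  rw [MvPolynomial.aeval_rename]

end Pool.Agent.UT
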