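import Pool.Agent.Helper37.UL.LevEq
import Pool.Agent.Helper13.OPN.C

/-!
# Project UT: fixed fields of automorphisms of algebraically closed fields
-/

universe u

namespace Pool.Agent.UT

open Pool.Agent.Helper37.UL

variable {C : Type u} [Field C]

/-- Transcendental elements are moved by automorphisms. -/
theorem exists_shift [IsAlgClosed C] {K : Subfield C} {z : C} (hz : Transcendental K z) :
    ∃ τ : C ≃+* C, (∀ x ∈ K, τ x = x) ∧ τ z = z + 1 := by
  classical
  have h1 : AlgebraicIndepOn K id ({z} : Set C) := by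
    rw [AlgebraicIndepOn, algebraicIndependent_unique_type_iff]
    exact hz
  obtain ⟨t, hzt, ht⟩ := exists_isTranscendenceBasis_superset h1
  let v : t → C := fun i => i
  have hv : IsTranscendenceBasis K v := ht
  let i₀ : t := ⟨z, hzt rfl⟩
  let := IsAlgClosed.isAlgClosure_of_transcendence_basis v hv
  let d : t → K := fun i => if i = i₀ then 1 else 0
  let E : MvPolynomial t K ≃ₐ[K] MvPolynomial t K :=
    AlgEquiv.ofAlgHom (MvPolynomial.bind₁ fun i => MvPolynomial.X i + MvPolynomial.C (d i))
      (MvPolynomial.bind₁ fun i => MvPolynomial.X i - MvPolynomial.C (d i))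
      (by
        apply MvPolynomial.algHom_ext
        intro i
        simp)
      (by
        apply MvPolynomial.algHom_ext
        intro i
        simp)
  let e : Algebra.adjoin K (Set.range v) ≃+* Algebra.adjoin K (Set.range v) :=
    (hv.1.aevalEquiv.symm.toRingEquiv.trans E.toRingEquiv).trans hv.1.aevalEquiv.toRingEquiv
  have he : ∀ a : K, e (algebraMap _ _ a) = algebraMap _ _ a := by
    intro a
    change hv.1.aevalEquiv (E (hv.1.aevalEquiv.symm (algebraMap _ _ a))) = _
    rw [AlgEquiv.commutes, AlgEquiv.commutes, AlgEquiv.commutes]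
  have hz1 : z ∈ Algebra.adjoin K (Set.range v) := Algebra.subset_adjoin ⟨i₀, rfl⟩
  have hX : hv.1.aevalEquiv (MvPolynomial.X i₀) = ⟨z, hz1⟩ := by
    apply Subtype.ext
    rw [AlgebraicIndependent.aevalEquiv_apply_coe, MvPolynomial.aeval_X]
  have hez : e ⟨z, hz1⟩ = ⟨z, hz1⟩ + 1 := by
    change hv.1.aevalEquiv (E (hv.1.aevalEquiv.symm ⟨z, hz1⟩)) = _
    rw [← hX, AlgEquiv.symm_apply_apply]
    have h2 : E (MvPolynomial.X i₀) = MvPolynomial.X i₀ + 1 := by
      change MvPolynomial.bind₁ _ (MvPolynomial.X i₀) = _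
      rw [MvPolynomial.bind₁_X_right]
      simp [d]
    rw [h2, map_add, map_one]
  refine ⟨IsAlgClosure.equivOfEquiv C C e, fun x hx => ?_, ?_⟩
  · have h1 := IsAlgClosure.equivOfEquiv_algebraMap C C e (algebraMap K _ ⟨x, hx⟩)
    rw [he] at h1
    exact h1
  · have h1 := IsAlgClosure.equivOfEquiv_algebraMap C C e ⟨z, hz1⟩
    rw [hez, map_add, map_one] at h1
    exact h1

/-- Elements fixed by all automorphisms over `k` are in `k`. -/
theorem mem_of_fixed' [IsAlgClosed C] [CharZero C] {k : Subfield C} {x : C}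
    (h : ∀ τ : C ≃+* C, (∀ y ∈ k, τ y = y) → τ x = x) : x ∈ k := by
  by_cases hx : IsAlgebraic k x
  · exact mem_of_fixed hx h
  · exfalso
    obtain ⟨τ, h1, h2⟩ := exists_shift hx
    have h3 := h τ h1
    rw [h2] at h3
    simp at h3

end Pool.Agent.UT
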