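import Pool.Agent.Helper13.OPG.E2

/-!
# Project UT: the finite data over the small field, one transcendental quotient
-/

universe u v w

namespace Pool.Agent.UT

open IntermediateField Pool.Agent.OPN Pool.Agent.Helper37.UL Pool.Agent.OPG

/-- **The finite data over the small field.** -/
theorem fin_data1 {F₀ k₀ : Type u} [Field F₀] [CharZero F₀] [Field k₀] [Algebra F₀ k₀]
    (hk₀ : ∃ S : Finset k₀, Subfield.closure (S : Set k₀) = ⊤) {T : k₀}
    (hT : Transcendental F₀ T) {m : ℕ} (w : Fin (m + 1) → k₀) (hw : w 0 ≠ 0) :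
    ∃ (n : ℕ) (s : Fin n → k₀) (c : ℕ) (q : k₀),
      IsTranscendenceBasis F₀ (Sum.elim s fun _ : Unit => T) ∧
      IsAlgebraic (ad (gn (algebraMap F₀ k₀).fieldRange s) {T}) q ∧
      ad (gn (algebraMap F₀ k₀).fieldRange s) {T, q} = ⊤ ∧
      ∀ κ₀ : Subfield (AlgebraicClosure k₀), (∀ z, z ∈ κ₀ ↔ IsAlgebraic
        ((gn (algebraMap F₀ k₀).fieldRange s).map
          (algebraMap k₀ (AlgebraicClosure k₀))) z) →
        TH.SplitW κ₀ (algebraMap k₀ (AlgebraicClosure k₀) (T - c))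
          (algebraMap k₀ (AlgebraicClosure k₀) q)
          (fun l => algebraMap k₀ (AlgebraicClosure k₀) (w l)) := by
  classical
  set F₀' : Subfield k₀ := (algebraMap F₀ k₀).fieldRange with hF₀'
  have hk0 : CharZero k₀ := charZero_of_injective_algebraMap (algebraMap F₀ k₀).injective
  have htr : ∀ {K L : Subfield k₀} (_ : K = L) {z : k₀}, Transcendental K z ↔ Transcendental L z := by
    rintro K L rfl z
    rfl
  obtain ⟨n, s, hs, hTs, hfd⟩ := RR.exists_tower hk₀ hT
  let F₁ : IntermediateField F₀ k₀ := adjoin F₀ (Set.range s)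
  have hF₁0 : CharZero F₁ := charZero_of_injective_algebraMap (algebraMap F₀ F₁).injective
  have hF₁s : F₁.toSubfield = gn F₀' s := adjoin_sub _
  let C₀ := AlgebraicClosure k₀
  let κ : Subfield C₀ := (algebraicClosure F₁ C₀).toSubfield
  have hκ : ∀ c : C₀, c ∈ κ ↔ IsAlgebraic F₁ c := fun c => mem_algebraicClosure_iff
  obtain ⟨c, q, htop, hq, hsp⟩ := UL.exists_splitW (C := C₀) hTs hκ w hw
  have hmapF₁ : (algebraMap F₁ C₀).fieldRange = (gn F₀' s).map (algebraMap k₀ C₀) := by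
    rw [← hF₁s]
    ext z
    constructor
    · rintro ⟨c, rfl⟩
      exact ⟨c, c.2, rfl⟩
    · rintro ⟨c, hc, rfl⟩
      exact ⟨⟨c, hc⟩, rfl⟩
  have hF₁r : (algebraMap F₁ k₀).fieldRange = gn F₀' s := by
    rw [← hF₁s]
    ext z
    constructor
    · rintro ⟨c, rfl⟩
      exact c.2
    · intro hz
      exact ⟨⟨z, hz⟩, rfl⟩
  have h9 : ∀ {K L : Subfield k₀} (_ : K = L) {x : k₀}, IsAlgebraic K x → IsAlgebraic L x := by
    rintro K L rfl x hx
    exact hx
  refine ⟨n, s, c, q, ?_, ?_, ?_, ?_⟩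
  · -- the transcendence basis
    have h1 : AlgebraicIndependent F₀' s := ind_range.2 hs
    have h2 : Transcendental (gn F₀' s) T := (htr hF₁s).1 hTs
    have h4 : AlgebraicIndependent F₀' (Sum.elim (fun _ : Unit => T) s) :=
      indep_sum_iff.2 ⟨h1, indep_one.2 h2⟩
    have h6 : AlgebraicIndependent F₀ (Sum.elim s fun _ : Unit => T) := ind_range.1 (indep_swap h4)
    rw [h6.isTranscendenceBasis_iff_isAlgebraic, ← isAlgebraic_adjoin_iff_top]
    refine ⟨fun x => ?_⟩
    have h7 : IsAlgebraic (adjoin F₁ {T}) x := Algebra.IsAlgebraic.isAlgebraic x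
    have h8 : (adjoin F₁ {T}).toSubfield =
        (adjoin F₀ (Set.range (Sum.elim s fun _ : Unit => T))).toSubfield := by
      rw [adjoin_sub, adjoin_sub, Set.Sum.elim_range, hF₁r, Set.range_const]
      exact ad_ad
    exact h9 h8 h7
  · have h8 : (adjoin F₁ {T}).toSubfield = ad (gn F₀' s) {T} := by
      rw [adjoin_sub, hF₁r]
    exact h9 h8 hq
  · have h8 : (adjoin F₁ {T, q}).toSubfield = ad (gn F₀' s) {T, q} := by
      rw [adjoin_sub, hF₁r]
    rw [← h8, htop]
    rfl
  · intro κ₀ hκ₀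
    have h1 : κ₀ = κ := by
      ext z
      rw [hκ₀, hκ, ← hmapF₁]
      exact Pool.Agent.TD.isAlgebraic_range_iff
    rw [h1]
    exact hsp

end Pool.Agent.UT
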