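import Pool.Agent.Helper10.UT.Mv
import Pool.Agent.Helper13.TD.R0
import Pool.Agent.Helper37.UL.Germ4
import Pool.Agent.Helper37.UL.Germ5

/-!
# Project UT: germs of functions with values in varying subfields
-/

universe u v w

namespace Pool.Agent.Helper37.UL

open Polynomial

variable {ι : Type v} {U : Ultrafilter ι} {C : Type u} [Field C] {S : Type w} [Field S]

namespace UP

variable {π : (ι → C) →+* S} (h : UP U π)

include h

/-- the subfield of the germs of functions `f` with values `f a` in the subfields `X a` -/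
def fsub (X : ι → Subfield C) : Subfield S where
  carrier := {s | ∃ f : ι → C, (∀ a, f a ∈ X a) ∧ π f = s}
  mul_mem' := by
    rintro _ _ ⟨f, hf, rfl⟩ ⟨g, hg, rfl⟩
    exact ⟨f * g, fun a => (X a).mul_mem (hf a) (hg a), map_mul _ _ _⟩
  one_mem' := ⟨1, fun a => (X a).one_mem, map_one _⟩
  add_mem' := by
    rintro _ _ ⟨f, hf, rfl⟩ ⟨g, hg, rfl⟩
    exact ⟨f + g, fun a => (X a).add_mem (hf a) (hg a), map_add _ _ _⟩
  zero_mem' := ⟨0, fun a => (X a).zero_mem, map_zero _⟩
  neg_mem' := by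
    rintro _ ⟨f, hf, rfl⟩
    exact ⟨-f, fun a => (X a).neg_mem (hf a), map_neg _ _⟩
  inv_mem' := by
    rintro _ ⟨f, hf, rfl⟩
    exact ⟨f⁻¹, fun a => (X a).inv_mem (hf a), h.map_inv f⟩

lemma mem_fsub {X : ι → Subfield C} {s : S} :
    s ∈ h.fsub X ↔ ∃ f : ι → C, (∀ a, f a ∈ X a) ∧ π f = s := Iff.rfl

lemma coe_mem_fsub {X : ι → Subfield C} (f : ι → C) :
    π f ∈ h.fsub X ↔ ∀ᶠ a in (U : Filter ι), f a ∈ X a := by
  classical
  rw [h.mem_fsub]
  constructor
  · rintro ⟨g, hg, hgf⟩
    filter_upwards [(h.eq_iff _ _).mp hgf] with a ha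
    rw [← ha]
    exact hg a
  · intro hf
    refine ⟨fun a => if f a ∈ X a then f a else 0, fun a => ?_, ?_⟩
    · dsimp only
      split_ifs with ha
      · exact ha
      · exact (X a).zero_mem
    · rw [h.eq_iff]
      filter_upwards [hf] with a ha
      rw [if_pos ha]

lemma fsub_const (X : Subfield C) : h.fsub (fun _ => X) = h.gsub X := rfl

lemma fsub_mono {X Y : ι → Subfield C} (hXY : ∀ a, X a ≤ Y a) : h.fsub X ≤ h.fsub Y := by
  rintro _ ⟨f, hf, rfl⟩
  exact ⟨f, fun a => hXY a (hf a), rfl⟩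

lemma fsub_le_gsub {X : ι → Subfield C} {Y : Subfield C} (hXY : ∀ a, X a ≤ Y) :
    h.fsub X ≤ h.gsub Y := by
  rintro _ ⟨f, hf, rfl⟩
  exact ⟨f, fun a => hXY a (hf a), rfl⟩

lemma gsub_le_fsub {X : Subfield C} {Y : ι → Subfield C} (hXY : ∀ a, X ≤ Y a) :
    h.gsub X ≤ h.fsub Y := by
  rintro _ ⟨f, hf, rfl⟩
  exact ⟨f, fun a => hXY a (hf a), rfl⟩

lemma const_mem_fsub {X : ι → Subfield C} {c : C} (hc : ∀ a, c ∈ X a) :
    cst π c ∈ h.fsub X := ⟨fun _ => c, hc, rfl⟩

/-- choice of representatives with values in subfields, for a family of germs -/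
lemma lift_familyV {X : ι → Subfield C} {I : Type*} {c : I → S} (hc : ∀ i, c i ∈ h.fsub X) :
    ∃ f : I → ι → C, (∀ i a, f i a ∈ X a) ∧ ∀ i, π (f i) = c i := by
  choose f hf hf' using hc
  exact ⟨f, hf, hf'⟩

/-- Constants which are algebraically independent over all the `A a` are algebraically independent
over the germs. -/
theorem algIndV {n : ℕ} {A : ι → Subfield C} {τ : Fin n → C}
    (hτ : ∀ a, AlgebraicIndependent (A a) τ) :
    AlgebraicIndependent (h.fsub A) fun i => cst π (τ i) := by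
  rw [algInd_iff]
  intro D c hc h0
  obtain ⟨f, hf, hfc⟩ := h.lift_familyV hc
  have h1 : c = fun e => π (f e) := by
    funext e
    rw [hfc]
  rw [h1, ← map_pv, h.eq0] at h0
  rw [h1]
  funext e
  rw [Pi.zero_apply, h.eq0]
  filter_upwards [h0] with a ha
  exact congrFun (algInd_iff.mp (hτ a) D _ (fun e => hf e a) ha) e

/-- The rational function field over the germs is contained in the germs of functions into the
rational function fields. -/
theorem gen_leV {n : ℕ} {A : ι → Subfield C} {τ : Fin n → C} :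
    gen (h.fsub A) (fun i => cst π (τ i)) ≤ h.fsub (fun a => gen (A a) τ) := by
  conv_lhs => unfold gen
  rw [Subfield.closure_le, Set.union_subset_iff]
  refine ⟨h.fsub_mono fun a => le_gen, ?_⟩
  rintro _ ⟨i, rfl⟩
  exact h.const_mem_fsub fun a => gen_mem i

/-- It is relatively algebraically closed. -/
theorem gen_relAlgClosedV {n : ℕ} {A : ι → Subfield C} {τ : Fin n → C}
    (hτ : ∀ a, AlgebraicIndependent (A a) τ) {x : S}
    (hx : x ∈ h.fsub fun a => gen (A a) τ)
    (halg : IsAlgebraic (gen (h.fsub A) fun i => cst π (τ i)) x) :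
    x ∈ gen (h.fsub A) fun i => cst π (τ i) := by
  classical
  set A' := h.fsub A with hA'
  set τ' : Fin n → S := fun i => cst π (τ i) with hτ'
  have hind : AlgebraicIndependent A' τ' := h.algIndV hτ
  obtain ⟨N, c, hc, hc0, hcx⟩ := isAlgebraic_iff.mp halg
  -- clear denominators
  have hc' := fun i => mem_gen_iff.mp (hc i)
  choose D P Q hP hQ hQ0 hPQ using hc'
  let q : S := ∏ i, pv τ' (D i) (Q i)
  have hq0 : q ≠ 0 := Finset.prod_ne_zero_iff.mpr fun i _ => hQ0 i
  -- every product of values of polynomials is a value of a polynomial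
  have hring : ∀ i, ∃ R : MvPolynomial (Fin n) A', MvPolynomial.aeval τ' R = q * c i := by
    intro i
    refine ⟨(∏ j ∈ Finset.univ.erase i, mkP fun e => (⟨Q j e, hQ j e⟩ : A')) *
      mkP fun e => (⟨P i e, hP i e⟩ : A'), ?_⟩
    rw [map_mul, map_prod, aeval_mkP]
    change _ * pv τ' (D i) (P i) = _
    rw [← hPQ i, ← mul_assoc]
    congr 1
    simp only [q]
    rw [← Finset.prod_erase_mul _ _ (Finset.mem_univ i)]
    congr 1
    apply Finset.prod_congr rfl
    intro j _
    rw [aeval_mkP]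
  choose R hR using hring
  let DD : ℕ := Finset.univ.sup fun i => (R i).totalDegree
  have hDD : ∀ i, (R i).totalDegree ≤ DD := fun i =>
    Finset.le_sup (f := fun i => (R i).totalDegree) (Finset.mem_univ i)
  obtain ⟨g, hg, hgc⟩ := h.lift_familyV (I := Fin (N + 1) × (Fin n → Fin (DD + 1)))
    (c := fun ie => (((R ie.1).coeff (toF ie.2) : A') : S)) (fun ie => Subtype.coe_prop _)
  have hgR : ∀ i, π (fun a => pv τ DD fun e => g (i, e) a) = q * c i := by
    intro i
    rw [map_pv, ← hR i, aeval_eq_pv τ' (hDD i)]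
    congr 1
    funext e
    exact hgc (i, e)
  obtain ⟨y, hy, hyx⟩ := hx
  have h1 : π (∑ i : Fin (N + 1), (fun a => pv τ DD fun e => g (i, e) a) * y ^ (i : ℕ)) = 0 := by
    rw [map_sum]
    simp only [map_mul, map_pow, hgR, hyx]
    have h2 : ∑ i : Fin (N + 1), q * c i * x ^ (i : ℕ) = q * ∑ i, c i * x ^ (i : ℕ) := by
      rw [Finset.mul_sum]
      apply Finset.sum_congr rfl
      intro i _
      ring
    rw [h2, hcx, mul_zero]
  obtain ⟨j, hj⟩ := Function.ne_iff.mp hc0
  have h3 : π (fun a => pv τ DD fun e => g (j, e) a) ≠ 0 := by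
    rw [hgR]
    exact mul_ne_zero hq0 hj
  have h4 : ∀ᶠ a in (U : Filter ι), ∃ PQ : ((Fin n → Fin (n * DD + 1)) → C) ×
      ((Fin n → Fin (n * DD + 1)) → C), (∀ e, PQ.1 e ∈ A a) ∧ (∀ e, PQ.2 e ∈ A a) ∧
      pv τ (n * DD) PQ.2 ≠ 0 ∧ pv τ (n * DD) PQ.2 * y a = pv τ (n * DD) PQ.1 := by
    filter_upwards [(h.eq0 _).mp h1, (h.ne0 _).mp h3] with a ha ha'
    obtain ⟨P, Q, hP, hQ, hQ0, hPQ⟩ := bounded_root (hτ a) (hy a) DD N (fun i e => g (i, e) a)
      (fun i e => hg (i, e) a) (fun h0 => ha' (by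
        have h5 : (fun e => g (j, e) a) = 0 := congrFun h0 j
        rw [h5]
        unfold pv
        simp)) (by
        rw [← ha]
        simp only [Finset.sum_apply, Pi.mul_apply, Pi.pow_apply])
    exact ⟨(P, Q), hP, hQ, hQ0, hPQ⟩
  let PQ : ι → ((Fin n → Fin (n * DD + 1)) → C) × ((Fin n → Fin (n * DD + 1)) → C) := fun a =>
    if ha : ∃ PQ : ((Fin n → Fin (n * DD + 1)) → C) ×
      ((Fin n → Fin (n * DD + 1)) → C), (∀ e, PQ.1 e ∈ A a) ∧ (∀ e, PQ.2 e ∈ A a) ∧
      pv τ (n * DD) PQ.2 ≠ 0 ∧ pv τ (n * DD) PQ.2 * y a = pv τ (n * DD) PQ.1 then ha.choose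
    else 0
  have hPQs : ∀ᶠ a in (U : Filter ι), (∀ e, (PQ a).1 e ∈ A a) ∧ (∀ e, (PQ a).2 e ∈ A a) ∧
      pv τ (n * DD) (PQ a).2 ≠ 0 ∧ pv τ (n * DD) (PQ a).2 * y a = pv τ (n * DD) (PQ a).1 := by
    filter_upwards [h4] with a ha
    simp only [PQ, dif_pos ha]
    exact ha.choose_spec
  rw [mem_gen_iff]
  refine ⟨n * DD, fun e => π fun a => (PQ a).1 e, fun e => π fun a => (PQ a).2 e, fun e => ?_,
    fun e => ?_, ?_, ?_⟩
  · rw [hA', h.coe_mem_fsub]
    filter_upwards [hPQs] with a ha
    exact ha.1 e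
  · rw [hA', h.coe_mem_fsub]
    filter_upwards [hPQs] with a ha
    exact ha.2.1 e
  · rw [hτ', ← map_pv, h.ne0]
    filter_upwards [hPQs] with a ha
    exact ha.2.2.1
  · rw [hτ', ← map_pv, ← map_pv, ← hyx, ← map_mul, h.eq_iff]
    filter_upwards [hPQs] with a ha
    exact ha.2.2.2

/-- transfer of level one structures -/
theorem levV {X : ι → Subfield C} {p d : ℕ} {f : ι → Fin (d + 1) → C} {θ : ι → Fin d → C}
    {z : ι → Fin d → Fin d → C} {α : ι → C} (hl : ∀ a, Lev (X a) p (f a) (θ a) (z a) (α a)) :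
    Lev (h.fsub X) p (fun i => π fun a => f a i) (fun i => π fun a => θ a i)
      (fun i j => π fun a => z a i j) (π α) := by
  refine ⟨fun i => ?_, ?_, ?_, fun i => ?_, fun i j hij => ?_, ?_, ?_, ?_, ?_⟩
  · exact ⟨_, fun a => (hl a).coef i, rfl⟩
  · rw [h.ne0]
    filter_upwards with a using (hl a).lead
  · intro i j hij
    by_contra hne
    rw [h.eq_iff] at hij
    obtain ⟨a, ha⟩ := hij.exists
    exact hne ((hl a).inj ha)
  · have h1 : π (∑ l : Fin (d + 1), (fun a => f a l) * (fun a => θ a i) ^ (l : ℕ)) = 0 := by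
      rw [h.eq0]
      filter_upwards with a
      rw [← (hl a).root i]
      simp only [Finset.sum_apply, Pi.mul_apply, Pi.pow_apply]
    rw [← h1, map_sum]
    apply Finset.sum_congr rfl
    intro l _
    rw [map_mul, map_pow]
  · rw [h.ne0]
    filter_upwards with a using (hl a).ne i j hij
  · have h1 := fun a => (hl a).pow
    choose φ hφ hφ' using h1
    refine ⟨fun r s => π fun a => φ a r s, fun r s => ⟨_, fun a => hφ a r s, rfl⟩, ?_⟩
    intro i j hij
    have h2 : π ((fun a => z a i j) ^ p) = π (∑ r : Fin d, ∑ s : Fin d, (fun a => φ a r s) *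
        ((fun a => θ a i) ^ (r : ℕ) * (fun a => θ a j) ^ (s : ℕ))) := by
      congr 1
      funext a
      simp only [Finset.sum_apply, Pi.mul_apply, Pi.pow_apply]
      exact hφ' a i j hij
    rw [map_pow] at h2
    rw [h2]
    simp only [map_sum, map_mul, map_pow]
  · have h1 := fun a => (hl a).coc
    choose φ hφ hφ' using h1
    refine ⟨fun r s t => π fun a => φ a r s t, fun r s t => ⟨_, fun a => hφ a r s t, rfl⟩, ?_⟩
    intro i j l hij hjl hil
    have h2 : π ((fun a => z a i j) * (fun a => z a j l)) = π ((fun a => z a i l) *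
        ∑ r : Fin d, ∑ s : Fin d, ∑ t : Fin d, (fun a => φ a r s t) *
        ((fun a => θ a i) ^ (r : ℕ) * (fun a => θ a j) ^ (s : ℕ) *
          (fun a => θ a l) ^ (t : ℕ))) := by
      congr 1
      funext a
      simp only [Finset.sum_apply, Pi.mul_apply, Pi.pow_apply]
      exact hφ' a i j l hij hjl hil
    rw [map_mul] at h2
    rw [h2]
    simp only [map_sum, map_mul, map_pow]
  · have h2 : π (α ^ p) = π (fun a => f a (Fin.last d)) := by
      congr 1
      funext a
      exact (hl a).alpha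
    rw [map_pow] at h2
    exact h2
  · have h1 := fun a => (hl a).nrm
    choose φ hφ hφ' using h1
    refine ⟨fun r => π fun a => φ a r, fun r => ⟨_, fun a => hφ a r, rfl⟩, ?_⟩
    intro i
    have h2 : π (α * ∏ j ∈ Finset.univ.erase i, fun a => z a j i) =
        π (∑ r : Fin d, (fun a => φ a r) * (fun a => θ a i) ^ (r : ℕ)) := by
      congr 1
      funext a
      simp only [Finset.sum_apply, Pi.mul_apply, Pi.pow_apply, Finset.prod_apply]
      exact hφ' a i
    rw [map_mul, map_prod] at h2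
    rw [h2]
    simp only [map_sum, map_mul, map_pow]

omit h in
/-- internal automorphisms over varying subfields -/
def InternalV (π : (ι → C) →+* S) (k : ι → Subfield C) (T : S ≃+* S) : Prop :=
  ∃ τ : ι → (C ≃+* C), (∀ a, ∀ x ∈ k a, τ a x = x) ∧ ∀ f : ι → C, T (π f) = π fun a => τ a (f a)

theorem InternalV.fix {k : ι → Subfield C} {T : S ≃+* S} (hT : InternalV π k T) {x : S}
    (hx : x ∈ h.fsub k) : T x = x := by
  obtain ⟨τ, hτ, hτ'⟩ := hT
  obtain ⟨f, hf, rfl⟩ := hx
  rw [hτ']
  congr 1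
  funext a
  exact hτ a _ (hf a)

theorem InternalV.maps {k X : ι → Subfield C} {T : S ≃+* S} (hT : InternalV π k T)
    (hX : ∀ a, ∀ τ : C ≃+* C, (∀ x ∈ k a, τ x = x) → ∀ x ∈ X a, τ x ∈ X a) {x : S}
    (hx : x ∈ h.fsub X) : T x ∈ h.fsub X := by
  obtain ⟨τ, hτ, hτ'⟩ := hT
  obtain ⟨f, hf, rfl⟩ := hx
  rw [hτ']
  exact ⟨_, fun a => hX a (τ a) (hτ a) _ (hf a), rfl⟩

/-- The fixed field of the internal automorphisms over `k` which fix an algebraic element. -/
theorem mem_of_internalV [IsAlgClosed C] [CharZero C] {k : ι → Subfield C}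
    {β z : S} (hβ : IsAlgebraic (h.fsub k) β)
    (hfix : ∀ T : S ≃+* S, InternalV π k T → T β = β → T z = z) :
    z ∈ Subfield.closure ((h.fsub k : Set S) ∪ {β}) := by
  classical
  obtain ⟨b, rfl⟩ := h.surj β
  obtain ⟨z, rfl⟩ := h.surj z
  obtain ⟨q, hq, hqb⟩ := hβ.isIntegral
  set n := q.natDegree with hn
  obtain ⟨c, hc, hcq⟩ := h.lift_familyV (X := k) (I := Fin n) (c := fun i => ((q.coeff i : _) : S))
    (fun i => Subtype.coe_prop _)
  have h1 : ∀ᶠ a in (U : Filter ι), b a ^ n + ∑ i : Fin n, c i a * b a ^ (i : ℕ) = 0 := by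
    have h2 : π (b ^ n + ∑ i : Fin n, c i * b ^ (i : ℕ)) = 0 := by
      have h3 : aeval (π b) q = 0 := hqb
      rw [aeval_eq_sum_range, Finset.sum_range_succ, ← hn, Algebra.smul_def] at h3
      have h4 : q.coeff n = 1 := hq.coeff_natDegree
      rw [h4, map_one, one_mul, Finset.sum_range, add_comm] at h3
      rw [← h3]
      simp only [map_add, map_pow, map_sum, map_mul, hcq]
      congr 1
    rw [h.eq0] at h2
    filter_upwards [h2] with a ha
    simpa only [Pi.add_apply, Finset.sum_apply, Pi.mul_apply, Pi.pow_apply] using ha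
  by_cases hmem : ∀ᶠ a in (U : Filter ι), z a ∈ Subfield.closure ((k a : Set C) ∪ {b a})
  · -- the element is in the field
    have h5 : ∀ᶠ a in (U : Filter ι), ∃ r : Fin n → C, (∀ i, r i ∈ k a) ∧
        z a = ∑ i, r i * b a ^ (i : ℕ) := by
      filter_upwards [h1, hmem] with a ha ha'
      exact exists_powers (fun i => hc i a) ha ha'
    let r : ι → Fin n → C := fun a => if ha : ∃ r : Fin n → C, (∀ i, r i ∈ k a) ∧
        z a = ∑ i, r i * b a ^ (i : ℕ) then ha.choose else 0
    have hr : ∀ᶠ a in (U : Filter ι), (∀ i, r a i ∈ k a) ∧ z a = ∑ i, r a i * b a ^ (i : ℕ) := by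
      filter_upwards [h5] with a ha
      simp only [r, dif_pos ha]
      exact ha.choose_spec
    have h6 : π z = ∑ i : Fin n, π (fun a => r a i) * π b ^ (i : ℕ) := by
      have h7 : π z = π (∑ i : Fin n, (fun a => r a i) * b ^ (i : ℕ)) := by
        rw [h.eq_iff]
        filter_upwards [hr] with a ha
        simp only [Finset.sum_apply, Pi.mul_apply, Pi.pow_apply]
        exact ha.2
      rw [h7]
      simp only [map_sum, map_mul, map_pow]
    have hb0 : π b ∈ Subfield.closure ((h.fsub k : Set S) ∪ {π b}) :=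
      Subfield.subset_closure (Or.inr rfl)
    rw [h6]
    apply Subfield.sum_mem
    intro i _
    apply Subfield.mul_mem
    · apply Subfield.subset_closure
      left
      change _ ∈ h.fsub k
      rw [h.coe_mem_fsub]
      filter_upwards [hr] with a ha using ha.1 i
    · exact Subfield.pow_mem _ hb0 _
  · exfalso
    rw [← Ultrafilter.eventually_not] at hmem
    have h5 : ∀ a, ∃ τ : C ≃+* C, (∀ x ∈ k a, τ x = x) ∧ τ (b a) = b a ∧
        (z a ∉ Subfield.closure ((k a : Set C) ∪ {b a}) → τ (z a) ≠ z a) := by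
      intro a
      by_cases ha : z a ∈ Subfield.closure ((k a : Set C) ∪ {b a})
      · exact ⟨RingEquiv.refl C, fun _ _ => rfl, rfl, fun hh => absurd ha hh⟩
      · by_contra hcon
        push Not at hcon
        apply ha
        apply Pool.Agent.UT.mem_of_fixed'
        intro τ hτ
        exact (hcon τ (fun x hx => hτ x (Subfield.subset_closure (Or.inl hx)))
          (hτ _ (Subfield.subset_closure (Or.inr rfl)))).2
    choose τ hτ hτb hτz using h5
    obtain ⟨T, hT⟩ := h.exists_aut τ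
    have h7 := hfix T ⟨τ, hτ, hT⟩ (by
      rw [hT]
      congr 1
      funext a
      exact hτb a)
    rw [hT, h.eq_iff] at h7
    obtain ⟨a, ha, ha'⟩ := (h7.and hmem).exists
    exact hτz a ha' ha

/-- Germs of functions with values in simple algebraic extensions. -/
theorem fsub_adjoin {X : ι → Subfield C} {X₀ : Subfield C} (h0 : ∀ a, X₀ ≤ X a) {e : C}
    (he : IsAlgebraic X₀ e) :
    h.fsub (fun a => Subfield.closure ((X a : Set C) ∪ {e})) =
      Subfield.closure (((h.fsub X : Subfield S) : Set S) ∪ {UP.cst π e}) := by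
  apply le_antisymm
  · rintro _ ⟨f, hf, rfl⟩
    have hint := he.isIntegral
    have hb : e ^ (minpoly X₀ e).natDegree + ∑ i : Fin (minpoly X₀ e).natDegree,
        (((minpoly X₀ e).coeff i : X₀) : C) * e ^ (i : ℕ) = 0 := by
      have h1 := minpoly.aeval X₀ e
      rw [aeval_eq_sum_range, Finset.sum_range_succ, Algebra.smul_def] at h1
      have h2 : (minpoly X₀ e).coeff (minpoly X₀ e).natDegree = 1 :=
        (minpoly.monic hint).coeff_natDegree
      rw [h2, map_one, one_mul, Finset.sum_range, add_comm] at h1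
      exact h1
    have hr : ∀ a, ∃ r : Fin (minpoly X₀ e).natDegree → C, (∀ i, r i ∈ X a) ∧
        f a = ∑ i, r i * e ^ (i : ℕ) := fun a =>
      exists_powers (fun i => h0 a (Subtype.coe_prop _)) hb (hf a)
    choose r hr hfr using hr
    have h1 : f = ∑ i, (fun a => r a i) * (fun _ => e) ^ (i : ℕ) := by
      funext a
      rw [hfr, Finset.sum_apply]
      rfl
    rw [h1, map_sum]
    refine Subfield.sum_mem _ fun i _ => ?_
    rw [map_mul, map_pow]
    refine Subfield.mul_mem _ (Subfield.subset_closure (Or.inl ?_)) (Subfield.pow_mem _ ?_ _)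
    · exact ⟨fun a => r a i, fun a => hr a i, rfl⟩
    · exact Subfield.subset_closure (Or.inr rfl)
  · rw [Subfield.closure_le, Set.union_subset_iff]
    refine ⟨h.fsub_mono fun a x hx => Subfield.subset_closure (Or.inl hx), ?_⟩
    rintro _ rfl
    exact h.const_mem_fsub fun a => Subfield.subset_closure (Or.inr rfl)

end UP

end Pool.Agent.Helper37.UL
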