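import Pool.Agent.Helper10.UT.R1
import Pool.Agent.Helper10.UL.GaussN
import Pool.Agent.Helper13.OPG.Defs

/-!
# Project UT: the algebraic functions of generic parameters over varying fields
-/

universe u v w

namespace Pool.Agent.UT

open Polynomial Pool.Agent.Helper37.UL UL TH Pool.Agent.OPN Pool.Agent.OPG

/-- **The algebraic functions of generic parameters over varying fields.** -/
theorem wrV {J : Type v} {Uf : Ultrafilter J} {F₀ C : Type u} [Field F₀] [Field C] [CharZero C]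
    [Algebra F₀ C] [IsAlgClosed C] {S : Type u} [Field S] {π : (J → C) →+* S} (h : UP Uf π)
    {I : Type} {m : ℕ} {b : J → I × Fin (m + 2) → C} {Fc : J → Subfield C}
    (hFc : ∀ j, (algebraMap F₀ C).fieldRange ≤ Fc j) (hb : ∀ j p, b j p ∈ Fc j)
    (hU : ∀ Φ : (MvPolynomial (I × Fin (m + 2)) F₀)[X], NoRoot Φ →
      ∀ᶠ j in (Uf : Filter J), ∀ x ∈ Fc j, eval₂ (aeR (b j)) x Φ ≠ 0)
    {n : ℕ} {ys : Fin n → C} (hys : ∀ j, AlgebraicIndependent (Fc j) ys) {c : S}
    (hc : c ∈ (algebraMap F₀ C).fieldRange.map (UP.cst π)) {x' : I × Fin (m + 2) → S}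
    (hx0 : ∀ i, x' (i, 0) = (π fun j => b j (i, 0)) + c * (π fun j => b j (i, 1)))
    (hx1 : ∀ (i : I) (e : Fin (m + 1)), x' (i, e.succ) = π fun j => b j (i, e.succ))
    {κs : Subfield C} (hκs : acl (gn (algebraMap F₀ C).fieldRange ys) ≤ κs) {z : S}
    (hz : z ∈ h.fsub fun j => gn (Fc j) ys)
    (hza : IsAlgebraic (gn ((gn (algebraMap F₀ C).fieldRange ys).map (UP.cst π)) x') z) :
    z ∈ gn (κs.map (UP.cst π)) x' := by
  have hSa : IsAlgClosed S := h.isAlgClosed
  have hS0 : CharZero S := h.charZero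
  set FC : Subfield C := (algebraMap F₀ C).fieldRange with hFC
  set FS : Subfield S := FC.map (UP.cst π) with hFS
  set a' : I × Fin (m + 2) → S := fun p => π fun j => b j p with ha'
  set KF : Subfield S := h.fsub Fc with hKF
  set τ' : Fin n → S := fun i => UP.cst π (ys i) with hτ'
  have hFSK : FS ≤ KF := by
    rintro _ ⟨y, hy, rfl⟩
    exact h.const_mem_fsub fun j => hFc j hy
  have haK : ∀ p, a' p ∈ KF := fun p => ⟨_, fun j => hb j p, rfl⟩
  set L : Subfield S := KF ⊓ acl (gn FS a') with hL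
  have hFSL : FS ≤ L := le_inf hFSK (le_gn.trans le_acl)
  have haL : ∀ p, a' p ∈ L := fun p => ⟨haK p, le_acl (mem_gn p)⟩
  have hLrel : ∀ y ∈ KF, IsAlgebraic L y → y ∈ L := fun y hy hy' =>
    ⟨hy, acl_closed (isAlgebraic_mono inf_le_right hy')⟩
  -- the parameters
  have hxM : ∀ M : Subfield S, FS ≤ M → (∀ p, a' p ∈ M) → ∀ p, x' p ∈ M := by
    rintro M h1 h2 ⟨i, e⟩
    rcases Fin.eq_zero_or_eq_succ e with rfl | ⟨e, rfl⟩
    · rw [hx0]
      exact M.add_mem (h2 (i, 0)) (M.mul_mem (h1 hc) (h2 (i, 1)))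
    · rw [hx1]
      exact h2 (i, e.succ)
  have hFsM : ∀ M : Subfield S, FS ≤ M → (∀ i, τ' i ∈ M) → (gn FC ys).map (UP.cst π) ≤ M := by
    intro M h1 h2
    rintro _ ⟨y, hy, rfl⟩
    have h3 : gn FC ys ≤ M.comap (UP.cst π) := gn_le (fun w hw => h1 ⟨w, hw, rfl⟩) h2
    exact h3 hy
  have hgL : gn ((gn FC ys).map (UP.cst π)) x' ≤ gen L τ' :=
    gn_le (hFsM _ (hFSL.trans le_gen) fun i => gen_mem i)
      (hxM _ (hFSL.trans le_gen) fun p => le_gen (haL p))
  have h1 : z ∈ gen KF τ' := by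
    refine h.gen_relAlgClosedV hys hz ?_
    exact isAlgebraic_mono (hgL.trans (gen_mono_left inf_le_left)) hza
  have h2 : z ∈ gen L τ' :=
    gauss_n inf_le_left hLrel (h.algIndV hys) h1 (isAlgebraic_mono hgL hza)
  -- the relative algebraic closure
  have hκsM : acl FC ≤ κs := (acl_mono le_gn).trans hκs
  have haclS : acl FS ≤ κs.map (UP.cst π) := by
    have h3 : acl FS ≤ (acl FC).map (UP.cst π) := by
      intro y hy
      refine PL.map_closed (fun x hx => acl_closed hx) (UP.cst π)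
        (isAlgebraic_mono ?_ (mem_acl.1 hy))
      rintro _ ⟨w, hw, rfl⟩
      exact ⟨w, le_acl hw, rfl⟩
    refine h3.trans ?_
    rintro _ ⟨w, hw, rfl⟩
    exact ⟨w, hκsM hw, rfl⟩
  have hFSκ : FS ≤ κs.map (UP.cst π) := le_acl.trans haclS
  have hax : ∀ p, a' p ∈ gn (κs.map (UP.cst π)) x' := by
    have h3 : ∀ (i : I) (e : Fin (m + 1)), a' (i, e.succ) ∈ gn (κs.map (UP.cst π)) x' := by
      intro i e
      have h4 : a' (i, e.succ) = x' (i, e.succ) := (hx1 i e).symm
      rw [h4]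
      exact mem_gn (x := x') _
    rintro ⟨i, e⟩
    rcases Fin.eq_zero_or_eq_succ e with rfl | ⟨e, rfl⟩
    · have h4 : a' (i, 0) = x' (i, 0) - c * a' (i, 1) := by
        rw [hx0]
        change a' (i, 0) = a' (i, 0) + c * a' (i, 1) - c * a' (i, 1)
        ring
      rw [h4]
      have h5 := h3 i 0
      exact Subfield.sub_mem _ (mem_gn (x := x') _) (Subfield.mul_mem _ (le_gn (hFSκ hc)) h5)
    · exact h3 i e
  have hLx : L ≤ gn (κs.map (UP.cst π)) x' := by
    intro y hy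
    have h3 := rel_mem h hU hy.1 (mem_acl.1 hy.2)
    exact (gn_le (haclS.trans le_gn) hax) h3
  have h3 : gen L τ' ≤ gn (κs.map (UP.cst π)) x' := by
    conv_lhs => unfold gen
    rw [Subfield.closure_le]
    rintro y (hy | ⟨i, rfl⟩)
    · exact hLx hy
    · exact le_gn ⟨ys i, hκs (le_acl (mem_gn i)), rfl⟩
  exact h3 h2

end Pool.Agent.UT
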