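import Pool.Agent.Helper10.UT.U
import Pool.Agent.Helper10.SLG.Geo

/-!
# Project UT: constant extensions

A property which holds for all composites `F k₀` (if the polynomial `Φ(a, X)` has no root in `F`) holds also for the
composites `E k₀`, where `E` is an algebraic extension of `F` in a finite extension of `F k₀`, if `Φ(a, X)` has no root
in `E`.
-/

universe u

namespace Pool.Agent.UT

open IntermediateField Pool.Agent.OPN Pool.Agent.OPG Pool.Agent.Helper37.UL

/-- **Constant extensions.** -/
theorem geoE {F₀ k₀ : Type u} [Field F₀] [Field k₀] [Algebra F₀ k₀] {I : Type}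
    {A : ∀ (F k : Type u) [Field F] [Field k] [Algebra F k] [Algebra k₀ k], (I → F) → Prop}
    {B : Prop} (h : IsU F₀ k₀ B A) :
    ∃ Φ : Polynomial (MvPolynomial I F₀), NoRoot Φ ∧ (B → Φ.natDegree = 0) ∧
      ∀ (F k : Type u) [Field F] [Field k] [Algebra F₀ F] [Algebra F k] [Algebra k₀ k]
        [Algebra F₀ k] [IsScalarTower F₀ F k] [IsScalarTower F₀ k₀ k],
        (∃ S : Finset F, Subfield.closure (S : Set F) = ⊤) →
        adjoin F (Set.range (algebraMap k₀ k)) = ⊤ →
        (∀ {n : ℕ} {x : Fin n → k₀}, AlgebraicIndependent F₀ x →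
          AlgebraicIndependent F (algebraMap k₀ k ∘ x)) →
        ∀ a : I → F,
          ((∀ x : F, Polynomial.eval x (Φ.map (aeR a)) ≠ 0) → ¬ A F k a) ∧
          ∀ (k' : Type u) [Field k'] [Algebra k k'] [Algebra F k'] [IsScalarTower F k k'],
            FiniteDimensional k k' → ∀ E : IntermediateField F k', (∀ x ∈ E, IsAlgebraic F x) →
            (∀ x ∈ E, Polynomial.aeval x (Φ.map (aeR a)) ≠ 0) →
            ∃ (F'' : Type u) (_ : Field F'') (_ : Algebra F'' (adjoin k (E : Set k')))
              (_ : Algebra k₀ (adjoin k (E : Set k'))) (φ : F →+* F''),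
              (∀ c, algebraMap k₀ (adjoin k (E : Set k')) c =
                algebraMap k _ (algebraMap k₀ k c)) ∧
              (∀ c, algebraMap F'' (adjoin k (E : Set k')) (φ c) =
                algebraMap k _ (algebraMap F k c)) ∧
              ¬ A F'' (adjoin k (E : Set k')) (φ ∘ a) := by
  obtain ⟨Φ, hΦ, hB, h⟩ := h
  refine ⟨Φ, hΦ, hB, ?_⟩
  intro F k _ _ _ _ _ _ _ _ hF hk hfree a
  refine ⟨fun hroot hA => ?_, ?_⟩
  · obtain ⟨x, hx⟩ := h F k hF hk (fun hx => hfree hx) a hA
    apply hroot x
    rw [Polynomial.eval_map]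
    exact hx
  intro k' _ _ _ _ hfin E₀ hE₀ hroot
  obtain ⟨n, s, hs, hsad⟩ := SLG.exists_finite_gen (k := k) (E₀ : Set k')
  set K'' := adjoin k (E₀ : Set k') with hK''
  let E := adjoin F (Set.range s)
  have hEE₀ : E ≤ E₀ := by
    rw [adjoin_le_iff]
    rintro _ ⟨i, rfl⟩
    exact hs i
  have hst : ∀ c : F, algebraMap F k' c = algebraMap k k' (algebraMap F k c) :=
    IsScalarTower.algebraMap_apply F k k'
  have hEK : ∀ z ∈ E, z ∈ K'' := fun z hz => subset_adjoin k _ (hEE₀ hz)
  -- the algebras
  let i1 : Algebra E K'' := ((algebraMap E k').codRestrict K''.toSubring fun z => hEK _ z.2).toAlgebra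
  have hE : ∀ z : E, ((algebraMap E K'' z : K'') : k') = z := fun _ => rfl
  let i2 : Algebra k₀ K'' := ((algebraMap k K'').comp (algebraMap k₀ k)).toAlgebra
  have hk₀ : ∀ c : k₀, algebraMap k₀ K'' c = algebraMap k K'' (algebraMap k₀ k c) := fun _ => rfl
  let i3 : Algebra F₀ E := ((algebraMap F E).comp (algebraMap F₀ F)).toAlgebra
  let i4 : Algebra F₀ K'' := ((algebraMap k K'').comp (algebraMap F₀ k)).toAlgebra
  have i5 : IsScalarTower F₀ E K'' := by
    refine IsScalarTower.of_algebraMap_eq fun c => ?_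
    apply Subtype.ext
    change algebraMap k k' (algebraMap F₀ k c) = algebraMap F k' (algebraMap F₀ F c)
    rw [hst, ← IsScalarTower.algebraMap_apply F₀ F k]
  have i6 : IsScalarTower F₀ k₀ K'' := by
    refine IsScalarTower.of_algebraMap_eq fun c => ?_
    change algebraMap k K'' (algebraMap F₀ k c) = algebraMap k K'' (algebraMap k₀ k _)
    rw [← IsScalarTower.algebraMap_apply F₀ k₀ k]
  have hE1 := RR.fg_adjoin hF s
  have hgen : adjoin E (Set.range (algebraMap k₀ K'')) = ⊤ := by
    rw [eq_top_iff]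
    rintro ⟨z, hz⟩ -
    -- the image in `k'`
    let L : Subfield k' := (adjoin E (Set.range (algebraMap k₀ K''))).toSubfield.map
      (algebraMap K'' k')
    have hL0 : ∀ y : K'', (y : k') ∈ L → y ∈ adjoin E (Set.range (algebraMap k₀ K'')) := by
      rintro y ⟨y', hy', hy⟩
      have h1 : y' = y := Subtype.ext hy
      rw [← h1]
      exact hy'
    have hLE : ∀ y ∈ E, y ∈ L := fun y hy =>
      ⟨algebraMap E K'' ⟨y, hy⟩, (adjoin E (Set.range (algebraMap k₀ K''))).algebraMap_mem _, rfl⟩
    have hLk : ∀ y : k, algebraMap k k' y ∈ L := by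
      intro y
      have hy : y ∈ (adjoin F (Set.range (algebraMap k₀ k))).toSubfield := by
        rw [hk]
        trivial
      have h1 : (adjoin F (Set.range (algebraMap k₀ k))).toSubfield ≤ L.comap (algebraMap k k') := by
        rw [adjoin_toSubfield, Subfield.closure_le]
        rintro _ (⟨c, rfl⟩ | ⟨c, rfl⟩)
        · change algebraMap k k' (algebraMap F k c) ∈ L
          rw [← hst]
          exact hLE _ (E.algebraMap_mem c)
        · exact ⟨algebraMap k₀ K'' c, subset_adjoin E _ ⟨c, rfl⟩, rfl⟩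
      exact h1 hy
    have hLK : K''.toSubfield ≤ L := by
      rw [← hsad, adjoin_toSubfield, Subfield.closure_le]
      rintro _ (⟨c, rfl⟩ | ⟨i, rfl⟩)
      · exact hLk c
      · exact hLE _ (subset_adjoin F _ ⟨i, rfl⟩)
    exact hL0 ⟨z, hz⟩ (hLK hz)
  have hfree' : ∀ {n : ℕ} {x : Fin n → k₀}, AlgebraicIndependent F₀ x →
      AlgebraicIndependent E (algebraMap k₀ K'' ∘ x) := by
    intro n x hx
    have h1 : AlgebraicIndependent F (algebraMap k₀ k ∘ x) := hfree hx
    have h2 : AlgebraicIndependent F (fun i => algebraMap k k' (algebraMap k₀ k (x i))) :=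
      h1.map' (f := IsScalarTower.toAlgHom F k k') (algebraMap k k').injective
    have h3 := indep_acl (ind_range.2 h2)
    have h4 : (algebraMap E k').fieldRange ≤ acl (algebraMap F k').fieldRange := by
      rintro _ ⟨z, rfl⟩
      rw [mem_acl]
      exact Pool.Agent.TD.isAlgebraic_range_iff.2 (hE₀ _ (hEE₀ z.2))
    have h5 : AlgebraicIndependent E (fun i => algebraMap k k' (algebraMap k₀ k (x i))) :=
      ind_range.1 (indep_mono h4 h3)
    have i7 : IsScalarTower E K'' k' := IsScalarTower.of_algebraMap_eq fun _ => rfl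
    exact AlgebraicIndependent.of_comp (IsScalarTower.toAlgHom E K'' k') h5
  refine ⟨E, inferInstance, i1, i2, algebraMap F E, hk₀, fun c => ?_, ?_⟩
  · apply Subtype.ext
    exact hst c
  · intro hA
    obtain ⟨x, hx⟩ := h E K'' hE1 hgen (fun hx => hfree' hx) _ hA
    apply hroot x (hEE₀ x.2)
    have h2 := congrArg (algebraMap E k') hx
    rw [map_zero, Polynomial.hom_eval₂] at h2
    rw [Polynomial.aeval_def, Polynomial.eval₂_map, ← h2]
    congr 1
    refine RingHom.ext fun p => ?_
    change algebraMap F k' (MvPolynomial.aeval a p) =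
      algebraMap E k' (MvPolynomial.aeval (algebraMap F E ∘ a) p)
    have h3 : MvPolynomial.aeval (algebraMap F E ∘ a) p =
        algebraMap F E (MvPolynomial.aeval a p) :=
      (MvPolynomial.map_aeval a (algebraMap F E) p).symm
    rw [h3]
    rfl

end Pool.Agent.UT
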