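import Pool.Agent.Helper10.UT.Key
import Pool.Agent.Helper10.UT.Geo
import Pool.Agent.Helper10.SLG.Fin

/-!
# Project UT, superelliptic curves: the final statement
-/

universe u

namespace Pool.Agent.UT

open Polynomial Pool.Agent.Helper37.UL Pool.Agent.Helper91.Sect Pool.Agent.HP UL RR
  Pool.Agent.SLS Pool.Agent.RRW Pool.Agent.OPG Pool.Agent.SLG

variable {F₀ k₀ : Type u} [Field F₀] [CharZero F₀] [Field k₀] [Algebra F₀ k₀]

/-- **No sections if one polynomial has no root, for all base fields.** -/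
theorem u_any (hk₀ : ∃ S : Finset k₀, Subfield.closure (S : Set k₀) = ⊤) {d m : ℕ}
    {w : Fin (m + 1) → k₀} {B : Prop} {i l : Fin (m + 1)} (hT : Transcendental F₀ (w i / w l))
    (hB : B → ∃ i j l : Fin (m + 1), AlgebraicIndependent F₀ ![w i / w l, w j / w l])
    (hd : 3 ≤ d) :
    IsU F₀ k₀ B fun F k _ _ _ _ (a : Fin (d + 1) × Fin (m + 1) → F) =>
      ¬ HasNoSectionsS d (curveW (algebraMap k₀ k ∘ w) a) := by
  classical
  have hl : w l ≠ 0 := by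
    intro h0
    rw [h0, div_zero] at hT
    exact hT isAlgebraic_zero
  let I : Finset (ℕ × ℕ) := (d.divisors ×ˢ Finset.range d).filter
    fun c => 2 ≤ c.1 ∧ 1 ≤ c.2 ∧ c.2 < c.1
  have hI : ∀ c ∈ I, c.1 ∣ d ∧ 2 ≤ c.1 ∧ 1 ≤ c.2 ∧ c.2 < c.1 := by
    intro c hc
    rw [Finset.mem_filter, Finset.mem_product] at hc
    exact ⟨Nat.dvd_of_mem_divisors hc.1.1, hc.2⟩
  have h1 := IsU.bex (F₀ := F₀) (k₀ := k₀) (B := B) I
    (A := fun c F k _ _ _ _ (a : Fin (d + 1) × Fin (m + 1) → F) =>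
      PSec d c.1 c.2 k (algebraMap k₀ k) (PL.sysW (algebraMap k₀ k ∘ w) a))
    (fun c hc => isU_of_keyV (k₀ := k₀) (I := Fin (d + 1))
      (P := fun k' _ ι f => PSec d c.1 c.2 k' ι f) (key_V k₀ hd (hI c hc).2.1 (hI c hc).2.2.1
        (Nat.not_dvd_of_pos_of_lt (hI c hc).2.2.1 (hI c hc).2.2.2) (hI c hc).1) hk₀ hT hB)
  refine ((IsU.of_hyp (hyp_not_separable (F₀ := F₀) hk₀ hl hd)).or h1).mono ?_
  intro F k _ _ _ _ _ _ _ _ a ha
  by_contra hcon
  rw [not_or, not_not] at hcon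
  obtain ⟨h3, h4⟩ := hcon
  refine ha (hasNoSectionsS_of (by omega) h3.1 h3.2 fun p ν hp hpd hν1 hν hs => h4 ?_)
  refine ⟨(p, ν), ?_, h3.1, h3.2, hs⟩
  rw [Finset.mem_filter, Finset.mem_product]
  refine ⟨⟨Nat.mem_divisors.2 ⟨hpd, by omega⟩, Finset.mem_range.2 ?_⟩, hp, hν1, hν⟩
  exact lt_of_lt_of_le hν (Nat.le_of_dvd (by omega) hpd)

end Pool.Agent.UT
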