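import Pool.Agent.Helper10.UT.G1
import Pool.Agent.Helper13.OPG.E2

/-!
# Project UT: automorphisms which preserve the field of constants
-/

universe u v w

namespace Pool.Agent.UT

open Pool.Agent.Helper37.UL Pool.Agent.OPN Pool.Agent.OPG

section ext

variable {C : Type u} [Field C]

/-- Automorphisms of the algebraic closure of a subfield extend, and fix given independent elements. -/
theorem extend_aut' [IsAlgClosed C] {K : Type u} [Field K] [Algebra K C]
    (σ : algebraicClosure K C ≃+* algebraicClosure K C) {s : Set C}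
    (hs : AlgebraicIndepOn (algebraicClosure K C) id s) :
    ∃ τ : C ≃+* C, (∀ a : algebraicClosure K C, τ a = σ a) ∧ ∀ y ∈ s, τ y = y := by
  obtain ⟨t, hst, hv⟩ := exists_isTranscendenceBasis_superset hs
  let v : t → C := fun i => i
  have hv : IsTranscendenceBasis (algebraicClosure K C) v := hv
  let := IsAlgClosed.isAlgClosure_of_transcendence_basis v hv
  let e : Algebra.adjoin (algebraicClosure K C) (Set.range v) ≃+*
      Algebra.adjoin (algebraicClosure K C) (Set.range v) :=
    (hv.1.aevalEquiv.symm.toRingEquiv.trans (MvPolynomial.mapEquiv t σ)).trans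
      hv.1.aevalEquiv.toRingEquiv
  have he : ∀ a : algebraicClosure K C, e (algebraMap _ _ a) = algebraMap _ _ (σ a) := by
    intro a
    simp only [e, RingEquiv.trans_apply]
    change hv.1.aevalEquiv (MvPolynomial.mapEquiv t σ (hv.1.aevalEquiv.symm (algebraMap _ _ a))) = _
    rw [AlgEquiv.commutes]
    change hv.1.aevalEquiv (MvPolynomial.mapEquiv t σ (MvPolynomial.C a)) = _
    rw [MvPolynomial.mapEquiv_apply, MvPolynomial.map_C]
    exact AlgEquiv.commutes _ _
  have hev : ∀ i : t, ∀ hi : v i ∈ Algebra.adjoin (algebraicClosure K C) (Set.range v),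
      e ⟨v i, hi⟩ = ⟨v i, hi⟩ := by
    intro i hi
    have hX : hv.1.aevalEquiv (MvPolynomial.X i) = ⟨v i, hi⟩ := by
      apply Subtype.ext
      rw [AlgebraicIndependent.aevalEquiv_apply_coe, MvPolynomial.aeval_X]
    change hv.1.aevalEquiv (MvPolynomial.mapEquiv t σ (hv.1.aevalEquiv.symm ⟨v i, hi⟩)) = _
    rw [← hX, AlgEquiv.symm_apply_apply, MvPolynomial.mapEquiv_apply, MvPolynomial.map_X]
  refine ⟨IsAlgClosure.equivOfEquiv C C e, fun a => ?_, fun y hy => ?_⟩
  · have h1 := IsAlgClosure.equivOfEquiv_algebraMap C C e (algebraMap _ _ a)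
    rw [he] at h1
    exact h1
  · have h2 : y ∈ Algebra.adjoin (algebraicClosure K C) (Set.range v) :=
      Algebra.subset_adjoin ⟨⟨y, hst hy⟩, rfl⟩
    have h1 := IsAlgClosure.equivOfEquiv_algebraMap C C e ⟨y, h2⟩
    have h3 : e ⟨y, h2⟩ = ⟨y, h2⟩ := hev ⟨y, hst hy⟩ h2
    rw [h3] at h1
    exact h1

/-- **Automorphisms which preserve the field of constants.**  `κ` is an algebraically closed subfield, `T` is
transcendental over `κ`, and `M` is an algebraic extension of `A(T)` for a subfield `A` of `κ`.  Then an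
automorphism over `M` can be changed outside the algebraic closure of `M` into one which preserves `κ`. -/
theorem exists_ext [IsAlgClosed C] {κ A M : Subfield C} (hκ : ∀ x : C, IsAlgebraic κ x → x ∈ κ)
    (hA : A ≤ κ) {T : C} (hT : Transcendental κ T) (hAM : A ≤ M)
    (hM : ∀ x ∈ M, IsAlgebraic (ad A {T}) x) {τ₀ : C ≃+* C} (hτ₀ : ∀ x ∈ M, τ₀ x = x) :
    ∃ τ : C ≃+* C, (∀ x : C, IsAlgebraic M x → τ x = τ₀ x) ∧ ∀ y ∈ κ, τ y ∈ κ := by
  -- the transcendence basis of `κ`
  let _ : Algebra A κ := (Subfield.inclusion hA).toAlgebra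
  have hst : IsScalarTower A κ C := IsScalarTower.of_algebraMap_eq fun _ => rfl
  obtain ⟨s, hs⟩ := exists_isTranscendenceBasis A κ
  let y : s → C := fun i => ((i : κ) : C)
  have hyA : AlgebraicIndependent A y := by
    have h1 := hs.1.map' (f := IsScalarTower.toAlgHom A κ C) (algebraMap κ C).injective
    exact h1
  have hyκ : ∀ i, y i ∈ κ := fun i => (i : κ).2
  have halg : ∀ z ∈ κ, IsAlgebraic (gn A y) z := by
    intro z hz
    have h1 : IsAlgebraic (IntermediateField.adjoin A (Set.range ((↑) : s → κ))) (⟨z, hz⟩ : κ) :=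
      hs.isAlgebraic_field.isAlgebraic _
    have h2 : IsAlgebraic (IntermediateField.adjoin A (Set.range ((↑) : s → κ))).toSubfield
      (⟨z, hz⟩ : κ) := h1
    refine alg_map' κ.subtype (fun x hx => ?_) h2
    have h3 : (IntermediateField.adjoin A (Set.range ((↑) : s → κ))).toSubfield ≤
        (gn A y).comap κ.subtype := by
      rw [IntermediateField.adjoin_toSubfield, Subfield.closure_le]
      rintro _ (⟨c, rfl⟩ | ⟨i, rfl⟩)
      · exact le_gn c.2
      · exact mem_gn (x := y) i
    exact h3 hx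
  have hyM : AlgebraicIndependent M y := by
    have h1 : Transcendental (gn A y) T := tr_mono (gn_le hA hyκ) hT
    have h2 : AlgebraicIndependent A (Sum.elim (fun _ : Unit => T) y) :=
      indep_sum_iff.2 ⟨hyA, indep_one.2 h1⟩
    have h3 := (indep_sum_iff.1 (indep_swap h2)).2
    rw [gn_one] at h3
    exact indep_mono (fun x hx => mem_acl.2 (hM x hx)) (indep_acl h3)
  have hyD : AlgebraicIndependent (algebraicClosure M C) y := indep_acl hyM
  have hyS : AlgebraicIndepOn (algebraicClosure M C) id (Set.range y) := AlgebraicIndependent.coe_range hyD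
  -- the restriction of `τ₀`
  have hmap : ∀ (τ : C ≃+* C) (_ : ∀ x ∈ M, τ x = x) (x : C), IsAlgebraic M x →
      IsAlgebraic M (τ x) := by
    intro τ hτ x hx
    refine alg_map' (τ : C →+* C) (fun x hx => ?_) hx
    change τ x ∈ M
    rw [hτ x hx]
    exact hx
  have hτs : ∀ x ∈ M, τ₀.symm x = x := by
    intro x hx
    rw [RingEquiv.symm_apply_eq, hτ₀ x hx]
  let f : algebraicClosure M C →+* algebraicClosure M C :=
    ((τ₀ : C →+* C).comp (algebraMap (algebraicClosure M C) C)).codRestrict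
      (algebraicClosure M C) (fun x => mem_algebraicClosure_iff.2
        (hmap τ₀ hτ₀ _ (mem_algebraicClosure_iff.1 x.2)))
  let g : algebraicClosure M C →+* algebraicClosure M C :=
    ((τ₀.symm : C →+* C).comp (algebraMap (algebraicClosure M C) C)).codRestrict
      (algebraicClosure M C) (fun x => mem_algebraicClosure_iff.2
        (hmap τ₀.symm hτs _ (mem_algebraicClosure_iff.1 x.2)))
  let σ : algebraicClosure M C ≃+* algebraicClosure M C := RingEquiv.ofRingHom f g (by
    refine RingHom.ext fun x => Subtype.ext ?_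
    exact τ₀.apply_symm_apply _) (by
    refine RingHom.ext fun x => Subtype.ext ?_
    exact τ₀.symm_apply_apply _)
  obtain ⟨τ, hτ1, hτ2⟩ := extend_aut' σ hyS
  have hττ : ∀ x : C, IsAlgebraic M x → τ x = τ₀ x := by
    intro x hx
    exact hτ1 ⟨x, mem_algebraicClosure_iff.2 hx⟩
  refine ⟨τ, hττ, fun z hz => ?_⟩
  apply hκ
  refine alg_map' (τ : C →+* C) (fun x hx => ?_) (halg z hz)
  change τ x ∈ κ
  have h4 : gn A y ≤ (τ : C →+* C).eqLocusField (RingHom.id C) := by
    refine gn_le (fun a ha => ?_) fun i => ?_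
    · change τ a = a
      rw [hττ a (isAlgebraic_algebraMap (⟨a, hAM ha⟩ : M)), hτ₀ a (hAM ha)]
    · exact hτ2 _ ⟨i, rfl⟩
  have h5 : τ x = x := h4 hx
  rw [h5]
  exact gn_le hA hyκ hx

end ext

end Pool.Agent.UT

namespace Pool.Agent.Helper37.UL.UP

open Polynomial Pool.Agent.OPN Pool.Agent.OPG

variable {ι : Type v} {U : Ultrafilter ι} {C : Type u} [Field C] {S : Type w} [Field S]
  {π : (ι → C) →+* S} (h : UP U π)

/-- internal automorphisms over varying subfields, which preserve the subfield `κ` -/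
def InternalK (π : (ι → C) →+* S) (κ : Subfield C) (k : ι → Subfield C) (T : S ≃+* S) : Prop :=
  ∃ τ : ι → (C ≃+* C), (∀ a, ∀ x ∈ k a, τ a x = x) ∧ (∀ a, ∀ y ∈ κ, τ a y ∈ κ) ∧
    ∀ f : ι → C, T (π f) = π fun a => τ a (f a)

theorem InternalK.internalV {κ : Subfield C} {k : ι → Subfield C} {T : S ≃+* S}
    (hT : InternalK π κ k T) : InternalV π k T := by
  obtain ⟨τ, h1, -, h2⟩ := hT
  exact ⟨τ, h1, h2⟩

include h

theorem InternalK.fix {κ : Subfield C} {k : ι → Subfield C} {T : S ≃+* S} (hT : InternalK π κ k T)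
    {x : S} (hx : x ∈ h.fsub k) : T x = x := InternalV.fix h hT.internalV hx

theorem InternalK.maps {κ : Subfield C} {k : ι → Subfield C} {X : Subfield C} {T : S ≃+* S}
    (hT : InternalK π κ k T)
    (hX : ∀ a, ∀ τ : C ≃+* C, (∀ x ∈ k a, τ x = x) → (∀ y ∈ κ, τ y ∈ κ) → ∀ x ∈ X, τ x ∈ X)
    {x : S} (hx : x ∈ h.gsub X) : T x ∈ h.gsub X := by
  obtain ⟨τ, hτ, hτκ, hτ'⟩ := hT
  obtain ⟨f, hf, rfl⟩ := hx
  rw [hτ']
  exact ⟨_, fun a => hX a (τ a) (hτ a) (hτκ a) _ (hf a), rfl⟩

/-- elements which are algebraic over the germs have representatives which are algebraic -/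
theorem ev_algV {k : ι → Subfield C} {g : ι → C} (hg : IsAlgebraic (h.fsub k) (π g)) :
    ∀ᶠ a in (U : Filter ι), IsAlgebraic (k a) (g a) := by
  obtain ⟨n, c, hc, hc0, hid⟩ := isAlgebraic_iff.1 hg
  obtain ⟨f, hf1, hf2⟩ := h.lift_familyV hc
  obtain ⟨l, hl⟩ := Function.ne_iff.1 hc0
  have h1 : ∀ᶠ a in (U : Filter ι), f l a ≠ 0 := by
    rw [Pi.zero_apply, ← hf2, h.ne0] at hl
    exact hl
  have h2 : ∀ᶠ a in (U : Filter ι), ∑ i : Fin (n + 1), f i a * g a ^ (i : ℕ) = 0 := by
    have h3 : (π fun a => ∑ i : Fin (n + 1), f i a * g a ^ (i : ℕ)) = 0 := by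
      rw [← hid]
      have h4 : (fun a => ∑ i : Fin (n + 1), f i a * g a ^ (i : ℕ)) =
          ∑ i : Fin (n + 1), f i * g ^ (i : ℕ) := by
        funext a
        rw [Finset.sum_apply]
        rfl
      rw [h4, map_sum]
      refine Finset.sum_congr rfl fun i _ => ?_
      rw [map_mul, map_pow, hf2]
    exact (h.eq0 _).1 h3
  filter_upwards [h1, h2] with a ha1 ha2
  refine isAlgebraic_iff.2 ⟨n, fun i => f i a, fun i => hf1 i a, ?_, ha2⟩
  intro h0
  exact ha1 (congrFun h0 l)

/-- The fixed field of the internal automorphisms over `k`, which preserve `κ` and fix an algebraic element. -/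
theorem mem_of_internalK [IsAlgClosed C] [CharZero C] {κ : Subfield C}
    (hκ : ∀ x : C, IsAlgebraic κ x → x ∈ κ) {A k : ι → Subfield C} (hA : ∀ a, A a ≤ κ) {T : C}
    (hT : Transcendental κ T) (hAk : ∀ a, A a ≤ k a)
    (hk : ∀ a, ∀ x ∈ k a, IsAlgebraic (ad (A a) {T}) x)
    {β z : S} (hβ : IsAlgebraic (h.fsub k) β) (hz : IsAlgebraic (h.fsub k) z)
    (hfix : ∀ T : S ≃+* S, InternalK π κ k T → T β = β → T z = z) :
    z ∈ Subfield.closure ((h.fsub k : Set S) ∪ {β}) := by
  classical
  have halg := hβ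
  obtain ⟨b, rfl⟩ := h.surj β
  obtain ⟨z, rfl⟩ := h.surj z
  have hbk := h.ev_algV hβ
  have hzk := h.ev_algV hz
  obtain ⟨q, hq, hqb⟩ := hβ.isIntegral
  set n := q.natDegree with hn
  obtain ⟨c, hc, hcq⟩ := h.lift_familyV (X := k) (I := Fin n) (c := fun i => ((q.coeff i : _) : S))
    (fun i => Subtype.coe_prop _)
  have h1 : ∀ᶠ a in (U : Filter ι), b a ^ n + ∑ i : Fin n, c i a * b a ^ (i : ℕ) = 0 := by
    have h2 : π (b ^ n + ∑ i : Fin n, c i * b ^ (i : ℕ)) = 0 := by
      have h3 : aeval (π b) q = 0 := hqb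
      rw [aeval_eq_sum_range, Finset.sum_range_succ, ← hn, Algebra.smul_def] at h3
      have h4 : q.coeff n = 1 := hq.coeff_natDegree
      rw [h4, map_one, one_mul, Finset.sum_range, add_comm] at h3
      rw [← h3]
      simp only [map_add, map_pow, map_sum, map_mul, hcq]
      congr 1
    rw [h.eq0] at h2
    filter_upwards [h2] with a ha
    simpa only [Pi.add_apply, Finset.sum_apply, Pi.mul_apply, Pi.pow_apply] using ha
  by_cases hmem : ∀ᶠ a in (U : Filter ι), z a ∈ Subfield.closure ((k a : Set C) ∪ {b a})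
  · -- the element is in the field
    have h5 : ∀ᶠ a in (U : Filter ι), ∃ r : Fin n → C, (∀ i, r i ∈ k a) ∧
        z a = ∑ i, r i * b a ^ (i : ℕ) := by
      filter_upwards [h1, hmem] with a ha ha'
      exact exists_powers (fun i => hc i a) ha ha'
    let r : ι → Fin n → C := fun a => if ha : ∃ r : Fin n → C, (∀ i, r i ∈ k a) ∧
        z a = ∑ i, r i * b a ^ (i : ℕ) then ha.choose else 0
    have hr : ∀ᶠ a in (U : Filter ι), (∀ i, r a i ∈ k a) ∧ z a = ∑ i, r a i * b a ^ (i : ℕ) := by
      filter_upwards [h5] with a ha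
      simp only [r, dif_pos ha]
      exact ha.choose_spec
    have h6 : π z = ∑ i : Fin n, π (fun a => r a i) * π b ^ (i : ℕ) := by
      have h7 : π z = π (∑ i : Fin n, (fun a => r a i) * b ^ (i : ℕ)) := by
        rw [h.eq_iff]
        filter_upwards [hr] with a ha
        simp only [Finset.sum_apply, Pi.mul_apply, Pi.pow_apply]
        exact ha.2
      rw [h7]
      simp only [map_sum, map_mul, map_pow]
    have hb0 : π b ∈ Subfield.closure ((h.fsub k : Set S) ∪ {π b}) :=
      Subfield.subset_closure (Or.inr rfl)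
    rw [h6]
    apply Subfield.sum_mem
    intro i _
    apply Subfield.mul_mem
    · apply Subfield.subset_closure
      left
      change _ ∈ h.fsub k
      rw [h.coe_mem_fsub]
      filter_upwards [hr] with a ha using ha.1 i
    · exact Subfield.pow_mem _ hb0 _
  · exfalso
    rw [← Ultrafilter.eventually_not] at hmem
    have h5 : ∀ a, ∃ τ : C ≃+* C, (∀ x ∈ k a, τ x = x) ∧ (∀ y ∈ κ, τ y ∈ κ) ∧ τ (b a) = b a ∧
        (z a ∉ Subfield.closure ((k a : Set C) ∪ {b a}) → IsAlgebraic (k a) (b a) →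
          IsAlgebraic (k a) (z a) → τ (z a) ≠ z a) := by
      intro a
      by_cases ha : z a ∉ Subfield.closure ((k a : Set C) ∪ {b a}) ∧ IsAlgebraic (k a) (b a) ∧
        IsAlgebraic (k a) (z a)
      · obtain ⟨ha1, ha2, ha3⟩ := ha
        have hkM : k a ≤ Subfield.closure ((k a : Set C) ∪ {b a}) := fun x hx =>
          Subfield.subset_closure (Or.inl hx)
        have hbM : b a ∈ Subfield.closure ((k a : Set C) ∪ {b a}) :=
          Subfield.subset_closure (Or.inr rfl)
        obtain ⟨τ₀, hτ₀, hne⟩ : ∃ τ₀ : C ≃+* C,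
            (∀ y ∈ Subfield.closure ((k a : Set C) ∪ {b a}), τ₀ y = y) ∧ τ₀ (z a) ≠ z a := by
          by_contra hcon
          push Not at hcon
          exact ha1 (mem_of_fixed (isAlgebraic_mono hkM ha3) hcon)
        have hM : ∀ x ∈ Subfield.closure ((k a : Set C) ∪ {b a}), IsAlgebraic (ad (A a) {T}) x := by
          have h6 : Subfield.closure ((k a : Set C) ∪ {b a}) ≤ acl (ad (A a) {T}) := by
            rw [Subfield.closure_le]
            rintro x (hx | hx)
            · exact mem_acl.2 (hk a x hx)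
            · rw [Set.mem_singleton_iff.1 hx]
              refine acl_closed (isAlgebraic_mono (fun x hx => ?_) ha2)
              exact mem_acl.2 (hk a x hx)
          exact fun x hx => mem_acl.1 (h6 hx)
        obtain ⟨τ, hτ1, hτ2⟩ := Pool.Agent.UT.exists_ext hκ (hA a) hT ((hAk a).trans hkM) hM hτ₀
        have hMf : ∀ x ∈ Subfield.closure ((k a : Set C) ∪ {b a}), τ x = x := by
          intro x hx
          rw [hτ1 x (isAlgebraic_algebraMap
            (⟨x, hx⟩ : Subfield.closure ((k a : Set C) ∪ {b a}))), hτ₀ x hx]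
        refine ⟨τ, fun x hx => hMf x (hkM hx), hτ2, hMf _ hbM, fun _ _ _ => ?_⟩
        rw [hτ1 _ (isAlgebraic_mono hkM ha3)]
        exact hne
      · refine ⟨RingEquiv.refl C, fun _ _ => rfl, fun _ hy => hy, rfl, fun h1 h2 h3 => ?_⟩
        exact absurd ⟨h1, h2, h3⟩ ha
    choose τ hτ hτκ hτb hτz using h5
    obtain ⟨T, hT⟩ := h.exists_aut τ
    have h7 := hfix T ⟨τ, hτ, hτκ, hT⟩ (by
      rw [hT]
      congr 1
      funext a
      exact hτb a)
    rw [hT, h.eq_iff] at h7
    obtain ⟨a, ⟨⟨ha, ha'⟩, ha1⟩, ha2⟩ := (((h7.and hmem).and hbk).and hzk).exists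
    exact hτz a ha' ha1 ha2 ha

end Pool.Agent.Helper37.UL.UP
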