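import Pool.Agent.Helper10.UT.G2
import Pool.Agent.Helper77.PLN.UP1

/-!
# Project UT: internal automorphisms over varying subfields which preserve the constants
-/

universe u v w

namespace Pool.Agent.UT

open Pool.Agent.Helper37.UL Polynomial Pool.Agent.OPN Pool.Agent.OPG

variable {J : Type v} {U : Ultrafilter J} {C : Type u} [Field C] {S : Type w} [Field S]
  {π : (J → C) →+* S}

/-- internal automorphisms can be composed -/
theorem InternalK.trans {κ : Subfield C} {k : J → Subfield C} {T T' : S ≃+* S}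
    (hT : UP.InternalK π κ k T) (hT' : UP.InternalK π κ k T') :
    UP.InternalK π κ k (T.trans T') := by
  obtain ⟨τ, hτ, hτκ, hτ2⟩ := hT
  obtain ⟨ρ, hρ, hρκ, hρ2⟩ := hT'
  refine ⟨fun a => (τ a).trans (ρ a), fun a x hx => ?_, fun a y hy => ?_, fun f => ?_⟩
  · rw [RingEquiv.trans_apply, hτ a x hx, hρ a x hx]
  · rw [RingEquiv.trans_apply]
    exact hρκ a _ (hτκ a y hy)
  · rw [RingEquiv.trans_apply, hτ2, hρ2]
    rfl

/-- the identity is internal -/
theorem InternalK.refl (κ : Subfield C) (k : J → Subfield C) :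
    UP.InternalK π κ k (RingEquiv.refl S) :=
  ⟨fun _ => RingEquiv.refl C, fun _ _ _ => rfl, fun _ _ hy => hy, fun _ => rfl⟩

variable [IsAlgClosed C] [CharZero C] (h : UP U π) {κ : Subfield C}
  (hκ : ∀ x : C, IsAlgebraic κ x → x ∈ κ) {A k : J → Subfield C} (hA : ∀ a, A a ≤ κ) {T : C}
  (hT : Transcendental κ T) (hAk : ∀ a, A a ≤ k a)
  (hk : ∀ a, ∀ x ∈ k a, IsAlgebraic (ad (A a) {T}) x)

include hκ hA hT hAk hk

/-- algebraic elements fixed by all internal automorphisms -/
theorem mem_fsub_of_fixedK {z : S} (hz : IsAlgebraic (h.fsub k) z)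
    (hfix : ∀ T : S ≃+* S, UP.InternalK π κ k T → T z = z) : z ∈ h.fsub k := by
  have h1 := h.mem_of_internalK hκ hA hT hAk hk (β := 0) isAlgebraic_zero hz
    (fun T hT _ => hfix T hT)
  have h2 : Subfield.closure ((h.fsub k : Set S) ∪ {0}) ≤ h.fsub k := by
    rw [Subfield.closure_le]
    rintro x (hx | rfl)
    · exact hx
    · exact (h.fsub k).zero_mem
  exact h2 h1

/-- the conjugates of an algebraic element over `h.fsub k` are its images under internal
automorphisms -/
theorem exists_internalK_root {β β' : S} (hβ : IsAlgebraic (h.fsub k) β)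
    (hβ' : aeval β' (minpoly (h.fsub k) β) = 0) :
    ∃ T : S ≃+* S, UP.InternalK π κ k T ∧ T β = β' := by
  classical
  have hint := hβ.isIntegral
  have hsub : ∀ T : S ≃+* S, UP.InternalK π κ k T → ∀ r : S,
      aeval r (minpoly (h.fsub k) β) = 0 → aeval (T r) (minpoly (h.fsub k) β) = 0 := by
    intro T hT r hr
    rw [← map_aeval (fun y hy => UP.InternalK.fix h hT hy), hr, map_zero]
  let R : Finset S := ((minpoly (h.fsub k) β).aroots S).toFinset
  have hR : ∀ y, y ∈ R ↔ aeval y (minpoly (h.fsub k) β) = 0 := by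
    intro y
    rw [Multiset.mem_toFinset, mem_aroots]
    exact ⟨fun hh => hh.2, fun hh => ⟨minpoly.ne_zero hint, hh⟩⟩
  let O : Finset S := R.filter fun y => ∃ T : S ≃+* S, UP.InternalK π κ k T ∧ T β = y
  have hO : ∀ y, y ∈ O ↔ ∃ T : S ≃+* S, UP.InternalK π κ k T ∧ T β = y := by
    intro y
    rw [Finset.mem_filter]
    refine ⟨fun hh => hh.2, fun hh => ⟨?_, hh⟩⟩
    obtain ⟨T, hT, rfl⟩ := hh
    rw [hR]
    exact hsub T hT β (minpoly.aeval _ _)
  have hβO : β ∈ O := (hO β).mpr ⟨RingEquiv.refl S, InternalK.refl κ k, rfl⟩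
  have hOT : ∀ T : S ≃+* S, UP.InternalK π κ k T → O.image T = O := by
    intro T hT
    apply Finset.eq_of_subset_of_card_le
    · intro y hy
      obtain ⟨x, hx, rfl⟩ := Finset.mem_image.mp hy
      obtain ⟨T', hT', rfl⟩ := (hO x).mp hx
      exact (hO _).mpr ⟨T'.trans T, InternalK.trans hT' hT, rfl⟩
    · rw [Finset.card_image_of_injective _ T.injective]
  let Q : S[X] := ∏ r ∈ O, (X - Polynomial.C r)
  have hQT : ∀ T : S ≃+* S, UP.InternalK π κ k T → Q.map (T : S →+* S) = Q := by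
    intro T hT
    have h1 : Q.map (T : S →+* S) = ∏ r ∈ O.image T, (X - Polynomial.C r) := by
      rw [Finset.prod_image fun x _ y _ hxy => T.injective hxy, Polynomial.map_prod]
      apply Finset.prod_congr rfl
      intro r _
      rw [Polynomial.map_sub, map_X, map_C]
      rfl
    rw [h1, hOT T hT]
  -- the coefficients are algebraic
  have hQalg : ∀ n, IsAlgebraic (h.fsub k) (Q.coeff n) := by
    have h1 : Q ∈ lifts (algebraMap (algebraicClosure (h.fsub k) S) S) := by
      refine prod_mem fun r hr => ?_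
      have hr1 : IsAlgebraic (h.fsub k) r := by
        refine ⟨minpoly (h.fsub k) β, minpoly.ne_zero hint, ?_⟩
        exact (hR r).1 (Finset.mem_of_mem_filter r hr)
      rw [sub_eq_add_neg, ← Polynomial.C_neg]
      refine add_mem (Polynomial.X_mem_lifts _) ?_
      exact ⟨Polynomial.C (-⟨r, mem_algebraicClosure_iff.2 hr1⟩), by
        change Polynomial.map _ (Polynomial.C _) = _
        rw [Polynomial.map_C]
        rfl⟩
    intro n
    rw [lifts_iff_coeff_lifts] at h1
    obtain ⟨c, hc⟩ := h1 n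
    rw [← hc]
    exact mem_algebraicClosure_iff.1 c.2
  have hQc : ∀ n, Q.coeff n ∈ h.fsub k := by
    intro n
    apply mem_fsub_of_fixedK h hκ hA hT hAk hk (hQalg n)
    intro T hT
    have h1 := congrArg (fun q => q.coeff n) (hQT T hT)
    rw [coeff_map] at h1
    exact h1
  have hQl : Q ∈ lifts (algebraMap (h.fsub k) S) := by
    rw [lifts_iff_coeff_lifts]
    intro n
    exact ⟨⟨_, hQc n⟩, rfl⟩
  obtain ⟨q, hq⟩ := hQl
  have hq' : q.map (algebraMap (h.fsub k) S) = Q := hq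
  have h1 : aeval β q = 0 := by
    rw [← aeval_map_algebraMap S, hq', map_prod]
    exact Finset.prod_eq_zero hβO (by simp)
  obtain ⟨r, hr⟩ := minpoly.dvd _ β h1
  have h2 : aeval β' q = 0 := by rw [hr, map_mul, hβ', zero_mul]
  rw [← aeval_map_algebraMap S, hq', map_prod, Finset.prod_eq_zero_iff] at h2
  obtain ⟨y, hy, hy'⟩ := h2
  have h3 : β' = y := by
    rw [map_sub, aeval_X, aeval_C, Algebra.algebraMap_self, RingHom.id_apply] at hy'
    exact sub_eq_zero.mp hy'
  rw [h3]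
  exact (hO y).mp hy

/-- an automorphism over `k0` agrees with an internal automorphism on finitely many algebraic elements -/
theorem exists_internalK {k0 : Subfield S} (hk0 : k0 ≤ h.fsub k)
    (hrel : ∀ x ∈ h.fsub k, IsAlgebraic k0 x → x ∈ k0) (ρ : S ≃+* S) (hρ : ∀ y ∈ k0, ρ y = y)
    {N : ℕ} {ψ : Fin N → S} (hψ : ∀ i, IsAlgebraic k0 (ψ i)) :
    ∃ T' : S ≃+* S, UP.InternalK π κ k T' ∧ ∀ i, T' (ψ i) = ρ (ψ i) := by
  have hcz : CharZero S := h.charZero
  obtain ⟨β, hβ, -, hβx⟩ := exists_prim ψ hψ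
  have h1 : aeval (ρ β) (minpoly k0 β) = 0 := by
    rw [← map_aeval hρ, minpoly.aeval, map_zero]
  have h2 := root_minpoly hk0 hrel hβ h1
  obtain ⟨T, hT, hTβ⟩ := exists_internalK_root h hκ hA hT hAk hk (isAlgebraic_mono hk0 hβ) h2
  refine ⟨T, hT, fun i => ?_⟩
  obtain ⟨P, hP⟩ := hβx (ψ i) (Subfield.subset_closure (Or.inr ⟨i, rfl⟩))
  rw [hP, map_aeval hρ, map_aeval (fun y hy => UP.InternalK.fix h hT (hk0 hy)), hTβ]

/-- `exists_internalK` for a family indexed by a finite type -/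
theorem exists_internalK_fin {k0 : Subfield S} (hk0 : k0 ≤ h.fsub k)
    (hrel : ∀ x ∈ h.fsub k, IsAlgebraic k0 x → x ∈ k0) (ρ : S ≃+* S) (hρ : ∀ y ∈ k0, ρ y = y)
    {I : Type} [Finite I] {ψ : I → S} (hψ : ∀ i, IsAlgebraic k0 (ψ i)) :
    ∃ T' : S ≃+* S, UP.InternalK π κ k T' ∧ ∀ i, T' (ψ i) = ρ (ψ i) := by
  obtain ⟨n, ⟨e⟩⟩ := Finite.exists_equiv_fin I
  obtain ⟨T', h1, h2⟩ := exists_internalK h hκ hA hT hAk hk hk0 hrel ρ hρ
    (ψ := fun i => ψ (e.symm i)) fun i => hψ _
  refine ⟨T', h1, fun i => ?_⟩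
  have h3 := h2 (e i)
  rwa [e.symm_apply_apply] at h3

end Pool.Agent.UT
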