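import Pool.Agent.Helper97.GS.LevX
import Pool.Agent.Helper13.BT.N2
import Pool.Agent.Helper13.TQ.N2
import Pool.Agent.Helper10.UT.K1

/-!
# Project UT: the constants attached to a curve, with the automorphisms over a small field
-/

universe u v w

set_option linter.unusedSectionVars false

namespace Pool.Agent.UT

open Polynomial Pool.Agent.Helper37.UL Pool.Agent.BT Pool.Agent.OPG Pool.Agent.GS

/-- the equivariance of the constants for the automorphisms over the subfield `M` -/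
def EquiK (k : Type u) {C : Type u} [Field k] [Field C] [Algebra k C] (p : ℕ) {d : ℕ} {ι : Type}
    (M : Subfield C) (G : Fin d → ι → C) (z : Fin d → Fin d → C) : Prop :=
  ∀ σ : C ≃+* C, (∀ c ∈ M, σ c = c) → ∀ i j i' j' : Fin d, i ≠ j → i' ≠ j' →
    (∀ q, σ (G i q) = G i' q) → (∀ q, σ (G j q) = G j' q) →
    σ (z i j) / z i' j' ∈ IntermediateField.adjoin k
      (PL.mu C p ∪ (Set.range (G i') ∪ Set.range (G j')))

/-- The property of the curve `f = rel = 0` that all certificates over the algebraic closure of the subfield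
`Kb` have constants `z i j`, for the power `T ^ c₀`. -/
def HasLevK (k₁ : Type u) {k : Type u} (C : Type u) [Field k₁] [Field k] [Field C] [Algebra k₁ k]
    [Algebra k C] (Kb : Subfield k) (p c₀ : ℕ) {N d : ℕ} (r : ℕ) {U : Type} [Fintype U] {e : U → ℕ}
    (f : MonV (N + 2) d → k) (rel : ∀ u, MonV (N + 2) (e u) → k) : Prop :=
  ∀ {n M : ℕ}, n ≤ M →
    ∀ {G : Fin d → MonV (N + 2) n → C} {W : MonV (N + 2) (r * n) → C} {a b : ℕ}
      {H : MonV (N + 2) a → C} {H' : U → MonV (N + 2) b → C} {T : k}, T ≠ 0 → T ∈ Kb →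
    (∀ i q, IsAlgebraic (Kb.map (algebraMap k C)) (G i q)) →
    (∀ q, IsAlgebraic (Kb.map (algebraMap k C)) (W q)) →
    ∏ i, pol (G i) = MvPolynomial.C (algebraMap k C T) * pol W ^ p +
      comb (fun q => algebraMap k C (f q)) (fun u q => algebraMap k C (rel u q)) H H' →
    (∀ i j, i ≠ j → Cop (G i) (G j) (fun q => algebraMap k C (f q))
      (fun u q => algebraMap k C (rel u q)) M) →
    ∀ {M₂ M₂' M₃ : ℕ} {D : Fin d → MonV (N + 2) M₂ → C} {D' : Fin d → MonV (N + 2) M₂' → C}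
      {D'' : Fin d → U → MonV (N + 2) M₂' → C} {c : Fin d → Fin (M₃ + 1) → C}, (∀ i, c i ≠ 0) →
    (∀ i q, IsAlgebraic (Kb.map (algebraMap k C)) (D i q)) →
    (∀ i q, IsAlgebraic (Kb.map (algebraMap k C)) (c i q)) →
    (∀ i, pol (D i) * pol (G i) + comb (fun q => algebraMap k C (f q))
      (fun u q => algebraMap k C (rel u q)) (D' i) (D'' i) = polX (c i)) →
    ∃ z : Fin d → Fin d → C, BT.LevZ p G W (T ^ c₀) z ∧
      EquiK k p (Kb.map (algebraMap k C)) G z ∧ LevG k₁ Kb f rel G D c z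

/-- The property of the curve `f = rel = 0` that all certificates over the algebraic closure of the subfield
`Kb` have constants `z i j`, for two quadrics. -/
def HasLevQK (k₁ : Type u) {k : Type u} (C : Type u) [Field k₁] [Field k] [Field C] [Algebra k₁ k]
    [Algebra k C] (Kb : Subfield k) {N d : ℕ} {U : Type} [Fintype U] {e : U → ℕ}
    (f : MonV (N + 2) d → k) (rel : ∀ u, MonV (N + 2) (e u) → k) : Prop :=
  ∀ {n M : ℕ}, n ≤ M →
    ∀ {G : Fin 4 → MonV (N + 2) n → C} {nW nW₂ : ℕ} {W : MonV (N + 2) nW → C}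
      {W₂ : MonV (N + 2) nW₂ → C} {a b a₂ b₂ : ℕ}
      {H : MonV (N + 2) a → C} {H' : U → MonV (N + 2) b → C}
      {H₂ : MonV (N + 2) a₂ → C} {H₂' : U → MonV (N + 2) b₂ → C} {T : k}, T ≠ 0 → T ∈ Kb →
    (∀ i q, IsAlgebraic (Kb.map (algebraMap k C)) (G i q)) →
    (∀ q, IsAlgebraic (Kb.map (algebraMap k C)) (W q)) →
    (∀ q, IsAlgebraic (Kb.map (algebraMap k C)) (W₂ q)) →
    pol (G 0) * pol (G 1) = MvPolynomial.C (algebraMap k C T) * pol W ^ 2 +
      comb (fun q => algebraMap k C (f q)) (fun u q => algebraMap k C (rel u q)) H H' →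
    pol (G 2) * pol (G 3) = pol W₂ ^ 2 +
      comb (fun q => algebraMap k C (f q)) (fun u q => algebraMap k C (rel u q)) H₂ H₂' →
    Cop (G 0) (G 1) (fun q => algebraMap k C (f q)) (fun u q => algebraMap k C (rel u q)) M →
    Cop (G 2) (G 3) (fun q => algebraMap k C (f q)) (fun u q => algebraMap k C (rel u q)) M →
    ∀ {M₂ M₂' M₃ : ℕ} {D : Fin 4 → MonV (N + 2) M₂ → C} {D' : Fin 4 → MonV (N + 2) M₂' → C}
      {D'' : Fin 4 → U → MonV (N + 2) M₂' → C} {c : Fin 4 → Fin (M₃ + 1) → C}, (∀ i, c i ≠ 0) →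
    (∀ i q, IsAlgebraic (Kb.map (algebraMap k C)) (D i q)) →
    (∀ i q, IsAlgebraic (Kb.map (algebraMap k C)) (c i q)) →
    (∀ i, pol (D i) * pol (G i) + comb (fun q => algebraMap k C (f q))
      (fun u q => algebraMap k C (rel u q)) (D' i) (D'' i) = polX (c i)) →
    ∃ z : Fin 4 → Fin 4 → C, TQ.LevZQ G W T z ∧
      EquiK k 2 (Kb.map (algebraMap k C)) G z ∧ LevG k₁ Kb f rel G D c z

theorem equiK_map {k' C' k C : Type u} [Field k'] [Field C'] [Algebra k' C'] [IsAlgClosure k' C']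
    [Field k] [Field C] [Algebra k C] (ψ : C' →+* C) {Kb : Subfield k}
    (hKb : Kb.map (algebraMap k C) = (ψ.comp (algebraMap k' C')).fieldRange) {p d : ℕ} {ι : Type}
    {G : Fin d → ι → C'} {z : Fin d → Fin d → C'}
    (h : ∀ (σ : C' ≃ₐ[k'] C') (i j i' j' : Fin d), i ≠ j → i' ≠ j' → (∀ q, σ (G i q) = G i' q) →
      (∀ q, σ (G j q) = G j' q) → σ (z i j) / z i' j' ∈ IntermediateField.adjoin k'
        (PL.mu C' p ∪ (Set.range (G i') ∪ Set.range (G j')))) :
    EquiK k p (Kb.map (algebraMap k C)) (fun i q => ψ (G i q)) (fun i j => ψ (z i j)) := by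
  intro σ hσ i j i' j' hij hij' h1 h2
  have hinj : Function.Injective ψ := ψ.injective
  obtain ⟨σ', hσ'⟩ := exists_restr (k' := k') ψ (σ : C →+* C) fun a => by
    apply hσ
    rw [hKb]
    exact ⟨a, rfl⟩
  have h3 := h σ' i j i' j' hij hij' (fun q => hinj (by rw [hσ']; exact h1 q))
    (fun q => hinj (by rw [hσ']; exact h2 q))
  have h4 := map_mem_adjoin_mu ψ hKb
    (X := Set.range (fun q => ψ (G i' q)) ∪ Set.range (fun q => ψ (G j' q))) (by
    rintro _ (⟨q, rfl⟩ | ⟨q, rfl⟩)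
    · exact Or.inl ⟨q, rfl⟩
    · exact Or.inr ⟨q, rfl⟩) h3
  rw [map_div₀, hσ'] at h4
  exact h4

/-- **(L') Transport of the constants** to a larger algebraically closed field. -/
theorem transportK {k₁ k' C' F k C : Type u} [Field k₁] [Field k'] [Field C'] [CharZero C']
    [Algebra k₁ k'] [Algebra k' C'] [IsAlgClosure k' C'] [Field F] [Field k] [Field C] [Algebra F k]
    [Algebra k C] [IsAlgClosed C] (ψ : C' →+* C) {Kb : Subfield k}
    (hKb : Kb.map (algebraMap k C) = (ψ.comp (algebraMap k' C')).fieldRange)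
    (hk₁ : ∀ a : k₁, ∃ b : F, algebraMap k C (algebraMap F k b) =
      ψ (algebraMap k' C' (algebraMap k₁ k' a)))
    {p c₀ N d r : ℕ} {U : Type} [Fintype U] {e : U → ℕ}
    {f : MonV (N + 2) d → k'} {rel : ∀ u, MonV (N + 2) (e u) → k'}
    {f₂ : MonV (N + 2) d → k} {rel₂ : ∀ u, MonV (N + 2) (e u) → k}
    (hf : ∀ q, algebraMap k C (f₂ q) = ψ (algebraMap k' C' (f q)))
    (hrel : ∀ u q, algebraMap k C (rel₂ u q) = ψ (algebraMap k' C' (rel u q)))
    (h : SX.HasLevX k₁ C' p c₀ r f rel) : HasLevK F C Kb p c₀ r f₂ rel₂ := by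
  intro n M hnM G W a b H H' T hT hTKb hG hW hprod hcop M₂ M₂' M₃ D D' D'' c hc hD hcalg hnrm
  have hinj : Function.Injective ψ := ψ.injective
  choose G₀ hG₀ using fun i q => alg_mem ψ hKb (hG i q)
  choose W₀ hW₀ using fun q => alg_mem ψ hKb (hW q)
  choose D₀ hD₀ using fun i q => alg_mem ψ hKb (hD i q)
  choose c₁ hc₁ using fun i q => alg_mem ψ hKb (hcalg i q)
  obtain ⟨T', hT'⟩ := kb_mem ψ hKb hTKb
  obtain rfl : G = fun i q => ψ (G₀ i q) := by funext i q; exact (hG₀ i q).symm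
  obtain rfl : W = fun q => ψ (W₀ q) := by funext q; exact (hW₀ q).symm
  obtain rfl : D = fun i q => ψ (D₀ i q) := by funext i q; exact (hD₀ i q).symm
  obtain rfl : c = fun i q => ψ (c₁ i q) := by funext i q; exact (hc₁ i q).symm
  have ef : (fun q => algebraMap k C (f₂ q)) = fun q => ψ (algebraMap k' C' (f q)) := by
    funext q; exact hf q
  have erel : (fun u q => algebraMap k C (rel₂ u q)) = fun u q => ψ (algebraMap k' C' (rel u q)) := by
    funext u q; exact hrel u q
  rw [ef, erel, hT'] at hprod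
  simp only [ef, erel] at hcop hnrm
  let iA : Algebra C' C := ψ.toAlgebra
  obtain ⟨H₀, H₀', hprod'⟩ := prod_descend (F := C') (L := C) (G := G₀) (W := W₀)
    (T := algebraMap k' C' T') (f := fun q => algebraMap k' C' (f q))
    (rel := fun u q => algebraMap k' C' (rel u q)) (H := H) (H' := H') hprod
  have hcop' : ∀ i j, i ≠ j → Cop (G₀ i) (G₀ j) (fun q => algebraMap k' C' (f q))
      (fun u q => algebraMap k' C' (rel u q)) M := fun i j hij =>
    cop_descend (F := C') (L := C) (hcop i j hij)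
  have hnrm' := fun i => nrm_descend (F := C') (L := C) (G := G₀ i) (D := D₀ i) (c := c₁ i)
    (f := fun q => algebraMap k' C' (f q)) (rel := fun u q => algebraMap k' C' (rel u q)) (hnrm i)
  choose D₁ D₂ hD₁ using hnrm'
  have hT'0 : T' ≠ 0 := by
    rintro rfl
    rw [map_zero, map_zero] at hT'
    exact hT ((algebraMap k C).injective (by rw [hT', map_zero]))
  have hc' : ∀ i, c₁ i ≠ 0 := by
    intro i h0
    apply hc i
    funext l
    change ψ (c₁ i l) = 0
    rw [h0, Pi.zero_apply, map_zero]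
  obtain ⟨z, hz1, hz2⟩ := h hnM hT'0 hprod' hcop' hc' hD₁
  refine ⟨fun i j => ψ (z i j), levZ_map ψ hKb ?_ hz1, equiK_map ψ hKb hz1.equi,
    levG_of_small ψ hKb hk₁ hf hrel (levG_of_levIV ⊤ hz2)⟩
  rw [map_pow, hT', map_pow, map_pow]

/-- **(L') Transport of the constants** to a larger algebraically closed field, two quadrics. -/
theorem transportQK {k₁ k' C' F k C : Type u} [Field k₁] [Field k'] [Field C'] [CharZero C']
    [Algebra k₁ k'] [Algebra k' C'] [IsAlgClosure k' C'] [Field F] [Field k] [Field C] [Algebra F k]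
    [Algebra k C] [IsAlgClosed C] (ψ : C' →+* C) {Kb : Subfield k}
    (hKb : Kb.map (algebraMap k C) = (ψ.comp (algebraMap k' C')).fieldRange)
    (hk₁ : ∀ a : k₁, ∃ b : F, algebraMap k C (algebraMap F k b) =
      ψ (algebraMap k' C' (algebraMap k₁ k' a)))
    {N d : ℕ} {U : Type} [Fintype U] {e : U → ℕ}
    {f : MonV (N + 2) d → k'} {rel : ∀ u, MonV (N + 2) (e u) → k'}
    {f₂ : MonV (N + 2) d → k} {rel₂ : ∀ u, MonV (N + 2) (e u) → k}
    (hf : ∀ q, algebraMap k C (f₂ q) = ψ (algebraMap k' C' (f q)))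
    (hrel : ∀ u q, algebraMap k C (rel₂ u q) = ψ (algebraMap k' C' (rel u q)))
    (h : TQ.HasLevQ k₁ C' f rel) : HasLevQK F C Kb f₂ rel₂ := by
  intro n M hnM G nW nW₂ W W₂ a b a₂ b₂ H H' H₂ H₂' T hT hTKb hG hW hW₂ hprod hprod₂ hcop hcop₂ M₂
    M₂' M₃ D D' D'' c hc hD hcalg hnrm
  have hinj : Function.Injective ψ := ψ.injective
  choose G₀ hG₀ using fun i q => alg_mem ψ hKb (hG i q)
  choose W₀ hW₀ using fun q => alg_mem ψ hKb (hW q)
  choose W₁ hW₁ using fun q => alg_mem ψ hKb (hW₂ q)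
  choose D₀ hD₀ using fun i q => alg_mem ψ hKb (hD i q)
  choose c₁ hc₁ using fun i q => alg_mem ψ hKb (hcalg i q)
  obtain ⟨T', hT'⟩ := kb_mem ψ hKb hTKb
  obtain rfl : G = fun i q => ψ (G₀ i q) := by funext i q; exact (hG₀ i q).symm
  obtain rfl : W = fun q => ψ (W₀ q) := by funext q; exact (hW₀ q).symm
  obtain rfl : W₂ = fun q => ψ (W₁ q) := by funext q; exact (hW₁ q).symm
  obtain rfl : D = fun i q => ψ (D₀ i q) := by funext i q; exact (hD₀ i q).symm
  obtain rfl : c = fun i q => ψ (c₁ i q) := by funext i q; exact (hc₁ i q).symm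
  have ef : (fun q => algebraMap k C (f₂ q)) = fun q => ψ (algebraMap k' C' (f q)) := by
    funext q; exact hf q
  have erel : (fun u q => algebraMap k C (rel₂ u q)) = fun u q => ψ (algebraMap k' C' (rel u q)) := by
    funext u q; exact hrel u q
  rw [ef, erel, hT'] at hprod
  rw [ef, erel] at hprod₂ hcop hcop₂
  simp only [ef, erel] at hnrm
  let iA : Algebra C' C := ψ.toAlgebra
  have hprod' : ∃ (H₀ : MonV (N + 2) a → C') (H₀' : U → MonV (N + 2) b → C'),
      pol (G₀ 0) * pol (G₀ 1) = MvPolynomial.C (algebraMap k' C' T') * pol W₀ ^ 2 +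
        comb (fun q => algebraMap k' C' (f q)) (fun u q => algebraMap k' C' (rel u q)) H₀ H₀' := by
    obtain ⟨H₀, H₀', h0⟩ := comb_descend (F := C') (L := C)
      (P := pol (G₀ 0) * pol (G₀ 1) - MvPolynomial.C (algebraMap k' C' T') * pol W₀ ^ 2)
      (f := fun q => algebraMap k' C' (f q)) (rel := fun u q => algebraMap k' C' (rel u q))
      (H := H) (H' := H') (by
        rw [map_sub, map_mul, map_mul, map_pow, MvPolynomial.map_C, map_pol, map_pol, map_pol]
        exact sub_eq_of_eq_add' hprod)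
    exact ⟨H₀, H₀', by rw [← h0, add_sub_cancel]⟩
  have hprod₂' : ∃ (H₀ : MonV (N + 2) a₂ → C') (H₀' : U → MonV (N + 2) b₂ → C'),
      pol (G₀ 2) * pol (G₀ 3) = pol W₁ ^ 2 +
        comb (fun q => algebraMap k' C' (f q)) (fun u q => algebraMap k' C' (rel u q)) H₀ H₀' := by
    obtain ⟨H₀, H₀', h0⟩ := comb_descend (F := C') (L := C)
      (P := pol (G₀ 2) * pol (G₀ 3) - pol W₁ ^ 2)
      (f := fun q => algebraMap k' C' (f q)) (rel := fun u q => algebraMap k' C' (rel u q))
      (H := H₂) (H' := H₂') (by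
        rw [map_sub, map_mul, map_pow, map_pol, map_pol, map_pol]
        exact sub_eq_of_eq_add' hprod₂)
    exact ⟨H₀, H₀', by rw [← h0, add_sub_cancel]⟩
  obtain ⟨H₀, H₀', hprod'⟩ := hprod'
  obtain ⟨H₁, H₁', hprod₂'⟩ := hprod₂'
  have hcop' : Cop (G₀ 0) (G₀ 1) (fun q => algebraMap k' C' (f q))
      (fun u q => algebraMap k' C' (rel u q)) M := cop_descend (F := C') (L := C) hcop
  have hcop₂' : Cop (G₀ 2) (G₀ 3) (fun q => algebraMap k' C' (f q))
      (fun u q => algebraMap k' C' (rel u q)) M := cop_descend (F := C') (L := C) hcop₂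
  have hnrm' := fun i => nrm_descend (F := C') (L := C) (G := G₀ i) (D := D₀ i) (c := c₁ i)
    (f := fun q => algebraMap k' C' (f q)) (rel := fun u q => algebraMap k' C' (rel u q)) (hnrm i)
  choose D₁ D₂ hD₁ using hnrm'
  have hT'0 : T' ≠ 0 := by
    rintro rfl
    rw [map_zero, map_zero] at hT'
    exact hT ((algebraMap k C).injective (by rw [hT', map_zero]))
  have hc' : ∀ i, c₁ i ≠ 0 := by
    intro i h0
    apply hc i
    funext l
    change ψ (c₁ i l) = 0
    rw [h0, Pi.zero_apply, map_zero]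
  obtain ⟨z, hz1, hz2⟩ := h hnM hT'0 hprod' hprod₂' hcop' hcop₂' hc' hD₁
  exact ⟨fun i j => ψ (z i j), levZQ_map ψ hKb hT' hz1, equiK_map ψ hKb hz1.equi,
    levG_of_small ψ hKb hk₁ hf hrel (levG_of_levIQ ⊤ hz2)⟩


/-- **The equivariance in the ultrapower**, for internal automorphisms over small fields. -/
theorem equi_relsK {J : Type v} {U : Ultrafilter J} {k C : Type u} [Field k] [Field C] [Algebra k C]
    [IsAlgClosed C] [CharZero C] {S : Type w} [Field S] {π : (J → C) →+* S} (h : UP U π) {p : ℕ}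
    (hp : p ≠ 0) (hC : ∀ x : C, IsAlgebraic (algebraMap k C).fieldRange x)
    {d : ℕ} {ι : Type} [Finite ι] {G : J → Fin d → ι → C} {z : J → Fin d → Fin d → C}
    (hG : ∀ i q, IsAlgebraic (h.gsub (algebraMap k C).fieldRange) (π fun a => G a i q))
    {κ : Subfield C} {Kb M : J → Subfield C} (hKM : ∀ a, Kb a ≤ M a)
    (hz : ∀ᶠ a in (U : Filter J), EquiK k p (Kb a) (G a) (z a)) :
    ∀ T' : S ≃+* S, UP.InternalK π κ M T' →
      ∀ i j i' j', i ≠ j → i' ≠ j' →
      (∀ q, T' (π fun a => G a i q) = π fun a => G a i' q) →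
      (∀ q, T' (π fun a => G a j q) = π fun a => G a j' q) →
      ∀ σ : S ≃+* S, PL.Fx k h p σ →
      (∀ q, σ (π fun a => G a i' q) = π fun a => G a i' q) →
      (∀ q, σ (π fun a => G a j' q) = π fun a => G a j' q) →
      σ (T' (π fun a => z a i j) / (π fun a => z a i' j')) =
        T' (π fun a => z a i j) / (π fun a => z a i' j') := by
  classical
  intro T' hT' i j i' j' hij hij' hi hj σ hσ hσi hσj
  obtain ⟨τ, hτ, -, hTτ⟩ := hT'
  rw [hTτ, ← h.map_div]
  have hi' : ∀ᶠ a in (U : Filter J), ∀ q, τ a (G a i q) = G a i' q := by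
    rw [Filter.eventually_all]
    intro q
    have h1 := hi q
    rw [hTτ] at h1
    exact (h.eq_iff _ _).1 h1
  have hj' : ∀ᶠ a in (U : Filter J), ∀ q, τ a (G a j q) = G a j' q := by
    rw [Filter.eventually_all]
    intro q
    have h1 := hj q
    rw [hTτ] at h1
    exact (h.eq_iff _ _).1 h1
  refine PL.fix_of_ev h hp hC (I := ι ⊕ ι) (v := fun a => Sum.elim (G a i') (G a j'))
    ?_ ?_ hσ ?_
  · rintro (q | q)
    · exact hG i' q
    · exact hG j' q
  · filter_upwards [hz, hi', hj'] with a ha h1 h2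
    rw [Set.Sum.elim_range]
    exact ha (τ a) (fun c hc => hτ a c (hKM a hc)) i j i' j' hij hij' h1 h2
  · rintro (q | q)
    · exact hσi q
    · exact hσj q

end Pool.Agent.UT
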