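import Pool.Agent.Helper13.PL.NF5
import Pool.Agent.Helper13.OPN.A
import Pool.Agent.Helper13.OPG.Defs
import Pool.Agent.Helper10.UT.G1

/-!
# Project UT: the fields of the ultrapower, for varying fields of constants
-/

universe u v w

namespace Pool.Agent.UT

open Pool.Agent.PC Pool.Agent.Helper37.UL UL TH Pool.Agent.OPN Pool.Agent.PL Pool.Agent.OPG

/-- the field generated by two elements -/
theorem closure_pair {C : Type u} [Field C] (X : Subfield C) (T₁ q₁ : C) :
    Subfield.closure ((X : Set C) ∪ {T₁, q₁}) =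
      Subfield.closure ((gen X ![T₁] : Set C) ∪ {q₁}) := by
  apply le_antisymm
  · rw [Subfield.closure_le]
    rintro x (hx | hx | hx)
    · exact Subfield.subset_closure (Or.inl (le_gen hx))
    · rw [hx]
      exact Subfield.subset_closure (Or.inl (gen_mem (τ := ![T₁]) 0))
    · rw [Set.mem_singleton_iff.1 hx]
      exact Subfield.subset_closure (Or.inr rfl)
  · rw [Subfield.closure_le]
    rintro x (hx | hx)
    · have h1 : gen X ![T₁] ≤ Subfield.closure ((X : Set C) ∪ {T₁, q₁}) := by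
        unfold gen
        rw [Matrix.range_cons, Matrix.range_empty, Set.union_empty]
        apply Subfield.closure_mono
        rintro y (hy | hy)
        · exact Or.inl hy
        · rw [Set.mem_singleton_iff.1 hy]
          exact Or.inr (Or.inl rfl)
      exact h1 hx
    · rw [Set.mem_singleton_iff.1 hx]
      exact Subfield.subset_closure (Or.inr (Or.inr rfl))

/-- **The fields of the ultrapower**, for a small field `Fs` of constants and varying fields `Fv j`. -/
theorem exists_fieldsV {J : Type v} {U : Ultrafilter J} {F k C : Type u} [Field F] [CharZero F]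
    [Field k] [Algebra F k] [Field C] [Algebra k C] [Algebra F C] [IsScalarTower F k C]
    [IsAlgClosure k C] {S : Type w} [Field S] {π : (J → C) →+* S} (h : UP U π)
    {I : Type} {m : ℕ} {vv : J → I × Fin (m + 2) → F}
    {T q : k} (hT : Transcendental F T)
    {κ : Subfield C} (hκ : ∀ c : C, c ∈ κ ↔ IsAlgebraic F c)
    {Fs κs : Subfield C} (hFs : Fs ≤ (algebraMap F C).fieldRange)
    (hκs : ∀ c : C, c ∈ κs ↔ IsAlgebraic Fs c)
    (hq : IsAlgebraic (gen Fs ![algebraMap k C T]) (algebraMap k C q))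
    {Fv : J → Subfield C} (hFsv : ∀ j, Fs ≤ Fv j) (hFv : ∀ j, Fv j ≤ (algebraMap F C).fieldRange)
    (hvv : ∀ j i, algebraMap F C (vv j i) ∈ Fv j)
    (hwr : ∀ z ∈ h.fsub Fv,
      IsAlgebraic (gn (Fs.map (UP.cst π)) (xg π fun j i => algebraMap F C (vv j i))) z →
      z ∈ gn (acl (hi (κs.map (UP.cst π)) (xg π fun j i => algebraMap F C (vv j i))))
        (xg π fun j i => algebraMap F C (vv j i))) :
    ∃ k0 κ0 : Subfield S,
      κs.map (UP.cst π) ≤ κ0 ∧ κ0 ≤ h.gsub κ ∧ (∀ x : S, IsAlgebraic κ0 x → x ∈ κ0) ∧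
      (∀ x ∈ κ0, IsAlgebraic (Subfield.closure ((κs.map (UP.cst π) : Set S) ∪
        Set.range (xg π fun j i => algebraMap F C (vv j i)))) x) ∧
      (∀ x ∈ κ0, IsAlgebraic k0 x) ∧
      (∀ i, xg π (fun j i => algebraMap F C (vv j i)) i ∈ κ0) ∧
      UP.cst π (algebraMap k C T) ∈ k0 ∧ UP.cst π (algebraMap k C q) ∈ k0 ∧
      (∀ a ∈ Subfield.closure ((Fs : Set C) ∪ {algebraMap k C T, algebraMap k C q}),
        UP.cst π a ∈ k0) ∧
      (∀ i, xg π (fun j i => algebraMap F C (vv j i)) i ∈ k0) ∧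
      k0 ≤ Subfield.closure ((acl (hi (κs.map (UP.cst π))
        (xg π fun j i => algebraMap F C (vv j i))) : Set S) ∪
        ({UP.cst π (algebraMap k C T), UP.cst π (algebraMap k C q)} ∪
        Set.range (xg π fun j i => algebraMap F C (vv j i)))) ∧
      (∀ x ∈ k0, IsAlgebraic (Subfield.closure ((Subfield.closure ((Fs.map (UP.cst π) : Set S) ∪
        {UP.cst π (algebraMap k C T), UP.cst π (algebraMap k C q)}) : Set S) ∪
        Set.range (xg π fun j i => algebraMap F C (vv j i)))) x) ∧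
      IsAlgebraic (Subfield.closure ((κ0 : Set S) ∪ {UP.cst π (algebraMap k C T)}))
        (UP.cst π (algebraMap k C q)) ∧
      k0 ≤ h.fsub (fun j => Subfield.closure ((Fv j : Set C) ∪
        {algebraMap k C T, algebraMap k C q})) ∧
      (∀ x ∈ h.fsub (fun j => Subfield.closure ((Fv j : Set C) ∪
        {algebraMap k C T, algebraMap k C q})), IsAlgebraic k0 x → x ∈ k0) ∧
      k0 ≤ Subfield.closure ((κ0 : Set S) ∪
        {UP.cst π (algebraMap k C T), UP.cst π (algebraMap k C q)}) ∧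
      Subfield.closure ((κ0 : Set S) ∪
        {UP.cst π (algebraMap k C T), UP.cst π (algebraMap k C q)}) ≤
        h.gsub (Subfield.closure ((κ : Set C) ∪ {algebraMap k C T, algebraMap k C q})) ∧
      (∀ x ∈ h.gsub (Subfield.closure ((κ : Set C) ∪ {algebraMap k C T, algebraMap k C q})),
        IsAlgebraic (Subfield.closure ((κ0 : Set S) ∪
        {UP.cst π (algebraMap k C T), UP.cst π (algebraMap k C q)})) x →
        x ∈ Subfield.closure ((κ0 : Set S) ∪
        {UP.cst π (algebraMap k C T), UP.cst π (algebraMap k C q)})) := by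
  classical
  have hCcl : IsAlgClosed C := IsAlgClosure.isAlgClosed k
  have hC0 : CharZero C := charZero_of_injective_algebraMap (algebraMap F C).injective
  have hSa : IsAlgClosed S := h.isAlgClosed
  have hS0 : CharZero S := h.charZero
  let T₁ : C := algebraMap k C T
  let q₁ : C := algebraMap k C q
  let FC : Subfield C := (algebraMap F C).fieldRange
  set x' : I × Fin (m + 2) → S := xg π (fun j i => algebraMap F C (vv j i)) with hx'
  let L : Subfield S := h.fsub Fv ⊓ acl (gn (Fs.map (UP.cst π)) x')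
  have hmemL : ∀ y : S, y ∈ L ↔ y ∈ h.fsub Fv ∧ IsAlgebraic (gn (Fs.map (UP.cst π)) x') y :=
    fun y => ⟨fun hy => ⟨hy.1, mem_acl.1 hy.2⟩, fun hy => ⟨hy.1, mem_acl.2 hy.2⟩⟩
  let t' : S := UP.cst π T₁
  let q' : S := UP.cst π q₁
  let τ1 : Fin 1 → S := fun i => UP.cst π ((![T₁] : Fin 1 → C) i)
  have hτ1 : τ1 = ![t'] := by
    funext i
    fin_cases i
    rfl
  have hrτ1 : Set.range τ1 = {t'} := by
    rw [hτ1, Matrix.range_cons, Matrix.range_empty, Set.union_empty]
  have hFκ : FC ≤ κ := by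
    rintro _ ⟨c, rfl⟩
    exact (hκ _).2 (isAlgebraic_algebraMap c)
  have hκcl : ∀ x : C, IsAlgebraic κ x → x ∈ κ := by
    intro x hx
    have h0 : κ = (algebraicClosure F C).toSubfield := by
      ext y
      rw [hκ]
      exact mem_algebraicClosure_iff.symm
    rw [hκ]
    have h1 : IsAlgebraic (algebraicClosure F C) x := by
      rw [h0] at hx
      exact hx
    exact (isIntegral_trans (R := F) (A := algebraicClosure F C) _ h1.isIntegral).isAlgebraic
  have hTκ : AlgebraicIndependent κ ![T₁] := by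
    rw [algebraicIndependent_unique_type_iff]
    exact Pool.Agent.TD.kappa_transc_one hκ hT
  have hTF : ∀ j, AlgebraicIndependent (Fv j) ![T₁] := fun j =>
    algInd_mono ((hFv j).trans hFκ) hTκ
  have hqa : IsAlgebraic (gen FC ![T₁]) q₁ := isAlgebraic_mono (gen_mono_left hFs) hq
  have hqκ : IsAlgebraic (gen κ ![T₁]) q₁ := isAlgebraic_mono (gen_mono_left hFκ) hqa
  let κ' := h.gsub κ
  let Kst₁ := h.fsub fun j => gen (Fv j) ![T₁]
  let Kg₁ := h.gsub (gen κ ![T₁])
  let k₁ := gen L τ1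
  let k0 := Subfield.closure ((k₁ : Set S) ∪ {q'})
  have hLFC : L ≤ h.fsub Fv := inf_le_left
  have hxFC : ∀ q, x' q ∈ h.fsub Fv := fun q => ⟨_, fun j => hvv j q, rfl⟩
  have hxL : ∀ q, x' q ∈ L := fun q => (hmemL _).2 ⟨hxFC q,
    isAlgebraic_algebraMap (⟨_, mem_gn q⟩ : gn (Fs.map (UP.cst π)) x')⟩
  have hFL : ∀ x ∈ Fs, UP.cst π x ∈ L := fun x hx => (hmemL _).2
    ⟨h.const_mem_fsub fun j => hFsv j hx,
    isAlgebraic_algebraMap (⟨_, le_gn ⟨x, hx, rfl⟩⟩ : gn (Fs.map (UP.cst π)) x')⟩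
  have hLrel : ∀ x ∈ h.fsub Fv, IsAlgebraic L x → x ∈ L := fun x hx hx' =>
    (hmemL _).2 ⟨hx, alg_trans (fun y hy => ((hmemL y).1 hy).2) hx'⟩
  have hk₁k0 : k₁ ≤ k0 := fun x hx => Subfield.subset_closure (Or.inl hx)
  have hLk0 : L ≤ k0 := le_gen.trans hk₁k0
  have hk₁Kst₁ : k₁ ≤ Kst₁ := (gen_mono_left hLFC).trans h.gen_leV
  have hKsteq : h.fsub (fun j => Subfield.closure ((Fv j : Set C) ∪ {T₁, q₁})) =
      Subfield.closure ((Kst₁ : Set S) ∪ {q'}) := by
    have h1 : (fun j => Subfield.closure ((Fv j : Set C) ∪ {T₁, q₁})) =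
        fun j => Subfield.closure ((gen (Fv j) ![T₁] : Set C) ∪ {q₁}) :=
      funext fun j => closure_pair _ _ _
    rw [h1]
    exact h.fsub_adjoin (X := fun j => gen (Fv j) ![T₁]) (X₀ := gen Fs ![T₁])
      (fun j => gen_mono_left (hFsv j)) hq
  have hgk₁ : gen Fs ![T₁] ≤ k₁.comap (UP.cst π) := by
    conv_lhs => unfold gen
    rw [Subfield.closure_le, Set.union_subset_iff]
    refine ⟨fun x hx => le_gen (hFL x hx), ?_⟩
    rintro _ ⟨i, rfl⟩
    exact gen_mem (τ := τ1) i
  have hqk₁ : IsAlgebraic k₁ q' :=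
    Pool.Agent.HZ.alg_map (UP.cst π) (L := gen Fs ![T₁]) (L' := k₁) (fun x hx => hgk₁ hx) hq
  have hrel₁ : ∀ x ∈ Kst₁, IsAlgebraic k₁ x → x ∈ k₁ := by
    intro x hx hx'
    have h1 : x ∈ gen (h.fsub Fv) τ1 :=
      h.gen_relAlgClosedV hTF hx (isAlgebraic_mono (gen_mono_left hLFC) hx')
    exact gauss_n hLFC hLrel (h.algIndV hTF) h1 hx'
  -- the algebraic closure of `L`
  let κ0 : Subfield S := (algebraicClosure L S).toSubfield
  have hmemκ0 : ∀ x : S, x ∈ κ0 ↔ IsAlgebraic L x := fun x => mem_algebraicClosure_iff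
  have hκ0cl : ∀ x : S, IsAlgebraic κ0 x → x ∈ κ0 := by
    intro x hx
    rw [hmemκ0]
    exact alg_trans (fun y hy => (hmemκ0 y).1 hy) hx
  have hκ' : ∀ x : S, IsAlgebraic κ' x → x ∈ κ' := fun x hx => h.gsub_algClosed hκcl hx
  have hLκ' : L ≤ κ' := hLFC.trans (h.fsub_le_gsub fun j => (hFv j).trans hFκ)
  have hκ0κ' : κ0 ≤ κ' := fun x hx => hκ' x (isAlgebraic_mono hLκ' ((hmemκ0 x).mp hx))
  have hLκ0 : L ≤ κ0 := fun x hx => (hmemκ0 _).mpr (isAlgebraic_algebraMap (⟨x, hx⟩ : L))
  have hκGκ0 : κs.map (UP.cst π) ≤ κ0 := by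
    rintro _ ⟨x, hx, rfl⟩
    rw [hmemκ0]
    exact Pool.Agent.HZ.alg_map (UP.cst π) (L := Fs) (L' := L) hFL ((hκs x).1 hx)
  have hB0 : Subfield.closure ((κ0 : Set S) ∪ {t', q'}) =
      Subfield.closure ((gen κ0 τ1 : Set S) ∪ {q'}) := by
    apply le_antisymm
    · rw [Subfield.closure_le]
      rintro x (hx | hx | hx)
      · exact Subfield.subset_closure (Or.inl (le_gen hx))
      · rw [hx]
        exact Subfield.subset_closure (Or.inl (gen_mem (τ := τ1) 0))
      · rw [Set.mem_singleton_iff.1 hx]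
        exact Subfield.subset_closure (Or.inr rfl)
    · rw [Subfield.closure_le]
      rintro x (hx | hx)
      · have h1 : gen κ0 τ1 ≤ Subfield.closure ((κ0 : Set S) ∪ {t', q'}) := by
          unfold gen
          rw [hrτ1]
          apply Subfield.closure_mono
          rintro y (hy | hy)
          · exact Or.inl hy
          · rw [Set.mem_singleton_iff.1 hy]
            exact Or.inr (Or.inl rfl)
        exact h1 hx
      · rw [Set.mem_singleton_iff.1 hx]
        exact Subfield.subset_closure (Or.inr (Or.inr rfl))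
  have hKgC : Subfield.closure ((κ : Set C) ∪ {T₁, q₁}) =
      Subfield.closure ((gen κ ![T₁] : Set C) ∪ {q₁}) := closure_pair _ _ _
  have hKgeq : h.gsub (Subfield.closure ((κ : Set C) ∪ {T₁, q₁})) =
      Subfield.closure ((Kg₁ : Set S) ∪ {q'}) := by
    rw [hKgC]
    exact Pool.Agent.TD.gsub_adjoin h hqκ
  have hgenκ0 : gen κ0 τ1 ≤ Kg₁ := (gen_mono_left hκ0κ').trans h.gen_le
  have hrel'₁ : ∀ x ∈ Kg₁, IsAlgebraic (gen κ0 τ1) x → x ∈ gen κ0 τ1 := by
    intro x hx hx'
    have h1 : x ∈ gen κ' τ1 :=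
      h.gen_relAlgClosed hTκ hx (isAlgebraic_mono (gen_mono_left hκ0κ') hx')
    exact gauss_n hκ0κ' (fun y _ hy' => hκ0cl y hy') (h.algInd hTκ) h1 hx'
  have hqκ0 : IsAlgebraic (gen κ0 τ1) q' := isAlgebraic_mono (gen_mono_left hLκ0) hqk₁
  have hkk0 : ∀ a ∈ Subfield.closure ((Fs : Set C) ∪ {T₁, q₁}), UP.cst π a ∈ k0 := by
    intro a ha
    have h1 : Subfield.closure ((Fs : Set C) ∪ {T₁, q₁}) ≤ k0.comap (UP.cst π) := by
      rw [Subfield.closure_le]
      rintro x (hx | hx | hx)
      · exact hLk0 (hFL x hx)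
      · rw [hx]
        exact hk₁k0 (gen_mem (τ := τ1) 0)
      · rw [Set.mem_singleton_iff.1 hx]
        exact Subfield.subset_closure (Or.inr rfl)
    exact h1 ha
  have hksub : k0 ≤ Subfield.closure ((L : Set S) ∪ ({t', q'} ∪ Set.range x')) := by
    change Subfield.closure _ ≤ _
    rw [Subfield.closure_le]
    rintro x (hx | hx)
    · have h1 : k₁ ≤ Subfield.closure ((L : Set S) ∪ ({t', q'} ∪ Set.range x')) := by
        change gen L τ1 ≤ _
        conv_lhs => unfold gen
        rw [hrτ1, Subfield.closure_le]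
        rintro y (hy | hy)
        · exact Subfield.subset_closure (Or.inl hy)
        · exact Subfield.subset_closure (Or.inr (Or.inl (Or.inl (Set.mem_singleton_iff.1 hy))))
      exact h1 hx
    · exact Subfield.subset_closure (Or.inr (Or.inl (Or.inr hx)))
  refine ⟨k0, κ0, hκGκ0, hκ0κ', hκ0cl, ?_, fun x hx => isAlgebraic_mono hLk0 ((hmemκ0 x).1 hx),
    fun i => hLκ0 (hxL i), hkk0 T₁ (Subfield.subset_closure (Or.inr (Or.inl rfl))),
    hkk0 q₁ (Subfield.subset_closure (Or.inr (Or.inr rfl))), hkk0, fun i => hLk0 (hxL i), ?_, ?_,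
    ?_, ?_, ?_, ?_, ?_, ?_⟩
  · intro x hx
    refine alg_trans (A := L) (fun y hy => ?_) ((hmemκ0 x).1 hx)
    refine isAlgebraic_mono ?_ ((hmemL y).1 hy).2
    apply Subfield.closure_mono
    rintro _ (⟨c, hc, rfl⟩ | hy)
    · exact Or.inl ⟨c, (hκs c).2 (isAlgebraic_algebraMap (⟨c, hc⟩ : Fs)), rfl⟩
    · exact Or.inr hy
  · refine hksub.trans ?_
    rw [Subfield.closure_le]
    rintro x (hx | hx)
    · have h1 := hwr x ((hmemL x).1 hx).1 ((hmemL x).1 hx).2
      refine Subfield.closure_mono ?_ h1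
      rintro y (hy | hy)
      · exact Or.inl hy
      · exact Or.inr (Or.inr hy)
    · exact Subfield.subset_closure (Or.inr hx)
  · intro x hx
    have h1 : k0 ≤ acl (Subfield.closure ((Subfield.closure ((Fs.map (UP.cst π) : Set S) ∪
        {t', q'}) : Set S) ∪ Set.range x')) := by
      refine hksub.trans ?_
      rw [Subfield.closure_le]
      rintro y (hy | (hy | hy) | hy)
      · rw [SetLike.mem_coe, mem_acl]
        refine isAlgebraic_mono ?_ ((hmemL y).1 hy).2
        apply Subfield.closure_mono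
        rintro z (hz | hz)
        · exact Or.inl (Subfield.subset_closure (Or.inl hz))
        · exact Or.inr hz
      · rw [hy]
        exact le_acl (Subfield.subset_closure (Or.inl (Subfield.subset_closure
          (Or.inr (Or.inl rfl)))))
      · rw [Set.mem_singleton_iff.1 hy]
        exact le_acl (Subfield.subset_closure (Or.inl (Subfield.subset_closure
          (Or.inr (Or.inr rfl)))))
      · exact le_acl (Subfield.subset_closure (Or.inr hy))
    exact mem_acl.1 (h1 hx)
  · refine isAlgebraic_mono ?_ hqκ0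
    unfold gen
    rw [hrτ1]
  · rw [hKsteq]
    exact Subfield.closure_mono (Set.union_subset_union_left _ hk₁Kst₁)
  · intro x hx hx'
    rw [hKsteq] at hx
    exact Pool.Agent.TD.relClosed_adjoin hk₁Kst₁ hrel₁ hqk₁ x hx hx'
  · rw [hB0]
    exact Subfield.closure_mono (Set.union_subset_union_left _ (gen_mono_left hLκ0))
  · rw [hB0, hKgeq]
    exact Subfield.closure_mono (Set.union_subset_union_left _ hgenκ0)
  · rw [hB0, hKgeq]
    exact Pool.Agent.TD.relClosed_adjoin hgenκ0 hrel'₁ hqκ0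

end Pool.Agent.UT
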