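import Pool.Agent.Helper10.SLG.Mod
import Pool.Agent.Helper10.UT.KeyV

/-!
# Project UT: level structures attached to sections over small fields
-/

universe u v

namespace Pool.Agent.UT

open Polynomial Pool.Agent.Helper37.UL Pool.Agent.Helper91.Sect Pool.Agent.SLS UL RR Pool.Agent.SLG

/-- **Level structures attached to sections over a small field.** -/
theorem lev_of_modV {k₀ F k C : Type u} [Field k₀] [Field F] [Field k] [Algebra F k] [Field C]
    [Algebra k C] [CharZero C] (ι : k₀ →+* k) {Kb : Subfield k} {d p ν : ℕ} (hp : 2 ≤ p)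
    (hν1 : 1 ≤ ν) (hpd : p ∣ d) (hd : 3 ≤ d) {f : Fin (d + 1) → k}
    (h : OPG.Mod (F := F) (C := C) ι Kb (PSec d p ν) f) :
    ∃ (θ : Fin d → C) (z : Fin d → Fin d → C) (α : C),
      Lev (Kb.map (algebraMap k C)) p
        (fun i : Fin (d + 1) => algebraMap k C (f (Fin.last d)) ^ (ν - 1) * algebraMap k C (f i))
        θ z α ∧
      ∀ V : ValuationSubring C, (∀ c : F, algebraMap k C (algebraMap F k c) ∈ V) →
        GoodAt V (fun i : Fin (d + 1) => algebraMap k C (f i)) θ →
        ∀ σ : C ≃+* C, Inert (Kb.map (algebraMap k C)) V σ →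
          ∀ i j, i ≠ j → σ (z i j) = z i j := by
  obtain ⟨k₁, k', _, _, _, _, T', ψ, ι', f', hk₁, hfin, hKb, hconst, hι, hf, hdeg, hsep, hsec⟩ := h
  obtain ⟨θ, z, α, h3, h4⟩ := exists_lev hk₁ T' hfin hp hν1 hpd hd hsep hdeg hsec
    (AlgebraicClosure k')
  have hco : ∀ i : Fin (d + 1), (spec f').coeff i = f' i := fun i => coeff_spec f' i
  have hlast : (spec f').coeff d = f' (Fin.last d) := coeff_spec f' (Fin.last d)
  simp only [hco, hlast] at h3 h4
  have hinj : Function.Injective ψ := ψ.injective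
  refine ⟨fun i => ψ (θ i), fun i j => ψ (z i j), ψ α, ?_, ?_⟩
  · have h5 := h3.map ψ (k' := Kb.map (algebraMap k C)) (by
      rintro _ ⟨x, rfl⟩
      obtain ⟨y, hy1, hy⟩ := GS.kb_mem' ψ hKb x
      exact ⟨y, hy1, hy⟩)
    simp only [hf]
    simp only [map_mul, map_pow] at h5
    exact h5
  · intro V hFV hgood σ hσ i j hij
    have hσk : ∀ a : k', σ (ψ (algebraMap k' (AlgebraicClosure k') a)) =
        ψ (algebraMap k' (AlgebraicClosure k') a) := by
      intro a
      obtain ⟨b, hb1, hb⟩ := GS.kb_mem' ψ hKb a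
      rw [← hb]
      exact hσ.fix _ ⟨b, hb1, rfl⟩
    have hKr : (algebraMap (Kb.map (algebraMap k C)) C).fieldRange = Kb.map (algebraMap k C) := by
      ext y
      constructor
      · rintro ⟨y, rfl⟩
        exact y.2
      · exact fun hy => ⟨⟨y, hy⟩, rfl⟩
    have hσ2 : Inert (algebraMap (Kb.map (algebraMap k C)) C).fieldRange V σ := by
      rw [hKr]
      exact hσ
    obtain ⟨σ', hσ'⟩ := GS.exists_restr ψ (σ : C →+* C) hσk
    have hσ'' : ∀ y, ψ (σ' y) = σ (ψ y) := hσ'
    by_cases hP : V.comap ψ = ⊤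
    · exact GS.inert_trivial ψ hσ2 hσ'' hP _
    have h5 := h4 (V.comap ψ) hP (fun c => by
      change ψ _ ∈ V
      obtain ⟨b, hb⟩ := hconst c
      rw [← hb]
      exact hFV b) ⟨fun i => by
        change ψ _ ∈ V
        rw [← hf]
        exact hgood.coef i, by
        apply val_comap_one
        rw [← hf]
        exact hgood.lead, fun i => hgood.root i, fun i j hij => by
        apply val_comap_one
        rw [map_sub]
        exact hgood.sep i j hij⟩ (σ' : AlgebraicClosure k' ≃+* AlgebraicClosure k')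
      (GS.inert_restr ψ hσ2 hσ'') i j hij
    have h6 : ψ (σ' (z i j)) = ψ (z i j) := congrArg ψ h5
    rw [hσ''] at h6
    exact h6

end Pool.Agent.UT
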