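import Pool.Agent.Helper37.UL.Star2
import Pool.Agent.Helper10.UT.G2

/-!
# Project UT: the commutator argument
-/

universe u

namespace Pool.Agent.UT

open Polynomial Pool.Agent.Helper37.UL Pool.Agent.OPN

variable {S : Type u} [Field S]

/-- The commutator argument. -/
theorem group_trickK [IsAlgClosed S] [CharZero S] {k0 Kst Kg : Subfield S} (h0 : k0 ≤ Kst)
    (hg : Kst ≤ Kg) {p d : ℕ} (hp : p ≠ 0) (hd : 3 ≤ d) {a : Fin (d + 1) → S} {θ : Fin d → S}
    {z : Fin d → Fin d → S} {α : S} (hlev : Lev Kst p a θ z α) (hμ : ∀ ζ : S, ζ ^ p = 1 → ζ ∈ k0)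
    (hθ : ∀ i, IsAlgebraic k0 (θ i)) (hα : IsAlgebraic k0 α)
    (hz : ∀ i j, i ≠ j → ∃ e g : S, IsAlgebraic k0 e ∧
      g ∈ Subfield.closure ((Kg : Set S) ∪ Set.range θ) ∧ z i j = e * g)
    (h2 : ∀ i j i' j', i ≠ j → i' ≠ j' → ∃ σ : S ≃+* S, (∀ y ∈ Kg, σ y = y) ∧
      σ (θ i) = θ i' ∧ σ (θ j) = θ j')
    (Int : (S ≃+* S) → Prop) (hI1 : ∀ T, Int T → ∀ y ∈ Kst, T y = y)
    (hI2 : ∀ T, Int T → ∀ y ∈ Kg, T y ∈ Kg)
    (hI3 : ∀ β z : S, IsAlgebraic Kst β → IsAlgebraic Kst z → (∀ T, Int T → T β = β → T z = z) →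
      z ∈ Subfield.closure ((Kst : Set S) ∪ {β})) :
    ∃ β : S, IsAlgebraic k0 β ∧
      (∀ σ : S ≃+* S, (∀ y ∈ k0, σ y = y) → ∃ P : k0[X], σ β = aeval β P) ∧
      (∀ i, ∃ P : k0[X], θ i = aeval β P) ∧ (∃ P : k0[X], α = aeval β P) ∧
      ∀ i j, i ≠ j → z i j ∈ Subfield.closure ((Kst : Set S) ∪ {β}) := by
  classical
  choose! e g he hg' hzeg using hz
  -- the family of algebraic elements
  let x : Fin d ⊕ (Unit ⊕ (Fin d × Fin d)) → S := Sum.elim θ (Sum.elim (fun _ => α)
    fun ij => if ij.1 = ij.2 then 0 else e ij.1 ij.2)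
  obtain ⟨β, hβ, hβx, hβn⟩ := exists_normal_prim (B := k0) x (by
    rintro (i | (_ | ⟨i, j⟩))
    · exact hθ i
    · exact hα
    · by_cases hij : i = j
      · simp only [x, Sum.elim_inr, if_pos hij]
        exact isAlgebraic_zero
      · simp only [x, Sum.elim_inr, if_neg hij]
        exact he i j hij)
  have hβθ : ∀ i, ∃ P : k0[X], θ i = aeval β P := fun i => hβx (Sum.inl i)
  have hβe : ∀ i j, i ≠ j → ∃ P : k0[X], e i j = aeval β P := by
    intro i j hij
    have := hβx (Sum.inr (Sum.inr (i, j)))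
    simpa only [x, Sum.elim_inr, if_neg hij] using this
  refine ⟨β, hβ, hβn, hβθ, hβx (Sum.inr (Sum.inl ())), fun i j hij => ?_⟩
  have hzalg : IsAlgebraic Kst (z i j) := by
    obtain ⟨φ, hφ, hφ'⟩ := hlev.pow
    apply IsAlgebraic.of_pow (Nat.pos_of_ne_zero hp)
    rw [hφ' i j hij]
    have h3 : ∑ r : Fin d, ∑ s : Fin d, φ r s * (θ i ^ (r : ℕ) * θ j ^ (s : ℕ)) ∈ acl Kst :=
      Subfield.sum_mem _ fun r _ => Subfield.sum_mem _ fun s _ =>
        Subfield.mul_mem _ (le_acl (hφ r s)) (Subfield.mul_mem _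
          (Subfield.pow_mem _ (mem_acl.2 (isAlgebraic_mono h0 (hθ i))) _)
          (Subfield.pow_mem _ (mem_acl.2 (isAlgebraic_mono h0 (hθ j))) _))
    exact mem_acl.1 h3
  apply hI3 β _ (isAlgebraic_mono h0 hβ) hzalg
  intro T hT hTβ
  have hTk0 : ∀ y ∈ k0, T y = y := fun y hy => hI1 T hT y (h0 hy)
  have hTP : ∀ P : k0[X], T (aeval β P) = aeval β P := fun P => by
    rw [map_aeval hTk0, hTβ]
  -- `z i j` is in the field generated by `Kg` and `β`
  have hzmem : ∀ i j, i ≠ j → z i j ∈ Subfield.closure ((Kg : Set S) ∪ {β}) := by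
    intro i j hij
    have hβm : β ∈ Subfield.closure ((Kg : Set S) ∪ {β}) := Subfield.subset_closure (Or.inr rfl)
    have hKm : k0 ≤ Subfield.closure ((Kg : Set S) ∪ {β}) := fun y hy =>
      Subfield.subset_closure (Or.inl (hg (h0 hy)))
    rw [hzeg i j hij]
    apply Subfield.mul_mem
    · obtain ⟨P, hP⟩ := hβe i j hij
      rw [hP]
      exact aeval_mem hKm hβm P
    · have h3 : Subfield.closure ((Kg : Set S) ∪ Set.range θ) ≤
          Subfield.closure ((Kg : Set S) ∪ {β}) := by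
        rw [Subfield.closure_le]
        rintro y (hy | ⟨l, rfl⟩)
        · exact Subfield.subset_closure (Or.inl hy)
        · obtain ⟨P, hP⟩ := hβθ l
          rw [hP]
          exact aeval_mem hKm hβm P
      exact h3 (hg' i j hij)
  -- commutation
  have hcomm : ∀ σ : S ≃+* S, (∀ y ∈ Kg, σ y = y) → ∀ i j, i ≠ j →
      σ (T (z i j)) = T (σ (z i j)) := by
    intro σ hσ i j hij
    have h3 : Subfield.closure ((Kg : Set S) ∪ {β}) ≤
        RingHom.eqLocusField ((σ : S →+* S).comp (T : S →+* S))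
          ((T : S →+* S).comp (σ : S →+* S)) := by
      rw [Subfield.closure_le]
      rintro y (hy | hy)
      · change σ (T y) = T (σ y)
        rw [hσ y hy, hσ _ (hI2 T hT y hy)]
      · rw [Set.mem_singleton_iff] at hy
        subst hy
        change σ (T y) = T (σ y)
        obtain ⟨P, hP⟩ := hβn σ (fun y hy => hσ y (hg (h0 hy)))
        rw [hTβ, hP, hTP]
    exact h3 (hzmem i j hij)
  -- the roots of unity of `T`
  obtain ⟨ρT, ζ, hE⟩ := hlev.equi T (hI1 T hT)
  have hρT : ∀ i, ρT i = i := by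
    intro i
    apply hlev.inj
    rw [← hE.root]
    obtain ⟨P, hP⟩ := hβθ i
    rw [hP, hTP]
  have hTz : ∀ i j, i ≠ j → T (z i j) = ζ i j * z i j := by
    intro i j hij
    have := hE.act i j hij
    rwa [hρT, hρT] at this
  have hζ0 : ∀ i j, i ≠ j → ζ i j ≠ 0 := by
    intro i j hij h1
    have := hE.pow i j hij
    rw [h1, zero_pow hp] at this
    exact zero_ne_one this
  have hζk : ∀ i j, i ≠ j → ζ i j ∈ k0 := fun i j hij => hμ _ (hE.pow i j hij)
  have hconst : ∀ i j i' j', i ≠ j → i' ≠ j' → ζ i j = ζ i' j' := by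
    intro i j i' j' hij hij'
    obtain ⟨σ, hσ, hσi, hσj⟩ := h2 i j i' j' hij hij'
    obtain ⟨ρ, ζ', hE'⟩ := hlev.equi σ (fun y hy => hσ y (hg hy))
    have hρi : ρ i = i' := hlev.inj (by rw [← hE'.root, hσi])
    have hρj : ρ j = j' := hlev.inj (by rw [← hE'.root, hσj])
    have h3 := hcomm σ hσ i j hij
    have h4 := hE'.act i j hij
    rw [hρi, hρj] at h4
    rw [hTz i j hij, map_mul, hσ _ (hg (h0 (hζk i j hij))), h4, map_mul, hTz i' j' hij',
      hTk0 _ (hμ _ (hE'.pow i j hij))] at h3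
    have h5 : ζ' i j ≠ 0 := by
      intro h1
      have := hE'.pow i j hij
      rw [h1, zero_pow hp] at this
      exact zero_ne_one this
    have h6 := hlev.ne i' j' hij'
    have h7 : (ζ i j - ζ i' j') * (ζ' i j * z i' j') = 0 := by
      rw [sub_mul]
      rw [sub_eq_zero]
      rw [h3]
      ring
    rcases mul_eq_zero.mp h7 with h8 | h8
    · exact sub_eq_zero.mp h8
    · exact absurd h8 (mul_ne_zero h5 h6)
  have hone : ∀ i j, i ≠ j → ζ i j = 1 := by
    intro i j hij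
    obtain ⟨l, hl⟩ : ∃ l : Fin d, l ≠ i ∧ l ≠ j := by
      by_contra hcon
      push Not at hcon
      have h3 : (Finset.univ : Finset (Fin d)) ⊆ {i, j} := by
        intro l _
        rw [Finset.mem_insert, Finset.mem_singleton]
        by_cases hl : l = i
        · exact Or.inl hl
        · exact Or.inr (hcon l hl)
      have h4 := Finset.card_le_card h3
      have h5 := Finset.card_le_two (a := i) (b := j)
      rw [Finset.card_fin] at h4
      omega
    have h3 := hE.coc i j l hij hl.2.symm hl.1.symm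
    rw [hconst j l i j hl.2.symm hij, hconst i l i j hl.1.symm hij] at h3
    have h4 : ζ i j * (ζ i j - 1) = 0 := by
      rw [mul_sub, h3, mul_one, sub_self]
    rcases mul_eq_zero.mp h4 with h5 | h5
    · exact absurd h5 (hζ0 i j hij)
    · exact sub_eq_zero.mp h5
  rw [hTz i j hij, hone i j hij, one_mul]

end Pool.Agent.UT
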