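import Pool.Agent.Helper10.SLG.Key
import Pool.Agent.Helper10.UT.NF
import Pool.Agent.Helper10.UT.Mod

/-!
# Project UT: the key theorem for generic parameters over varying fields
-/

universe u v w

namespace Pool.Agent.UT

open Polynomial IntermediateField Pool.Agent.Helper37.UL Pool.Agent.Helper91.Sect Pool.Agent.HP UL RR
open Pool.Agent.SLS Pool.Agent.OPN Pool.Agent.OPG Pool.Agent.SLG

/-- **The key theorem for generic parameters over varying fields.** -/
theorem key_V (k₀ : Type u) [Field k₀] {d p ν : ℕ} (hd : 3 ≤ d) (hp : 2 ≤ p) (hν1 : 1 ≤ ν)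
    (hν : ¬ p ∣ ν) (hpd : p ∣ d) :
    KeyV k₀ (I := Fin (d + 1)) (fun k' [Field k'] ι f => PSec d p ν k' ι f) := by
  classical
  intro J F k C _ _ _ _ _ _ _ _ _ ι T q hT htop κ hκ Fs κs hκs Fv₀ hFsv₀ hFv₀ hFs hqs hks m w hs hw0
    hw1 Uf S _ π h v₀ hv₀ hx₀ hWR₀ Kb _ _ _ _ hKle hP
  have hk0 : CharZero k := charZero_of_injective_algebraMap (algebraMap F k).injective
  have hCcl : IsAlgClosed C := IsAlgClosure.isAlgClosed k
  have hC0 : CharZero C := charZero_of_injective_algebraMap (algebraMap k C).injective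
  have hp0 : 0 < p := by omega
  obtain ⟨T', hT'⟩ : ∃ T', T' = algebraMap k C T := ⟨_, rfl⟩
  obtain ⟨q', hq'⟩ : ∃ q', q' = algebraMap k C q := ⟨_, rfl⟩
  rw [← hT', ← hq'] at hks hs
  rw [← hT', ← hq'] at hqs
  -- transcendence
  have hTκ : AlgebraicIndependent κ ![algebraMap k C T] := by
    rw [algebraicIndependent_unique_type_iff]
    exact Pool.Agent.TD.kappa_transc_one hκ hT
  have hTκ' : Transcendental κ T' := by
    rw [hT']
    exact algebraicIndependent_iff_transcendental.1 hTκ
  have hFCκ : (algebraMap F C).fieldRange ≤ κ := by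
    rintro _ ⟨c, rfl⟩
    exact (hκ _).2 (isAlgebraic_algebraMap c)
  have hFsκ : Fs ≤ κ := hFs.trans hFCκ
  -- the small fields
  let iA : Algebra Fs (Ks Fs T' q') := (Subfield.inclusion (le_Ks Fs T' q')).toAlgebra
  have iT : IsScalarTower Fs (Ks Fs T' q') C := IsScalarTower.of_algebraMap_eq fun _ => rfl
  let Ts : Ks Fs T' q' := ⟨T', T_mem Fs T' q'⟩
  let qs : Ks Fs T' q' := ⟨q', q_mem Fs T' q'⟩
  have hFs0 : CharZero Fs := (algebraMap Fs C).charZero
  have hTs : Transcendental Fs Ts := by
    intro h0
    have h1 : IsAlgebraic Fs T' := h0.algebraMap (A := C)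
    exact hTκ' (isAlgebraic_mono hFsκ h1)
  have hmapTs : (adjoin Fs {Ts}).toSubfield.map (algebraMap (Ks Fs T' q') C) = gen Fs ![T'] := by
    rw [adjoin_toSubfield, RingHom.map_field_closure]
    unfold gen
    congr 1
    rw [Set.image_union, Set.image_singleton, Matrix.range_cons, Matrix.range_empty, Set.union_empty]
    congr 1
    ext x
    constructor
    · rintro ⟨_, ⟨y, rfl⟩, rfl⟩
      exact y.2
    · intro hx
      exact ⟨_, ⟨⟨x, hx⟩, rfl⟩, rfl⟩
  have hqsa : IsAlgebraic (adjoin Fs {Ts}) qs := by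
    obtain ⟨Q, hQ0, hQ⟩ := hqs
    have hmem : ∀ y ∈ gen Fs ![T'], ∃ y' : adjoin Fs {Ts}, algebraMap (Ks Fs T' q') C
        (y' : Ks Fs T' q') = y := by
      intro y hy
      rw [← hmapTs] at hy
      obtain ⟨y', hy', rfl⟩ := hy
      exact ⟨⟨y', hy'⟩, rfl⟩
    choose! g hg using hmem
    let φ : gen Fs ![T'] →+* adjoin Fs {Ts} :=
      { toFun := fun y => g y
        map_one' := by
          apply Subtype.ext
          apply (algebraMap (Ks Fs T' q') C).injective
          rw [hg _ (Subtype.property _)]
          rfl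
        map_mul' := fun a b => by
          apply Subtype.ext
          apply (algebraMap (Ks Fs T' q') C).injective
          rw [hg _ (Subtype.property _)]
          change (a : C) * b = algebraMap (Ks Fs T' q') C ((g a : Ks Fs T' q') * (g b : Ks Fs T' q'))
          rw [map_mul, hg _ a.2, hg _ b.2]
        map_zero' := by
          apply Subtype.ext
          apply (algebraMap (Ks Fs T' q') C).injective
          rw [hg _ (Subtype.property _)]
          rfl
        map_add' := fun a b => by
          apply Subtype.ext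
          apply (algebraMap (Ks Fs T' q') C).injective
          rw [hg _ (Subtype.property _)]
          change (a : C) + b = algebraMap (Ks Fs T' q') C ((g a : Ks Fs T' q') + (g b : Ks Fs T' q'))
          rw [map_add, hg _ a.2, hg _ b.2] }
    refine ⟨Q.map φ, (Polynomial.map_ne_zero_iff φ.injective).2 hQ0, ?_⟩
    apply (algebraMap (Ks Fs T' q') C).injective
    rw [map_zero, aeval_def, eval₂_map, hom_eval₂]
    rw [aeval_def] at hQ
    rw [← hQ]
    congr 1
    refine RingHom.ext fun y => ?_
    exact hg _ y.2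
  have htops : adjoin Fs {Ts, qs} = ⊤ := by
    have h1 : (adjoin Fs {Ts, qs}).toSubfield.map (algebraMap (Ks Fs T' q') C) = Ks Fs T' q' := by
      rw [adjoin_toSubfield, RingHom.map_field_closure]
      congr 1
      rw [Set.image_union, Set.image_pair]
      congr 1
      ext x
      constructor
      · rintro ⟨_, ⟨y, rfl⟩, rfl⟩
        exact y.2
      · intro hx
        exact ⟨_, ⟨⟨x, hx⟩, rfl⟩, rfl⟩
    rw [eq_top_iff]
    intro x _
    have h2 : (x : C) ∈ (adjoin Fs {Ts, qs}).toSubfield.map (algebraMap (Ks Fs T' q') C) := by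
      rw [h1]
      exact x.2
    obtain ⟨y, hy, hyx⟩ := h2
    have h3 : y = x := Subtype.ext hyx
    rw [← h3]
    exact hy
  have hwmem : ∀ l, algebraMap k C (ι (w l)) ∈ Ks Fs T' q' := fun l => hks (w l)
  let ws : Fin (m + 2) → Ks Fs T' q' := fun l => ⟨algebraMap k C (ι (w l)), hwmem l⟩
  have hws0 : ws 0 ≠ 0 := by
    intro h0
    have h1 : algebraMap k C (ι (w 0)) = 0 := congrArg Subtype.val h0
    rw [← RingHom.comp_apply] at h1
    exact hw0 ((map_eq_zero _).1 h1)
  obtain ⟨D, B, M, Ψ, Δ, -, hΨ, hB⟩ := exists_dataG (C := C) hTs hqsa htops (m := m + 1) (w := ws)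
    hws0 d p hp0 hd
  obtain ⟨xx, hxx⟩ : ∃ xx : J → Fin (d + 1) × Fin (m + 2) → C,
    xx = fun j i => algebraMap F C (v₀ j i) := ⟨_, rfl⟩
  -- almost all the parameters are good
  have hgood := ev_aeval_ne h hx₀ hΨ
  -- all the parameters are good, without loss of generality
  obtain ⟨j₀, hj₀⟩ := hgood.exists
  let g : J → J := fun j =>
    if MvPolynomial.aeval (fun i => algebraMap F C (v₀ j i)) Ψ ≠ 0 then j else j₀
  let vv : J → Fin (d + 1) × Fin (m + 2) → F := fun j => v₀ (g j)
  let Fv : J → Subfield C := fun j => Fv₀ (g j)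
  have hFsv : ∀ j, Fs ≤ Fv j := fun j => hFsv₀ (g j)
  have hFv : ∀ j, Fv j ≤ (algebraMap F C).fieldRange := fun j => hFv₀ (g j)
  have hvFv : ∀ j i, algebraMap F C (vv j i) ∈ Fv j := fun j i => hv₀ (g j) i
  have hvv : ∀ j, MvPolynomial.aeval (fun i => algebraMap F C (vv j i)) Ψ ≠ 0 := by
    intro j
    simp only [vv, g]
    split_ifs with h1
    · exact h1
    · exact hj₀
  have hgj : ∀ᶠ j in (Uf : Filter J), g j = j := by
    filter_upwards [hgood] with j hj
    simp only [g]
    rw [if_pos hj]
  have hev : ∀ᶠ j in (Uf : Filter J), vv j = v₀ j := by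
    filter_upwards [hgj] with j hj
    simp only [vv]
    rw [hj]
  have hFvle : h.fsub Fv ≤ h.fsub Fv₀ := by
    rintro _ ⟨f, hf, rfl⟩
    rw [h.coe_mem_fsub]
    filter_upwards [hgj] with j hj
    have h1 := hf j
    simp only [Fv] at h1
    rw [hj] at h1
    exact h1
  have hxg : xg π (fun j i => algebraMap F C (vv j i)) =
      xg π (fun j i => algebraMap F C (v₀ j i)) := by
    funext i
    refine (h.eq_iff _ _).mpr ?_
    filter_upwards [hev] with j hj
    rw [hj]
  -- level structures
  have hA : ∀ j : J, ∃ (θ : Fin d → C) (z : Fin d → Fin d → C) (α : C),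
      Lev ((Kb (g j)).map (algebraMap k C)) p
        (fun i : Fin (d + 1) => algebraMap k C (PL.sysW (ι ∘ w) (vv j) (Fin.last d)) ^ (ν - 1) *
          algebraMap k C (PL.sysW (ι ∘ w) (vv j) i)) θ z α ∧
      ∀ V : ValuationSubring C, (∀ c : F, algebraMap k C (algebraMap F k c) ∈ V) →
        GoodAt V (fun i : Fin (d + 1) => algebraMap k C (PL.sysW (ι ∘ w) (vv j) i)) θ →
        ∀ σ : C ≃+* C, Inert ((Kb (g j)).map (algebraMap k C)) V σ →
          ∀ i j, i ≠ j → σ (z i j) = z i j := fun j =>
    lev_of_modV ι hp hν1 hpd hd (hP (g j))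
  choose θ z α hlev hin using hA
  -- values
  have hmap : ∀ c : F, algebraMap k C (algebraMap F k c) = algebraMap F C c := fun c =>
    (IsScalarTower.algebraMap_apply F k C c).symm
  have hsys : ∀ j i, algebraMap k C (PL.sysW (ι ∘ w) (vv j) i) =
      ∑ e : Fin (m + 2), algebraMap F C (vv j (i, e)) * algebraMap k C (ι (w e)) := by
    intro j i
    unfold PL.sysW
    rw [map_sum]
    refine Finset.sum_congr rfl fun e _ => ?_
    rw [map_mul, hmap]
    rfl
  simp only [hsys] at hlev hin
  have hle : (algebraMap k C).fieldRange ≤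
      Subfield.closure ((gen (algebraMap F C).fieldRange ![T'] : Set C) ∪ {q'}) := by
    rintro _ ⟨x, rfl⟩
    have h1 : (IntermediateField.adjoin F {T, q} : IntermediateField F k).toSubfield ≤
        (Subfield.closure ((gen (algebraMap F C).fieldRange ![T'] : Set C) ∪
        {q'})).comap (algebraMap k C) := by
      rw [IntermediateField.adjoin_toSubfield, Subfield.closure_le]
      rintro x (⟨y, rfl⟩ | hx)
      · exact Subfield.subset_closure (Or.inl (le_gen ⟨y, IsScalarTower.algebraMap_apply F k C y⟩))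
      · rcases hx with hx | hx
        · refine Subfield.subset_closure (Or.inl ?_)
          rw [hx, ← hT']
          exact gen_mem (τ := ![T']) 0
        · rw [Set.mem_singleton_iff.mp hx]
          exact Subfield.subset_closure (Or.inr hq'.symm)
    rw [htop] at h1
    exact h1 (Subfield.mem_top x)
  have hκcl : ∀ x : C, IsAlgebraic κ x → x ∈ κ := by
    intro x hx
    have h0 : κ = (algebraicClosure F C).toSubfield := by
      ext y
      rw [hκ]
      exact mem_algebraicClosure_iff.symm
    rw [hκ]
    have h1 : IsAlgebraic (algebraicClosure F C) x := by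
      rw [h0] at hx
      exact hx
    exact (isIntegral_trans (R := F) (A := algebraicClosure F C) _ h1.isIntegral).isAlgebraic
  -- `C` is algebraic over `F(T)`
  have halgC : ∀ x : C, IsAlgebraic (gen (algebraMap F C).fieldRange ![T']) x := by
    intro x
    set g := gen (algebraMap F C).fieldRange ![T'] with hg
    have hqg : IsAlgebraic g q' := isAlgebraic_mono (TH.gen_mono_left hFs) hqs
    let A : Subfield C := (algebraicClosure g C).toSubfield
    have hA : ∀ y, y ∈ A ↔ IsAlgebraic g y := fun y => mem_algebraicClosure_iff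
    have hcA : Subfield.closure ((g : Set C) ∪ {q'}) ≤ A := by
      rw [Subfield.closure_le, Set.union_subset_iff]
      refine ⟨fun y hy => (hA y).2 (isAlgebraic_algebraMap (⟨y, hy⟩ : g)), ?_⟩
      intro y hy
      rw [Set.mem_singleton_iff.mp hy]
      exact (hA _).2 hqg
    have h1 : IsAlgebraic k x := (IsAlgClosure.isAlgebraic (R := k) (K := C)).isAlgebraic x
    have h2 : IsAlgebraic (algebraMap k C).fieldRange x := TD.isAlgebraic_range_iff.2 h1
    have h3 : IsAlgebraic A x := isAlgebraic_mono (hle.trans hcA) h2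
    have h4 : IsAlgebraic (algebraicClosure g C) x := h3
    exact (isIntegral_trans (R := g) (A := algebraicClosure g C) _ h4.isIntegral).isAlgebraic
  have hgκ : gen κ ![T'] = (IntermediateField.adjoin κ {T'}).toSubfield := by
    rw [IntermediateField.adjoin_toSubfield]
    unfold gen
    congr 1
    rw [Matrix.range_cons, Matrix.range_empty, Set.union_empty]
    congr 1
    ext x
    constructor
    · intro hx
      exact ⟨⟨x, hx⟩, rfl⟩
    · rintro ⟨y, rfl⟩
      exact y.2
  have halgκ : ∀ x : C, IsAlgebraic (IntermediateField.adjoin κ {T'}) x := by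
    intro x
    have h1 : IsAlgebraic (gen κ ![T']) x := isAlgebraic_mono (TH.gen_mono_left hFCκ) (halgC x)
    rw [hgκ] at h1
    exact h1
  have hcl : Subfield.closure ((κ : Set C) ∪ {T'}) = gen κ ![T'] := by
    unfold gen
    rw [Matrix.range_cons, Matrix.range_empty, Set.union_empty]
  have hkadj : ∀ x ∈ (algebraMap k C).fieldRange, x ∈ IntermediateField.adjoin κ {T', q'} := by
    have h1 : Subfield.closure ((gen (algebraMap F C).fieldRange ![T'] : Set C) ∪ {q'}) ≤
        (IntermediateField.adjoin κ {T', q'}).toSubfield := by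
      rw [Subfield.closure_le, Set.union_subset_iff]
      refine ⟨?_, ?_⟩
      · intro x hx
        have h2 : gen (algebraMap F C).fieldRange ![T'] ≤
            (IntermediateField.adjoin κ {T', q'}).toSubfield := by
          unfold gen
          rw [Subfield.closure_le, Set.union_subset_iff]
          refine ⟨fun y hy => (IntermediateField.adjoin κ {T', q'}).algebraMap_mem ⟨y, hFCκ hy⟩, ?_⟩
          rintro _ ⟨i, rfl⟩
          fin_cases i
          exact IntermediateField.subset_adjoin κ _ (Or.inl rfl)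
        exact h2 hx
      · intro x hx
        rw [Set.mem_singleton_iff.mp hx]
        exact IntermediateField.subset_adjoin κ _ (Or.inr rfl)
    exact fun x hx => h1 (hle hx)
  have hvκ : ∀ j i, algebraMap F C (vv j i) ∈ κ := fun j i => hFCκ ⟨_, rfl⟩
  have hBj := fun j => hB hκcl (fun c => hFsκ c.2) hTκ' halgκ (hvκ j) (hvv j)
  have haev : ∀ (j : J) (Q : MvPolynomial (Fin (d + 1) × Fin (m + 2)) Fs),
      MvPolynomial.eval (fun x => algebraMap F C (vv j x)) (MvPolynomial.map (algebraMap Fs C) Q) =
        MvPolynomial.aeval (fun x => algebraMap F C (vv j x)) Q := by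
    intro j Q
    rw [MvPolynomial.eval_map]
    rfl
  have hle' : ∀ j, (Kb (g j)).map (algebraMap k C) ≤
      Subfield.closure ((gen (Fv j) ![T'] : Set C) ∪ {q'}) := by
    intro j
    refine (hKle (g j)).trans ?_
    rw [← hT', ← hq', Subfield.closure_le, Set.union_subset_iff]
    refine ⟨fun x hx => Subfield.subset_closure (Or.inl (le_gen hx)), ?_⟩
    rintro x (hx | hx)
    · rw [hx]
      exact Subfield.subset_closure (Or.inl (gen_mem (τ := ![T']) 0))
    · rw [Set.mem_singleton_iff.mp hx]
      exact Subfield.subset_closure (Or.inr rfl)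
  refine no_family_V (F := F) (C := C) (J := J) (B := B) (D := D) (M := M) h hp0 hν1 hν hd
    (show 1 ≤ m + 1 by omega) (vv := vv) hFs hκs (by rw [hxg]; exact hx₀) (Fv := Fv) hFsv hFv hvFv
    (T := T') (κ := κ)
    (fun x => ?_) (by rw [hT']; exact hTκ) ?_ (q := q') (w := fun l => algebraMap k C (ι (w l))) hs
    ?_ hqs (fun l => ?_) halgC (θ := θ) (z := z) (α := α) (fun j => (hlev j).mono (hle' j))
    (Δ := fun l => MvPolynomial.map (algebraMap Fs C) (Δ l)) (fun l s => ?_) (fun j => ?_)
    (fun j i i' hii => ?_)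
  · rw [hκ]
    exact Pool.Agent.TD.isAlgebraic_range_iff.symm
  · rw [hxg]
    intro y hy hya A hκA hAcl hxA
    have h1 := hWR₀ y (hFvle hy) hya
    have h2 : acl (hi (κs.map (UP.cst π)) (xg π fun j i => algebraMap F C (v₀ j i))) ≤ A := by
      intro z hz
      apply hAcl
      refine isAlgebraic_mono ?_ (mem_acl.1 hz)
      unfold hi
      rw [Subfield.closure_le, Set.union_subset_iff]
      refine ⟨hκA, ?_⟩
      rintro _ ⟨i, rfl⟩
      exact hxA i.1 i.2.succ (Fin.succ_ne_zero _)
    exact gn_mono h2 h1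
  · change algebraMap k C (ι (w _)) = T' * algebraMap k C (ι (w 0))
    rw [hT', ← map_mul, ← hw1]
    rfl
  · have h1 : Subfield.closure ((Fs : Set C) ∪ {T', q'}) ≤
        Subfield.closure ((gen Fs ![T'] : Set C) ∪ {q'}) := by
      rw [Subfield.closure_le, Set.union_subset_iff]
      refine ⟨fun x hx => Subfield.subset_closure (Or.inl (le_gen hx)), ?_⟩
      rintro x (hx | hx)
      · rw [hx]
        exact Subfield.subset_closure (Or.inl (gen_mem (τ := ![T']) 0))
      · rw [Set.mem_singleton_iff.mp hx]
        exact Subfield.subset_closure (Or.inr rfl)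
    exact h1 (hwmem l)
  · rw [MvPolynomial.coeff_map]
    exact Subtype.property _
  · obtain ⟨l, hl⟩ := (hBj j).1
    refine ⟨l, ?_⟩
    rw [haev]
    exact hl
  · have hlead : ∑ e : Fin (m + 2),
        algebraMap F C (vv j (Fin.last d, e)) * algebraMap k C (ι (w e)) ≠ 0 := by
      intro h0
      apply (hlev j).lead
      rw [h0, mul_zero]
    have hroot : ∀ i, ∑ l : Fin (d + 1), (∑ e, algebraMap F C (vv j (l, e)) *
        algebraMap k C (ι (w e))) * θ j i ^ (l : ℕ) = 0 := by
      intro i
      have h1 := (hlev j).root i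
      simp only [mul_assoc] at h1
      rw [← Finset.mul_sum] at h1
      exact (mul_eq_zero.1 h1).resolve_left (pow_ne_zero _ hlead)
    have h1 := (hBj j).2 (K := (Kb (g j)).map (algebraMap k C))
      (fun x hx => hkadj x (by
        obtain ⟨y, -, rfl⟩ := hx
        exact ⟨y, rfl⟩)) (hlev j) hroot
      (fun V _ hκV hg σ hσ => hin j V (fun c => hκV _ ((hκ _).2 (by
        rw [hmap]
        exact isAlgebraic_algebraMap c))) hg σ hσ) i i' hii
    simp only [haev]
    rw [← hcl]
    exact h1

end Pool.Agent.UT
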