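import Pool.Agent.Helper10.UT.KeyV
import Pool.Agent.Helper10.UT.K4
import Pool.Agent.Helper10.UT.K5
import Pool.Agent.Helper13.SX.LevS
import Pool.Agent.Helper10.TQ.LevQ

/-!
# Project UT: the key statements for the curves, for varying fields of constants
-/

universe u

namespace Pool.Agent.UT

open IntermediateField Pool.Agent.Helper37.UL UL Pool.Agent.PL Pool.Agent.BT Pool.Agent.OPN
open Pool.Agent.OPG
open Pool.Agent.SX (HasSecX)

/-- the key statement for varying fields of constants -/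
theorem keyV1_of_noe {k₀ : Type u} [Field k₀] {p ν d r : ℕ} (hp : 0 < p) (hν : ¬ p ∣ ν)
    (hd : d = p * r) (hd3 : 3 ≤ d) {N t : ℕ} {ds : Fin t → ℕ} {U : Type} [Fintype U] {e : U → ℕ}
    {hh : ∀ u, MonV (N + 2) (e u) → k₀} (hNoe : NoeV ds hh) :
    KeyV1 k₀ (I := IxV (N + 2) d ds) fun _ _ ι f =>
      HasSecX p ν (mainS f) (relS (othS f) fun u q => ι (hh u q)) := by
  intro J F k C _ _ _ _ _ _ _ _ _ ι T q hT htop κ hκ Fs κs hκs Fv hFsv hFv hFs hq hι hs m w hw0 hw1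
    Uf S _ π h vv hvv hx hwr Kb hKF hKT hKq hKv hKle hmod
  have hC : IsAlgClosed C := IsAlgClosure.isAlgClosed k
  refine no_familyCV (F := F) (k := k) (C := C) ι hT htop hκ hFs hκs hq hι hs hp hν hd hd3 hw0 hw1
    hNoe h hFsv hFv hvv hx hwr hKF hKT hKq hKv hKle fun j => ?_
  obtain ⟨k₁, k', _, _, _, _, T', ψ, ι', f', hk₁, hfd, hKb, hk₁F, hψι, hψf, hP⟩ := hmod j
  have hk'0 : CharZero k' := charZero_of_injective_algebraMap (algebraMap k₁ k').injective
  have h1 := @SX.hasLevX_of_hasSecX k₁ k' _ _ _ _ hk₁ T' hfd p ν N d r hp hd (Fin t ⊕ U) _ _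
    (mainS f') (relS (othS f') fun u q => ι' (hh u q)) hP (AlgebraicClosure k') _ _ _
  have h2 : ∀ u q, algebraMap k C
      (relS (othS (sysW (ι ∘ w) (vv j))) (fun u q => ι (hh u q)) u q) =
      ψ (algebraMap k' (AlgebraicClosure k') (relS (othS f') (fun u q => ι' (hh u q)) u q)) := by
    rintro (s | u) q
    · exact hψf _
    · exact hψι _
  exact @transportK k₁ k' (AlgebraicClosure k') F k C _ _ _ _ _ _ _ _ _ _ _ _ _ ψ (Kb j) hKb hk₁F
    p ν N d r (Fin t ⊕ U) _ _ (mainS f') (relS (othS f') fun u q => ι' (hh u q))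
    (mainS (sysW (ι ∘ w) (vv j))) (relS (othS (sysW (ι ∘ w) (vv j))) fun u q => ι (hh u q))
    (fun q => hψf _) h2 h1

/-- the key statement for two quadrics, for varying fields of constants -/
theorem keyV1_of_cert {k₀ : Type u} [Field k₀] {N t : ℕ} (ht : t ≤ N) {ds : Fin t → ℕ} {s₀ : Fin t}
    (hs₀ : ds s₀ = 2) {U : Type} [Fintype U] {e : U → ℕ} {hh : ∀ u, MonV (N + 2) (e u) → k₀}
    {c : ℕ} (hc : 1 ≤ c) (hcert : TQ.CertV ht hh c) :
    KeyV1 k₀ (I := IxV (N + 2) 2 ds) fun _ _ ι f =>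
      HasSecV 2 (mainS f) (relS (othS f) fun u q => ι (hh u q)) := by
  intro J F k C _ _ _ _ _ _ _ _ _ ι T q hT htop κ hκ Fs κs hκs Fv hFsv hFv hFs hq hι hs m w hw0 hw1
    Uf S _ π h vv hvv hx hwr Kb hKF hKT hKq hKv hKle hmod
  have hC : IsAlgClosed C := IsAlgClosure.isAlgClosed k
  refine no_familyQV (F := F) (k := k) (C := C) ι hT htop hκ hFs hκs hq hι hs hw0 hw1 ht hs₀ hc
    hcert h hFsv hFv hvv hx hwr hKF hKT hKq hKv hKle fun j => ?_
  obtain ⟨k₁, k', _, _, _, _, T', ψ, ι', f', hk₁, hfd, hKb, hk₁F, hψι, hψf, hP⟩ := hmod j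
  have hk'0 : CharZero k' := charZero_of_injective_algebraMap (algebraMap k₁ k').injective
  have h1 := @TQ.hasLevQ_of_hasSecV k₁ k' _ _ _ _ hk₁ T' hfd N 2 (Fin t ⊕ U) _ _
    (mainS f') (relS (othS f') fun u q => ι' (hh u q)) hP (AlgebraicClosure k') _ _ _
  have h2 : ∀ u q, algebraMap k C
      (relS (othS (sysW (ι ∘ w) (vv j))) (fun u q => ι (hh u q)) u q) =
      ψ (algebraMap k' (AlgebraicClosure k') (relS (othS f') (fun u q => ι' (hh u q)) u q)) := by
    rintro (s | u) q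
    · exact hψf _
    · exact hψι _
  exact @transportQK k₁ k' (AlgebraicClosure k') F k C _ _ _ _ _ _ _ _ _ _ _ _ _ ψ (Kb j) hKb hk₁F
    N 2 (Fin t ⊕ U) _ _ (mainS f') (relS (othS f') fun u q => ι' (hh u q))
    (mainS (sysW (ι ∘ w) (vv j))) (relS (othS (sysW (ι ∘ w) (vv j))) fun u q => ι (hh u q))
    (fun q => hψf _) h2 h1

end Pool.Agent.UT
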