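import Pool.Agent.Helper10.UT.E6
import Pool.Agent.Helper13.OPG.E6
import Pool.Agent.Helper37.OPG.U3

/-!
# Project UT: subsets of the parameter space given by polynomials without root, uniformly in the field of constants
-/

universe u v w

namespace Pool.Agent.UT

open MvPolynomial IntermediateField Pool.Agent.Helper37.UL UL Pool.Agent.OPN Pool.Agent.OPG

section equiv

variable {F₀ : Type u} [Field F₀] {Q Q' Q'' : Type}

/-- the extension of constants of a homomorphism of polynomial rings -/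
noncomputable def extH (φ : MvPolynomial Q F₀ →ₐ[F₀] MvPolynomial Q' F₀) :
    MvPolynomial Q (AlgebraicClosure F₀) →ₐ[AlgebraicClosure F₀]
      MvPolynomial Q' (AlgebraicClosure F₀) :=
  aeval fun i => MvPolynomial.map (algebraMap F₀ (AlgebraicClosure F₀)) (φ (X i))

theorem extH_map (φ : MvPolynomial Q F₀ →ₐ[F₀] MvPolynomial Q' F₀) (p : MvPolynomial Q F₀) :
    extH φ (MvPolynomial.map (algebraMap F₀ (AlgebraicClosure F₀)) p) =
      MvPolynomial.map (algebraMap F₀ (AlgebraicClosure F₀)) (φ p) := by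
  induction p using MvPolynomial.induction_on with
  | C a =>
    unfold extH
    rw [map_C, aeval_C, ← MvPolynomial.algebraMap_eq, AlgHom.commutes, MvPolynomial.algebraMap_eq,
      MvPolynomial.algebraMap_eq, map_C]
  | add p q hp hq => rw [map_add, map_add, hp, hq, map_add, map_add]
  | mul_X p i hp =>
    rw [map_mul, map_mul, hp, map_mul, map_mul, map_X]
    congr 1
    unfold extH
    rw [aeval_X]

theorem extH_comp (φ : MvPolynomial Q F₀ →ₐ[F₀] MvPolynomial Q' F₀)
    (ψ : MvPolynomial Q' F₀ →ₐ[F₀] MvPolynomial Q'' F₀) :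
    (extH ψ).comp (extH φ) = extH (ψ.comp φ) := by
  apply MvPolynomial.algHom_ext
  intro i
  rw [AlgHom.comp_apply]
  have h1 : extH φ (X i) = MvPolynomial.map (algebraMap F₀ (AlgebraicClosure F₀)) (φ (X i)) := by
    unfold extH
    rw [aeval_X]
  have h2 : extH (ψ.comp φ) (X i) =
      MvPolynomial.map (algebraMap F₀ (AlgebraicClosure F₀)) (ψ (φ (X i))) := by
    unfold extH
    rw [aeval_X]
    rfl
  rw [h1, h2, extH_map]

theorem extH_id : extH (AlgHom.id F₀ (MvPolynomial Q F₀)) = AlgHom.id _ _ := by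
  apply MvPolynomial.algHom_ext
  intro i
  unfold extH
  rw [aeval_X, AlgHom.id_apply, AlgHom.id_apply, map_X]

theorem extH_symm (e : MvPolynomial Q F₀ ≃ₐ[F₀] MvPolynomial Q' F₀)
    (z : MvPolynomial Q (AlgebraicClosure F₀)) :
    extH (e.symm : MvPolynomial Q' F₀ →ₐ[F₀] MvPolynomial Q F₀)
      (extH (e : MvPolynomial Q F₀ →ₐ[F₀] MvPolynomial Q' F₀) z) = z := by
  rw [← AlgHom.comp_apply, extH_comp]
  have h1 : (e.symm : MvPolynomial Q' F₀ →ₐ[F₀] MvPolynomial Q F₀).comp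
      (e : MvPolynomial Q F₀ →ₐ[F₀] MvPolynomial Q' F₀) = AlgHom.id F₀ _ := by
    ext i
    simp
  rw [h1, extH_id, AlgHom.id_apply]

/-- change of variables -/
theorem NoRoot.equiv (e : MvPolynomial Q F₀ ≃ₐ[F₀] MvPolynomial Q' F₀)
    {Φ : Polynomial (MvPolynomial Q F₀)} (h : NoRoot Φ) :
    NoRoot (Φ.map ((e : MvPolynomial Q F₀ →ₐ[F₀] MvPolynomial Q' F₀) :
      MvPolynomial Q F₀ →+* MvPolynomial Q' F₀)) := by
  intro r hr
  let j : MvPolynomial Q' (AlgebraicClosure F₀) →+* MvPolynomial Q (AlgebraicClosure F₀) :=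
    (extH (e.symm : MvPolynomial Q' F₀ →ₐ[F₀] MvPolynomial Q F₀) : _ →+* _)
  have hj : Function.Injective j := by
    apply Function.LeftInverse.injective
      (g := extH (e : MvPolynomial Q F₀ →ₐ[F₀] MvPolynomial Q' F₀))
    intro z
    exact extH_symm e.symm z
  let φ : FractionRing (MvPolynomial Q' (AlgebraicClosure F₀)) →+*
      FractionRing (MvPolynomial Q (AlgebraicClosure F₀)) := IsFractionRing.map hj
  have hφ : ∀ p : MvPolynomial Q' (AlgebraicClosure F₀), φ (algebraMap _ _ p) =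
      algebraMap (MvPolynomial Q (AlgebraicClosure F₀)) _ (j p) := fun p => by
    simp only [φ]
    exact IsLocalization.map_eq _ p
  apply h (φ r)
  have h1 := congrArg φ hr
  rw [map_zero, Polynomial.eval₂_map, Polynomial.hom_eval₂] at h1
  rw [← h1]
  congr 1
  refine RingHom.ext fun p => ?_
  change algebraMap (MvPolynomial Q (AlgebraicClosure F₀)) _
    (MvPolynomial.map (algebraMap F₀ (AlgebraicClosure F₀)) p) =
    φ (algebraMap (MvPolynomial Q' (AlgebraicClosure F₀)) _ (MvPolynomial.map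
      (algebraMap F₀ (AlgebraicClosure F₀)) (e p)))
  rw [hφ]
  congr 1
  change _ = extH (e.symm : MvPolynomial Q' F₀ →ₐ[F₀] MvPolynomial Q F₀) _
  rw [extH_map]
  congr 1
  exact (e.symm_apply_apply p).symm

end equiv

/-- A property of vectors over the extensions `F` of `F₀` (`k = F k₀`, `F` and `k₀` free over `F₀`) which holds
only if one polynomial `Φ(a, X)` without root has a root in `F`; `Φ` does not depend on `X` if `B` holds. -/
def IsU (F₀ k₀ : Type u) [Field F₀] [Field k₀] [Algebra F₀ k₀] (B : Prop) {I : Type}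
    (A : ∀ (F k : Type u) [Field F] [Field k] [Algebra F k] [Algebra k₀ k], (I → F) → Prop) : Prop :=
  ∃ Φ : Polynomial (MvPolynomial I F₀), NoRoot Φ ∧ (B → Φ.natDegree = 0) ∧
    ∀ (F k : Type u) [Field F] [Field k] [Algebra F₀ F] [Algebra F k] [Algebra k₀ k]
      [Algebra F₀ k] [IsScalarTower F₀ F k] [IsScalarTower F₀ k₀ k],
      (∃ S : Finset F, Subfield.closure (S : Set F) = ⊤) →
      adjoin F (Set.range (algebraMap k₀ k)) = ⊤ →
      (∀ {n : ℕ} {x : Fin n → k₀}, AlgebraicIndependent F₀ x →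
        AlgebraicIndependent F (algebraMap k₀ k ∘ x)) →
      ∀ a : I → F, A F k a → ∃ x : F, Polynomial.eval₂ (aeR a) x Φ = 0

section

variable {F₀ k₀ : Type u} [Field F₀] [Field k₀] [Algebra F₀ k₀] {I I' E : Type} {B : Prop}

/-- hypersurfaces -/
lemma IsU.of_hyp {A : ∀ (F k : Type u) [Field F] [Field k] [Algebra F k] [Algebra k₀ k],
    (I → F) → Prop} (hA : IsHypU F₀ k₀ A) : IsU F₀ k₀ B A := by
  obtain ⟨Ψ, hΨ, h1⟩ := hA
  refine ⟨Polynomial.C Ψ, NoRoot.C hΨ, fun _ => Polynomial.natDegree_C _, ?_⟩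
  intro F k _ _ _ _ _ _ _ _ hF hk hfree a ha
  refine ⟨0, ?_⟩
  rw [Polynomial.eval₂_C]
  exact h1 F k hF hk (fun hx => hfree hx) a ha

lemma IsU.mono {A A' : ∀ (F k : Type u) [Field F] [Field k] [Algebra F k] [Algebra k₀ k],
    (I → F) → Prop} (hB : IsU F₀ k₀ B A')
    (h : ∀ (F k : Type u) [Field F] [Field k] [Algebra F₀ F] [Algebra F k] [Algebra k₀ k]
      [Algebra F₀ k] [IsScalarTower F₀ F k] [IsScalarTower F₀ k₀ k] (a : I → F),
      A F k a → A' F k a) : IsU F₀ k₀ B A := by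
  obtain ⟨Φ, hΦ, hB, h1⟩ := hB
  refine ⟨Φ, hΦ, hB, ?_⟩
  intro F k _ _ _ _ _ _ _ _ hF hk hfree a ha
  exact h1 F k hF hk (fun hx => hfree hx) a (h F k a ha)

lemma IsU.empty : IsU F₀ k₀ B (I := I) fun _ _ _ _ _ _ _ => False :=
  IsU.of_hyp IsHypU.empty

lemma IsU.or {A A' : ∀ (F k : Type u) [Field F] [Field k] [Algebra F k] [Algebra k₀ k],
    (I → F) → Prop} (hA : IsU F₀ k₀ B A) (hA' : IsU F₀ k₀ B A') :
    IsU F₀ k₀ B fun F k _ _ _ _ a => A F k a ∨ A' F k a := by
  obtain ⟨Φ, hΦ, hB, h1⟩ := hA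
  obtain ⟨Φ', hΦ', hB', h2⟩ := hA'
  refine ⟨Φ * Φ', hΦ.mul hΦ', fun b => ?_, ?_⟩
  · have h3 := Polynomial.natDegree_mul_le (p := Φ) (q := Φ')
    rw [hB b, hB' b] at h3
    omega
  intro F k _ _ _ _ _ _ _ _ hF hk hfree a ha
  rcases ha with ha | ha
  · obtain ⟨x, hx⟩ := h1 F k hF hk (fun hx => hfree hx) a ha
    exact ⟨x, by rw [Polynomial.eval₂_mul, hx, zero_mul]⟩
  · obtain ⟨x, hx⟩ := h2 F k hF hk (fun hx => hfree hx) a ha
    exact ⟨x, by rw [Polynomial.eval₂_mul, hx, mul_zero]⟩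

lemma IsU.bex {J : Type} (s : Finset J)
    {A : J → ∀ (F k : Type u) [Field F] [Field k] [Algebra F k] [Algebra k₀ k], (I → F) → Prop}
    (hA : ∀ j ∈ s, IsU F₀ k₀ B (A j)) :
    IsU F₀ k₀ B fun F k _ _ _ _ a => ∃ j ∈ s, A j F k a := by
  classical
  induction s using Finset.induction_on with
  | empty =>
    refine IsU.empty.mono ?_
    rintro F k _ _ _ _ _ _ _ _ a ⟨j, hj, -⟩
    exact absurd hj (Finset.notMem_empty j)
  | insert j s hj ih =>
    refine ((hA j (Finset.mem_insert_self _ _)).or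
      (ih fun i hi => hA i (Finset.mem_insert_of_mem hi))).mono ?_
    rintro F k _ _ _ _ _ _ _ _ a ⟨i, hi, hia⟩
    rcases Finset.mem_insert.1 hi with rfl | hi
    · exact Or.inl hia
    · exact Or.inr ⟨i, hi, hia⟩

/-- Linear changes of the parameters. -/
lemma IsU.comapLin [Fintype I] [DecidableEq I] [Fintype I'] [DecidableEq I']
    (L₀ : (I → F₀) ≃ₗ[F₀] (I' → F₀))
    (L : ∀ (F : Type u) [Field F], (I → F) →ₗ[F] (I' → F))
    (hL : ∀ (F : Type u) [Field F] [Algebra F₀ F] (v : I → F₀) (i' : I'),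
      L F (fun i => algebraMap F₀ F (v i)) i' = algebraMap F₀ F (L₀ v i'))
    {A : ∀ (F k : Type u) [Field F] [Field k] [Algebra F k] [Algebra k₀ k], (I' × E → F) → Prop}
    (hA : IsU F₀ k₀ B A) :
    IsU F₀ k₀ B fun F k _ _ _ _ (a : I × E → F) =>
      A F k (fun q : I' × E => L F (fun i => a (i, q.2)) q.1) := by
  obtain ⟨Φ, hΦ, hB, h1⟩ := hA
  refine ⟨_, hΦ.equiv (UL.linEquiv E L₀), fun b => ?_, ?_⟩
  · rw [Polynomial.natDegree_map_eq_of_injective]
    · exact hB b
    · exact (UL.linEquiv E L₀).injective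
  intro F k _ _ _ _ _ _ _ _ hF hk hfree a ha
  obtain ⟨x, hx⟩ := h1 F k hF hk (fun hx => hfree hx) _ ha
  refine ⟨x, ?_⟩
  rw [← hx, Polynomial.eval₂_map]
  have h : (aeval a : MvPolynomial (I × E) F₀ →ₐ[F₀] F).comp (UL.linHom E L₀.toLinearMap) =
      aeval fun q => L F (fun i => a (i, q.2)) q.1 := by
    apply MvPolynomial.algHom_ext
    rintro ⟨i', e⟩
    rw [AlgHom.comp_apply]
    unfold UL.linHom
    rw [aeval_X, aeval_X, map_sum, UL.lin_apply]
    refine Finset.sum_congr rfl fun i _ => ?_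
    rw [map_mul, aeval_X, aeval_C, mul_comm]
    congr 1
    have h3 := hL F (Pi.single i 1) i'
    have h4 : (fun j => algebraMap F₀ F ((Pi.single i 1 : I → F₀) j)) = Pi.single i 1 := by
      funext j
      by_cases hj : j = i
      · rw [hj, Pi.single_eq_same, Pi.single_eq_same, map_one]
      · rw [Pi.single_eq_of_ne hj, Pi.single_eq_of_ne hj, map_zero]
    rw [h4] at h3
    rw [h3]
    rfl
  congr 1
  refine RingHom.ext fun p => ?_
  exact congrArg (fun φ : MvPolynomial (I' × E) F₀ →ₐ[F₀] F => φ p) h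

end

/-- constant fields -/
theorem keyGW_of_keyV {k₀ : Type u} [Field k₀] {I : Type}
    {P : ∀ (k' : Type u) [Field k'], (k₀ →+* k') → (I → k') → Prop} (key : KeyV k₀ P) :
    KeyGW k₀ P := by
  intro J F k C _ _ _ _ _ _ _ _ _ ι T q hT htop κ hκ Fs κs hFs hκs hq hι m w hs hw0 hw1 Uf S _ π h vv
    hx hwr Kb hKF hKT hKq hKv hmod
  refine key ι hT htop hκ hκs (Fv := fun _ => (algebraMap F C).fieldRange) (fun _ => hFs)
    (fun _ => le_rfl) hFs hq hι hs hw0 hw1 h (fun j i => ⟨_, rfl⟩) hx (fun z hz hza => ?_) hKF hKT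
    hKq hKv (fun j => ?_) hmod
  · exact hwr z (h.fsub_le_gsub (fun _ => le_rfl) hz) hza
  · rintro _ ⟨y, -, rfl⟩
    have hy : y ∈ adjoin F {T, q} := by
      rw [htop]
      trivial
    have h1 : adjoin F {T, q} ≤ Subfield.toIntermediateField
        ((Subfield.closure (((algebraMap F C).fieldRange : Set C) ∪
          {algebraMap k C T, algebraMap k C q})).comap (algebraMap k C))
        (fun x => Subfield.subset_closure (Or.inl ⟨x, by
          rw [IsScalarTower.algebraMap_apply F k C]⟩)) := by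
      rw [adjoin_le_iff]
      rintro x (rfl | rfl)
      · exact Subfield.subset_closure (Or.inr (Or.inl rfl))
      · exact Subfield.subset_closure (Or.inr (Or.inr rfl))
    exact h1 hy

/-- **The reduction to the key statement.** -/
theorem isU_of_keyV {F₀ k₀ : Type u} [Field F₀] [CharZero F₀] [Field k₀] [Algebra F₀ k₀]
    {I : Type} [Finite I] {P : ∀ (k' : Type u) [Field k'], (k₀ →+* k') → (I → k') → Prop}
    (key : KeyV k₀ P)
    (hk₀ : ∃ S : Finset k₀, Subfield.closure (S : Set k₀) = ⊤) {m : ℕ} {w : Fin (m + 1) → k₀}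
    {B : Prop} {i l : Fin (m + 1)} (hT : Transcendental F₀ (w i / w l))
    (hB : B → ∃ i j l : Fin (m + 1), AlgebraicIndependent F₀ ![w i / w l, w j / w l]) :
    IsU F₀ k₀ B fun F k _ _ _ _ (a : I × Fin (m + 1) → F) =>
      P k (algebraMap k₀ k) (PL.sysW (algebraMap k₀ k ∘ w) a) := by
  by_cases b : B
  · obtain ⟨i, j, l, hT2⟩ := hB b
    exact IsU.of_hyp (closed_of_keyGW (keyGW_of_keyV key) hk₀ hT2)
  · obtain ⟨Φ, hΦ, h1⟩ := thin_of_keyV key hk₀ hT
    exact ⟨Φ, hΦ, fun b' => absurd b' b, h1⟩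

end Pool.Agent.UT
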